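import Pool.Agent.H63TC.Main

set_option autoImplicit false

/-!
# The affinity of two rows of the noise kernel
-/

namespace Pool.Agent.H63TC.Cd

open Finset

private theorem coord {ρ : ℝ} (h0 : 0 < ρ) (h1 : ρ < 1) (a b : Bool) :
    ∑ c : Bool, Real.sqrt ((if c = a then (1 + ρ) / 2 else (1 - ρ) / 2) *
      (if c = b then (1 + ρ) / 2 else (1 - ρ) / 2)) =
      if a ≠ b then Real.sqrt (1 - ρ ^ 2) else 1 := by
  have e1 : Real.sqrt ((1 + ρ) / 2 * ((1 + ρ) / 2)) = (1 + ρ) / 2 :=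
    Real.sqrt_mul_self (by linarith)
  have e2 : Real.sqrt ((1 - ρ) / 2 * ((1 - ρ) / 2)) = (1 - ρ) / 2 :=
    Real.sqrt_mul_self (by linarith)
  have e3 : Real.sqrt ((1 + ρ) / 2 * ((1 - ρ) / 2)) = Real.sqrt (1 - ρ ^ 2) / 2 := by
    have e : (1 + ρ) / 2 * ((1 - ρ) / 2) = (1 - ρ ^ 2) / 2 ^ 2 := by ring
    rw [e, Real.sqrt_div' _ (by positivity), Real.sqrt_sq (by norm_num)]
  have e4 : Real.sqrt ((1 - ρ) / 2 * ((1 + ρ) / 2)) = Real.sqrt (1 - ρ ^ 2) / 2 := by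
    rw [mul_comm, e3]
  rw [Fintype.sum_bool]
  cases a <;> cases b <;> simp [e1, e2, e3, e4] <;> ring

/-- The affinity of two rows of the noise kernel. -/
theorem affinity {ρ : ℝ} (h0 : 0 < ρ) (h1 : ρ < 1) {n : ℕ} (y z : Fin n → Bool) :
    ∑ x : Fin n → Bool, Real.sqrt (wt ρ x y * wt ρ x z) =
      Real.sqrt (1 - ρ ^ 2) ^ hammingDist y z := by
  have h2 : ∀ x : Fin n → Bool, Real.sqrt (wt ρ x y * wt ρ x z) =
      ∏ i, Real.sqrt ((if x i = y i then (1 + ρ) / 2 else (1 - ρ) / 2) *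
        (if x i = z i then (1 + ρ) / 2 else (1 - ρ) / 2)) := by
    intro x
    unfold wt
    rw [← prod_mul_distrib, Real.sqrt_prod]
    intro i _
    refine mul_nonneg ?_ ?_ <;> split_ifs <;> linarith
  rw [sum_congr rfl fun x _ => h2 x]
  have h3 : ∀ g : Fin n → Bool → ℝ, ∑ x : Fin n → Bool, ∏ i, g i (x i) =
      ∏ i, ∑ b : Bool, g i b := by
    intro g
    rw [Finset.prod_univ_sum, Fintype.piFinset_univ]
  rw [h3 fun i c => Real.sqrt ((if c = y i then (1 + ρ) / 2 else (1 - ρ) / 2) *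
        (if c = z i then (1 + ρ) / 2 else (1 - ρ) / 2))]
  rw [prod_congr rfl fun i _ => coord h0 h1 (y i) (z i), ← prod_filter, prod_const]
  rfl

end Pool.Agent.H63TC.Cd
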