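import Pool.Agent.H63TC.Main

set_option autoImplicit false

namespace Pool.Agent.H63TC.Cd

open Finset

private theorem aff45 {ρ : ℝ} (h0 : 0 < ρ) (h1 : ρ < 1) {n : ℕ} (y z : Fin n → Bool) :
    ∑ x : Fin n → Bool, Real.sqrt (wt ρ x y * wt ρ x z) =
      Real.sqrt (1 - ρ ^ 2) ^ hammingDist y z := by
  have hp : 0 ≤ (1 + ρ) / 2 := by linarith
  have hq : 0 ≤ (1 - ρ) / 2 := by linarith
  have e1 : ∀ x : Fin n → Bool, Real.sqrt (wt ρ x y * wt ρ x z) =
      ∏ i, Real.sqrt ((if x i = y i then (1 + ρ) / 2 else (1 - ρ) / 2) *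
        (if x i = z i then (1 + ρ) / 2 else (1 - ρ) / 2)) := by
    intro x
    unfold wt
    rw [← prod_mul_distrib, Real.sqrt_prod _ (fun i _ => ?_)]
    refine mul_nonneg ?_ ?_ <;> split_ifs <;> assumption
  simp only [e1]
  have e2 := (Finset.prod_univ_sum (fun _ : Fin n => (Finset.univ : Finset Bool))
    (fun i b => Real.sqrt ((if b = y i then (1 + ρ) / 2 else (1 - ρ) / 2) *
        (if b = z i then (1 + ρ) / 2 else (1 - ρ) / 2)))).symm
  rw [Fintype.piFinset_univ] at e2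
  rw [e2]
  have hs : Real.sqrt ((1 + ρ) / 2 * ((1 - ρ) / 2)) = Real.sqrt (1 - ρ ^ 2) / 2 := by
    rw [show (1 + ρ) / 2 * ((1 - ρ) / 2) = (1 - ρ ^ 2) / 2 ^ 2 by ring,
      Real.sqrt_div' _ (by positivity), Real.sqrt_sq (by norm_num)]
  have hs' : Real.sqrt ((1 - ρ) / 2 * ((1 + ρ) / 2)) = Real.sqrt (1 - ρ ^ 2) / 2 := by
    rw [mul_comm, hs]
  have e3 : ∀ i, ∑ b : Bool, Real.sqrt ((if b = y i then (1 + ρ) / 2 else (1 - ρ) / 2) *
        (if b = z i then (1 + ρ) / 2 else (1 - ρ) / 2)) =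
      if y i ≠ z i then Real.sqrt (1 - ρ ^ 2) else 1 := by
    intro i
    rw [Fintype.sum_bool]
    cases hy : y i <;> cases hz : z i <;>
      simp [hs, hs', Real.sqrt_mul_self hp, Real.sqrt_mul_self hq] <;> ring
  simp only [e3]
  rw [prod_ite]
  simp only [prod_const_one, mul_one, prod_const]
  rfl

theorem code_sum {ρ : ℝ} (h0 : 0 < ρ) (h1 : ρ < 1) {n : ℕ} (f : (Fin n → Bool) → ℝ)
    (hf : ∀ x, 0 ≤ f x) (hm : ∑ x, f x = 2 ^ n) (η : ℝ)
    (hη : ∀ y, f y ≠ 0 → ∑ z ∈ univ.filter (fun z : Fin n → Bool => f z ≠ 0 ∧ z ≠ y),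
      Real.sqrt (1 - ρ ^ 2) ^ hammingDist y z ≤ η) :
    ∑ y, ∑ z ∈ univ.erase y, ∑ x, Real.sqrt ((wt ρ x y * f y) * (wt ρ x z * f z)) ≤
      2 ^ n * η := by
  classical
  set s := Real.sqrt (1 - ρ ^ 2) with hsdef
  have hs : 0 ≤ s := Real.sqrt_nonneg _
  have e1 : ∀ y z : Fin n → Bool,
      ∑ x, Real.sqrt ((wt ρ x y * f y) * (wt ρ x z * f z)) =
        Real.sqrt (f y * f z) * s ^ hammingDist y z := by
    intro y z
    rw [hsdef, ← aff45 h0 h1 y z, mul_sum]
    refine sum_congr rfl fun x _ => ?_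
    rw [← Real.sqrt_mul (mul_nonneg (hf y) (hf z))]
    congr 1
    ring
  simp only [e1]
  have e2 : ∀ y z : Fin n → Bool, Real.sqrt (f y * f z) * s ^ hammingDist y z ≤
      (if f y ≠ 0 ∧ f z ≠ 0 then f y / 2 * s ^ hammingDist y z else 0) +
      (if f y ≠ 0 ∧ f z ≠ 0 then f z / 2 * s ^ hammingDist y z else 0) := by
    intro y z
    have hp : 0 ≤ s ^ hammingDist y z := pow_nonneg hs _
    by_cases h : f y ≠ 0 ∧ f z ≠ 0
    · rw [if_pos h, if_pos h, ← add_mul]
      refine mul_le_mul_of_nonneg_right ?_ hp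
      rw [show f y / 2 + f z / 2 = (f y + f z) / 2 by ring]
      refine Real.sqrt_le_iff.mpr ⟨by have := hf y; have := hf z; positivity, ?_⟩
      nlinarith [sq_nonneg (f y - f z)]
    · rw [if_neg h, if_neg h]
      have : f y * f z = 0 := by
        by_contra h3
        exact h ⟨left_ne_zero_of_mul h3, right_ne_zero_of_mul h3⟩
      rw [this, Real.sqrt_zero, zero_mul, add_zero]
  set F : (Fin n → Bool) → (Fin n → Bool) → ℝ := fun y z =>
    if f y ≠ 0 ∧ f z ≠ 0 then f y / 2 * s ^ hammingDist y z else 0 with hF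
  have e3 : ∀ y z : Fin n → Bool,
      (if f y ≠ 0 ∧ f z ≠ 0 then f z / 2 * s ^ hammingDist y z else 0) = F z y := by
    intro y z
    rw [hF]
    simp only [hammingDist_comm y z, and_comm]
  have e4 : ∑ y, ∑ z ∈ univ.erase y, Real.sqrt (f y * f z) * s ^ hammingDist y z ≤
      ∑ y, ∑ z ∈ univ.erase y, F y z + ∑ y, ∑ z ∈ univ.erase y, F z y := by
    rw [← sum_add_distrib]
    refine sum_le_sum fun y _ => ?_
    rw [← sum_add_distrib]
    refine sum_le_sum fun z _ => ?_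
    rw [← e3 y z]
    exact e2 y z
  have e5 : ∑ y, ∑ z ∈ univ.erase y, F z y = ∑ y, ∑ z ∈ univ.erase y, F y z := by
    rw [sum_comm' (t' := univ) (s' := fun z => univ.erase z)]
    intro y z
    simp only [mem_univ, mem_erase, true_and, and_true, ne_eq, eq_comm]
  have e6 : ∀ y : Fin n → Bool, ∑ z ∈ univ.erase y, F y z ≤ f y / 2 * η := by
    intro y
    by_cases hy : f y = 0
    · rw [hy, zero_div, zero_mul]
      refine le_of_eq (sum_eq_zero fun z _ => ?_)
      rw [hF]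
      simp [hy]
    · have h3 : ∑ z ∈ univ.erase y, F y z = f y / 2 *
          ∑ z ∈ univ.filter (fun z : Fin n → Bool => f z ≠ 0 ∧ z ≠ y),
            s ^ hammingDist y z := by
        rw [mul_sum, sum_filter]
        rw [← sum_erase_add univ _ (mem_univ y)]
        rw [if_neg (by simp), add_zero]
        refine sum_congr rfl fun z hz => ?_
        have hz' : z ≠ y := (mem_erase.1 hz).1
        rw [hF]
        by_cases h4 : f z = 0
        · simp [h4]
        · simp [h4, hy, hz']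
      rw [h3]
      exact mul_le_mul_of_nonneg_left (hη y hy) (by have := hf y; positivity)
  have e7 : ∑ y, ∑ z ∈ univ.erase y, F y z ≤ 2 ^ n * η / 2 := by
    refine (sum_le_sum fun y _ => e6 y).trans (le_of_eq ?_)
    rw [← sum_mul, ← sum_div, hm]
    ring
  refine e4.trans ?_
  rw [e5]
  linarith

end Pool.Agent.H63TC.Cd
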