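import Pool.Agent.H63TC.Main

set_option autoImplicit false

namespace Pool.Agent.H63TC.Cd

open Finset

open Classical in
theorem max_radial {ρ : ℝ} (h0 : 0 < ρ) (h1 : ρ < 1) {n : ℕ} {ι : Type} [Fintype ι]
    (g : ι → (Fin n → Bool) → ℝ) (u : ι → Fin n → Bool) (hg : ∀ j x, 0 ≤ g j x)
    (hr : ∀ j x y, hammingDist x (u j) = hammingDist y (u j) → g j x = g j y)
    (hs : ∑ j, ∑ x, g j x = 2 ^ n) (t : ℝ) (ht : 4 / (1 - ρ) ≤ t) :
    ((univ.filter fun x : Fin n → Bool => ∃ j, t ≤ noise ρ (g j) x).card : ℝ) / 2 ^ n ≤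
      16 / (t * Real.sqrt ((1 - ρ) * Real.log t)) := by
  have hρ : 0 < 1 - ρ := by linarith
  have h4 : 4 < 4 / (1 - ρ) := by
    rw [lt_div_iff₀ hρ]; linarith
  have ht4 : 4 < t := lt_of_lt_of_le h4 ht
  have ht0 : 0 < t := by linarith
  have hl : 0 < Real.log t := Real.log_pos (by linarith)
  have h2 : (0 : ℝ) < 2 ^ n := by positivity
  set B : ℝ := 16 / (t * Real.sqrt ((1 - ρ) * Real.log t)) with hB
  have hsq : 0 < Real.sqrt ((1 - ρ) * Real.log t) := Real.sqrt_pos.mpr (mul_pos hρ hl)
  have hB0 : 0 < B := by positivity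
  let a : ι → ℝ := fun j => (∑ x, g j x) / 2 ^ n
  have ha0 : ∀ j, 0 ≤ a j := fun j => div_nonneg (sum_nonneg fun x _ => hg j x) h2.le
  have hasum : ∑ j, a j = 1 := by
    simp only [a]
    rw [← sum_div, hs, div_self h2.ne']
  have ha1 : ∀ j, a j ≤ 1 := fun j => by
    rw [← hasum]
    exact single_le_sum (fun i _ => ha0 i) (mem_univ j)
  have key : ∀ j, ((univ.filter fun x : Fin n → Bool => t ≤ noise ρ (g j) x).card : ℝ) / 2 ^ n ≤
      a j * B := by
    intro j
    rcases (ha0 j).eq_or_lt with h | h
    · -- the function is zero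
      have hz : ∑ x, g j x = 0 := by
        have : (∑ x, g j x) / 2 ^ n = 0 := h.symm
        rcases div_eq_zero_iff.mp this with h' | h'
        · exact h'
        · exact absurd h' h2.ne'
      have hz' : ∀ x, g j x = 0 := fun x =>
        (sum_eq_zero_iff_of_nonneg (fun x _ => hg j x)).mp hz x (mem_univ x)
      have hn : ∀ x, noise ρ (g j) x = 0 := by
        intro x
        unfold noise
        simp [hz']
      have he : (univ.filter fun x : Fin n → Bool => t ≤ noise ρ (g j) x) = ∅ := by
        apply filter_eq_empty_iff.mpr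
        intro x _
        rw [hn x]
        linarith
      rw [he, ← h]
      simp
    · have hr' := radial h0 h1 (fun x => g j x / a j) (fun x => div_nonneg (hg j x) h.le)
        (by
          rw [← sum_div]
          simp only [a] at h ⊢
          rw [div_div_eq_mul_div, mul_comm, mul_div_assoc, div_self, mul_one]
          intro h'
          rw [h', zero_div] at h
          exact lt_irrefl _ h) (u j)
        (fun x y hxy => by rw [hr j x y hxy]) (t / a j)
        (le_trans ht (by rw [le_div_iff₀ h]; nlinarith [ha1 j]))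
      have hno : ∀ x, noise ρ (fun x => g j x / a j) x = noise ρ (g j) x / a j := by
        intro x
        unfold noise
        rw [sum_div]
        exact sum_congr rfl fun y _ => by ring
      have he : (univ.filter fun x : Fin n → Bool => t / a j ≤
          noise ρ (fun x => g j x / a j) x) =
          (univ.filter fun x : Fin n → Bool => t ≤ noise ρ (g j) x) := by
        apply filter_congr
        intro x _
        rw [hno x, div_le_div_iff_of_pos_right h]
      rw [he] at hr'
      refine le_trans hr' ?_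
      have hta : t ≤ t / a j := by rw [le_div_iff₀ h]; nlinarith [ha1 j]
      have hlog : Real.log t ≤ Real.log (t / a j) := Real.log_le_log ht0 hta
      have hsq' : Real.sqrt ((1 - ρ) * Real.log t) ≤ Real.sqrt ((1 - ρ) * Real.log (t / a j)) :=
        Real.sqrt_le_sqrt (mul_le_mul_of_nonneg_left hlog hρ.le)
      have hsp : 0 < Real.sqrt ((1 - ρ) * Real.log (t / a j)) := lt_of_lt_of_le hsq hsq'
      rw [hB]
      calc 16 / (t / a j * Real.sqrt ((1 - ρ) * Real.log (t / a j)))
          ≤ 16 / (t / a j * Real.sqrt ((1 - ρ) * Real.log t)) := by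
            apply div_le_div_of_nonneg_left (by norm_num) (by positivity)
            exact mul_le_mul_of_nonneg_left hsq' (by positivity)
        _ = a j * (16 / (t * Real.sqrt ((1 - ρ) * Real.log t))) := by
            field_simp
  have hcov : ((univ.filter fun x : Fin n → Bool => ∃ j, t ≤ noise ρ (g j) x).card : ℝ) ≤
      ∑ j, ((univ.filter fun x : Fin n → Bool => t ≤ noise ρ (g j) x).card : ℝ) := by
    have hsub : (univ.filter fun x : Fin n → Bool => ∃ j, t ≤ noise ρ (g j) x) ⊆
        univ.biUnion fun j => univ.filter fun x : Fin n → Bool => t ≤ noise ρ (g j) x := by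
      intro x hx
      rw [mem_filter] at hx
      obtain ⟨j, hj⟩ := hx.2
      rw [mem_biUnion]
      exact ⟨j, mem_univ _, mem_filter.mpr ⟨mem_univ _, hj⟩⟩
    have := (card_le_card hsub).trans card_biUnion_le
    exact_mod_cast this
  calc ((univ.filter fun x : Fin n → Bool => ∃ j, t ≤ noise ρ (g j) x).card : ℝ) / 2 ^ n
      ≤ (∑ j, ((univ.filter fun x : Fin n → Bool => t ≤ noise ρ (g j) x).card : ℝ)) / 2 ^ n :=
        div_le_div_of_nonneg_right hcov h2.le
    _ = ∑ j, ((univ.filter fun x : Fin n → Bool => t ≤ noise ρ (g j) x).card : ℝ) / 2 ^ n := by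
        rw [sum_div]
    _ ≤ ∑ j, a j * B := sum_le_sum fun j _ => key j
    _ = B := by rw [← sum_mul, hasum, one_mul]

end Pool.Agent.H63TC.Cd
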