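import Pool.Agent.H63TC.CdT
import Pool.Agent.H63TC.CdC
import Pool.Agent.H63TC.CdM

set_option autoImplicit false

open Finset

namespace Pool.Agent.H63TC.Cd

/-- The value of the noise operator on an atom. -/
theorem noise_atom {ρ : ℝ} {n : ℕ} (f : (Fin n → Bool) → ℝ) (y x : Fin n → Bool) :
    noise ρ (fun z => if z = y then f y else 0) x = wt ρ x y * f y := by
  unfold noise
  simp [mul_ite]

theorem atom_radial {n : ℕ} (f : (Fin n → Bool) → ℝ) (y x z : Fin n → Bool)
    (h : hammingDist x y = hammingDist z y) :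
    (if x = y then f y else 0) = if z = y then f y else 0 := by
  by_cases hx : x = y
  · have hz : z = y := by
      rw [hx, hammingDist_self] at h
      exact hammingDist_eq_zero.1 h.symm
    rw [if_pos hx, if_pos hz]
  · have hz : z ≠ y := by
      intro hz
      rw [hz, hammingDist_self] at h
      exact hx (hammingDist_eq_zero.1 h)
    rw [if_neg hx, if_neg hz]

open Classical in
/-- **Maximal form**, all functions. -/
theorem max_all {ρ : ℝ} (h0 : 0 < ρ) (h1 : ρ < 1) {n : ℕ} (f : (Fin n → Bool) → ℝ)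
    (hf : ∀ x, 0 ≤ f x) (hm : ∑ x, f x = 2 ^ n) (t : ℝ) (ht : 4 / (1 - ρ) ≤ t) :
    ((univ.filter fun x : Fin n → Bool => ∃ y, t ≤ wt ρ x y * f y).card : ℝ) / 2 ^ n ≤
      16 / (t * Real.sqrt ((1 - ρ) * Real.log t)) := by
  have h := max_radial h0 h1 (ι := Fin n → Bool) (fun y z => if z = y then f y else 0)
    (fun y => y) (fun y z => by
      show 0 ≤ (if z = y then f y else 0)
      split_ifs
      · exact hf y
      · exact le_rfl)
    (fun y x z hxz => atom_radial f y x z hxz)
    (by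
      rw [← hm]
      exact Finset.sum_congr rfl fun y _ => by simp) t ht
  simpa only [noise_atom] using h

open Classical in
/-- **Sums of radial functions.** -/
theorem sum_radial {ρ : ℝ} (h0 : 0 < ρ) (h1 : ρ < 1) {n : ℕ} {ι : Type} [Fintype ι]
    (g : ι → (Fin n → Bool) → ℝ) (u : ι → Fin n → Bool) (hg : ∀ j x, 0 ≤ g j x)
    (hr : ∀ j x y, hammingDist x (u j) = hammingDist y (u j) → g j x = g j y)
    (hs : ∑ j, ∑ x, g j x = 2 ^ n) (t : ℝ) (ht : 8 / (1 - ρ) ≤ t) :
    ((univ.filter fun x : Fin n → Bool => t ≤ noise ρ (fun z => ∑ j, g j z) x).card : ℝ) / 2 ^ n ≤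
      (1 / t) * (32 / Real.sqrt ((1 - ρ) * Real.log (t / 2)) +
        (∑ i, ∑ j ∈ univ.erase i, ∑ x, Real.sqrt (noise ρ (g i) x * noise ρ (g j) x)) / 2 ^ n) := by
  have hρ : 0 < 1 - ρ := by linarith
  have h2 : (0 : ℝ) < 2 ^ n := by positivity
  have ht8 : 8 ≤ t := by
    refine le_trans ?_ ht
    rw [le_div_iff₀ hρ]
    nlinarith
  have ht0 : 0 < t := by linarith
  have ht2 : 4 / (1 - ρ) ≤ t / 2 := by
    have e : 4 / (1 - ρ) = 8 / (1 - ρ) / 2 := by ring
    rw [e]
    linarith
  have hw : ∀ x y : Fin n → Bool, 0 ≤ wt ρ x y := by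
    intro x y
    unfold wt
    refine Finset.prod_nonneg fun i _ => ?_
    split_ifs <;> linarith
  have hN : ∀ j x, 0 ≤ noise ρ (g j) x := by
    intro j x
    unfold noise
    exact Finset.sum_nonneg fun y _ => mul_nonneg (hw x y) (hg j y)
  have hsum : ∀ x, noise ρ (fun z => ∑ j, g j z) x = ∑ j, noise ρ (g j) x := by
    intro x
    unfold noise
    rw [Finset.sum_comm]
    exact Finset.sum_congr rfl fun y _ => by rw [Finset.mul_sum]
  have hT := two_scale (fun j x => noise ρ (g j) x) hN t ht0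
  have hM := max_radial h0 h1 g u hg hr hs (t / 2) ht2
  simp only [hsum]
  have e32 : 16 / (t / 2 * Real.sqrt ((1 - ρ) * Real.log (t / 2))) =
      (1 / t) * (32 / Real.sqrt ((1 - ρ) * Real.log (t / 2))) := by
    have hl : 0 < Real.log (t / 2) := Real.log_pos (by linarith)
    have hq : 0 < Real.sqrt ((1 - ρ) * Real.log (t / 2)) := Real.sqrt_pos.mpr (mul_pos hρ hl)
    field_simp
    norm_num
  rw [mul_add, ← e32]
  refine le_trans (div_le_div_of_nonneg_right hT h2.le) ?_
  rw [add_div]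
  refine add_le_add ?_ (le_of_eq (by ring))
  convert hM using 3

open Classical in
/-- **Functions on separated codes.** -/
theorem code {ρ : ℝ} (h0 : 0 < ρ) (h1 : ρ < 1) {n : ℕ} (f : (Fin n → Bool) → ℝ)
    (hf : ∀ x, 0 ≤ f x) (hm : ∑ x, f x = 2 ^ n) (η : ℝ)
    (hη : ∀ y, f y ≠ 0 → ∑ z ∈ univ.filter (fun z : Fin n → Bool => f z ≠ 0 ∧ z ≠ y),
      Real.sqrt (1 - ρ ^ 2) ^ hammingDist y z ≤ η) (t : ℝ) (ht : 8 / (1 - ρ) ≤ t) :
    ((univ.filter fun x : Fin n → Bool => t ≤ noise ρ f x).card : ℝ) / 2 ^ n ≤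
      (1 / t) * (32 / Real.sqrt ((1 - ρ) * Real.log (t / 2)) + η) := by
  have h2 : (0 : ℝ) < 2 ^ n := by positivity
  have hρ : 0 < 1 - ρ := by linarith
  have ht0 : 0 < t := lt_of_lt_of_le (by positivity) ht
  have h := sum_radial h0 h1 (ι := Fin n → Bool) (fun y z => if z = y then f y else 0)
    (fun y => y) (fun y z => by
      show 0 ≤ (if z = y then f y else 0)
      split_ifs
      · exact hf y
      · exact le_rfl)
    (fun y x z hxz => atom_radial f y x z hxz)
    (by
      rw [← hm]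
      exact Finset.sum_congr rfl fun y _ => by simp) t ht
  have ef : (fun z : Fin n → Bool => ∑ j, if z = j then f j else 0) = f := by
    funext z
    simp
  simp only [noise_atom, ef] at h
  have hC := code_sum h0 h1 f hf hm η hη
  refine le_trans h ?_
  refine mul_le_mul_of_nonneg_left ?_ (by positivity)
  refine add_le_add le_rfl ?_
  rw [div_le_iff₀ h2]
  refine le_trans (le_of_eq ?_) (le_trans hC (le_of_eq (by ring)))
  refine Finset.sum_congr rfl fun y _ => ?_
  refine Finset.sum_congr ?_ fun z _ => rfl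
  ext z
  simp
end Pool.Agent.H63TC.Cd
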