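import Pool.Agent.H63TC.P1c

set_option autoImplicit false

/-!
# The bound on antichains, for all functions
-/

namespace Pool.Agent.H63TC

open Finset

private theorem ac_set {ρ : ℝ} (h0 : 0 < ρ) (h1 : ρ < 1) {n : ℕ} (x : Fin n → Bool)
    (S : Finset (Fin n → Bool))
    (hc : ∀ R : Finset (Fin n),
      (S.filter fun y => ∀ i ∉ R, x i = y i).card ≤ R.card.choose (R.card / 2)) :
    ∑ y ∈ S, Loc.ker ρ x y ≤ 1 / √((1 - ρ) * (n + 1)) := by
  classical
  have hp : 0 < 1 - ρ := by linarith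
  have h2 : ∑ y ∈ S, Loc.ker ρ x y ≤
      ∑ R : Finset (Fin n), Loc.wgt ρ n R * (1 / √((R.card : ℝ) + 1)) := by
    simp only [Loc.ker_expand]
    rw [sum_comm]
    refine sum_le_sum fun R _ => ?_
    rw [← mul_sum, sum_boole]
    have h4 : ((S.filter fun y => ∀ i ∉ R, x i = y i).card : ℝ) ≤
        ((R.card.choose (R.card / 2) : ℕ) : ℝ) := by exact_mod_cast hc R
    have h5 := Loc.middle_le R.card
    have h6 : ((1 - ρ) / 2) ^ R.card * ρ ^ (n - R.card) = Loc.wgt ρ n R / 2 ^ R.card := by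
      unfold Loc.wgt
      rw [div_pow]
      ring
    rw [h6]
    have h7 := Loc.wgt_nonneg (n := n) h0 h1 R
    calc Loc.wgt ρ n R / 2 ^ R.card * ((S.filter fun y => ∀ i ∉ R, x i = y i).card : ℝ)
        ≤ Loc.wgt ρ n R / 2 ^ R.card * ((R.card.choose (R.card / 2) : ℕ) : ℝ) :=
          mul_le_mul_of_nonneg_left h4 (by positivity)
      _ = Loc.wgt ρ n R * (((R.card.choose (R.card / 2) : ℕ) : ℝ) / 2 ^ R.card) := by ring
      _ ≤ _ := mul_le_mul_of_nonneg_left h5 h7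
  refine h2.trans ?_
  have h9 : (∑ R : Finset (Fin n), Loc.wgt ρ n R * (1 / √((R.card : ℝ) + 1))) ^ 2 ≤
      ∑ R : Finset (Fin n), Loc.wgt ρ n R * (1 / √((R.card : ℝ) + 1)) ^ 2 :=
    Real.pow_arith_mean_le_arith_mean_pow_of_even _ _ _ (fun R _ => Loc.wgt_nonneg h0 h1 R)
      (Loc.wgt_sum ρ) even_two
  have h10 : ∀ R : Finset (Fin n), (1 / √((R.card : ℝ) + 1)) ^ 2 = 1 / ((R.card : ℝ) + 1) := by
    intro R
    rw [div_pow, one_pow, Real.sq_sqrt (by positivity)]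
  simp only [h10] at h9
  have h11 := h9.trans (Loc.wgt_inv h0 h1)
  refine le_of_sq_le_sq ?_ (by positivity)
  rw [div_pow, one_pow, Real.sq_sqrt (by positivity)]
  exact h11

private theorem ac_count {n : ℕ} (u x : Fin n → Bool) (S : Finset (Fin n → Bool))
    (hS : ∀ x ∈ S, ∀ y ∈ S, (∀ i, x i ≠ u i → y i ≠ u i) → x = y) (R : Finset (Fin n)) :
    (S.filter fun y => ∀ i ∉ R, x i = y i).card ≤ R.card.choose (R.card / 2) := by
  classical
  set F := S.filter fun y => ∀ i ∉ R, x i = y i with hF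
  let g : (Fin n → Bool) → Finset {i // i ∈ R} := fun y => univ.filter fun i => y i ≠ u i
  have key : ∀ y ∈ F, ∀ z ∈ F, g y ⊆ g z → y = z := by
    intro y hy z hz hyz
    obtain ⟨hy1, hy2⟩ := mem_filter.1 hy
    obtain ⟨hz1, hz2⟩ := mem_filter.1 hz
    refine hS y hy1 z hz1 fun i hi => ?_
    by_cases hiR : i ∈ R
    · have h1 : (⟨i, hiR⟩ : {i // i ∈ R}) ∈ g y := mem_filter.2 ⟨mem_univ _, hi⟩
      exact (mem_filter.1 (hyz h1)).2
    · rw [← hz2 i hiR, hy2 i hiR]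
      exact hi
  have hinj : Set.InjOn g F := fun y hy z hz hyz => key y hy z hz (hyz ▸ subset_rfl)
  have hanti : IsAntichain (· ⊆ ·) ((F.image g : Finset (Finset {i // i ∈ R})) :
      Set (Finset {i // i ∈ R})) := by
    intro a ha b hb hab hsub
    rw [mem_coe, mem_image] at ha hb
    obtain ⟨y, hy, rfl⟩ := ha
    obtain ⟨z, hz, rfl⟩ := hb
    exact hab (by rw [key y hy z hz hsub])
  have h1 := hanti.sperner
  rw [card_image_of_injOn hinj, Fintype.card_coe] at h1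
  exact h1

private theorem ac_wt_nonneg {ρ : ℝ} (h0 : 0 < ρ) (h1 : ρ < 1) {n : ℕ} (x y : Fin n → Bool) :
    0 ≤ wt ρ x y := by
  unfold wt
  refine prod_nonneg fun i _ => ?_
  split_ifs <;> linarith

/-- The bound on antichains (with respect to the differences from `u`) for all `f`. -/
theorem antichain_le {ρ : ℝ} (h0 : 0 < ρ) (h1 : ρ < 1) {n : ℕ} (f : (Fin n → Bool) → ℝ)
    (hf : ∀ x, 0 ≤ f x) (hm : ∑ x, f x = 2 ^ n) (t : ℝ) (u : Fin n → Bool)
    (S : Finset (Fin n → Bool))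
    (hS : ∀ x ∈ S, ∀ y ∈ S, (∀ i, x i ≠ u i → y i ≠ u i) → x = y) :
    t * ((S.filter (fun x => t ≤ noise ρ f x)).card : ℝ) ≤
      2 ^ n / Real.sqrt ((1 - ρ) * (n + 1)) := by
  have hn : ∀ x, 0 ≤ noise ρ f x := fun x =>
    sum_nonneg fun y _ => mul_nonneg (ac_wt_nonneg h0 h1 x y) (hf y)
  have hl : ∀ y, ∑ x ∈ S, wt ρ x y ≤ 1 / Real.sqrt ((1 - ρ) * (n + 1)) := by
    intro y
    have h := ac_set h0 h1 y S fun R => ac_count u y S hS R
    have h2 : ∀ x : Fin n → Bool, wt ρ x y = Loc.ker ρ y x := fun x => Loc.ker_comm ρ x y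
    simp only [h2]
    exact h
  calc t * ((S.filter (fun x => t ≤ noise ρ f x)).card : ℝ)
      = ∑ x ∈ S.filter (fun x => t ≤ noise ρ f x), t := by
        rw [sum_const, nsmul_eq_mul, mul_comm]
    _ ≤ ∑ x ∈ S.filter (fun x => t ≤ noise ρ f x), noise ρ f x :=
        sum_le_sum fun x hx => (mem_filter.1 hx).2
    _ ≤ ∑ x ∈ S, noise ρ f x :=
        sum_le_sum_of_subset_of_nonneg (filter_subset _ _) fun x _ _ => hn x
    _ = ∑ y, f y * ∑ x ∈ S, wt ρ x y := by
        unfold noise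
        rw [sum_comm]
        refine sum_congr rfl fun y _ => ?_
        rw [mul_sum]
        exact sum_congr rfl fun x _ => mul_comm _ _
    _ ≤ ∑ y, f y * (1 / Real.sqrt ((1 - ρ) * (n + 1))) :=
        sum_le_sum fun y _ => mul_le_mul_of_nonneg_left (hl y) (hf y)
    _ = 2 ^ n / Real.sqrt ((1 - ρ) * (n + 1)) := by
        rw [← sum_mul, hm]
        ring

end Pool.Agent.H63TC
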