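import Pool.Agent.H63TC.PrF1

set_option autoImplicit false

namespace Pool.Agent.H63TC.Bl

/-- The tilted weight of a family of functions on finite blocks. -/
noncomputable def Q {k : ℕ} {α : Type} [Fintype α] (G : Fin k → α → ℝ) (x : Fin k → α) : ℝ :=
  ∏ b, G b (x b) / Fintype.card α

/-- The sum of the logarithms. -/
noncomputable def S {k : ℕ} {α : Type} [Fintype α] (G : Fin k → α → ℝ) (x : Fin k → α) : ℝ :=
  ∑ b, Real.log (G b (x b))

/-- The sum of the variances. -/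
noncomputable def V {k : ℕ} {α : Type} [Fintype α] (G : Fin k → α → ℝ) : ℝ :=
  ∑ b, (∑ a, (G b a - 1) ^ 2) / Fintype.card α

/-- All `G b` have mean `1` and values in `[1/Λ, Λ]`. -/
def Ok {k : ℕ} {α : Type} [Fintype α] (Λ : ℝ) (G : Fin k → α → ℝ) : Prop :=
  ∀ b, (∀ a, 1 / Λ ≤ G b a ∧ G b a ≤ Λ) ∧ ∑ a, G b a = Fintype.card α

end Pool.Agent.H63TC.Bl
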