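import Pool.Agent.H63TC.BlDefs

/-! Package H5: the second moment of a product over blocks. -/

set_option autoImplicit false

namespace Pool.Agent.H63TC.Bl

open Finset

variable {k : ℕ} {α : Type} [Fintype α] [Nonempty α]

omit [Nonempty α] in
private theorem sum_prod (F : Fin k → α → ℝ) :
    ∑ x : Fin k → α, ∏ b, F b (x b) = ∏ b, ∑ a, F b a := by
  have h := Finset.prod_univ_sum (fun _ : Fin k => (Finset.univ : Finset α)) F
  rw [Fintype.piFinset_univ] at h
  exact h.symm

/-- H5 -/
theorem second {Λ : ℝ} (hΛ : 1 ≤ Λ) (G : Fin k → α → ℝ) (hG : Ok Λ G) (s : ℝ) :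
    ((univ.filter (fun x : Fin k → α => s ≤ S G x)).card : ℝ) / (Fintype.card α : ℝ) ^ k ≤
      Real.exp (-2 * s + V G) := by
  have hN : (0 : ℝ) < Fintype.card α := Nat.cast_pos.mpr Fintype.card_pos
  have hpos : ∀ b a, 0 < G b a := fun b a =>
    lt_of_lt_of_le (by positivity : (0 : ℝ) < 1 / Λ) ((hG b).1 a).1
  have hexp : ∀ x : Fin k → α, Real.exp (2 * S G x) =
      ∏ b, (fun (b : Fin k) (a : α) => (G b a) ^ 2) b (x b) := by
    intro x
    unfold S
    rw [Finset.mul_sum, Real.exp_sum]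
    refine Finset.prod_congr rfl fun b _ => ?_
    rw [two_mul, Real.exp_add, Real.exp_log (hpos b (x b))]
    ring
  have hsq : ∀ b, ∑ a, (G b a) ^ 2 =
      (Fintype.card α : ℝ) * (1 + (∑ a, (G b a - 1) ^ 2) / (Fintype.card α : ℝ)) := by
    intro b
    have h1 : ∑ a, (G b a - 1) ^ 2 = ∑ a, (G b a) ^ 2 - 2 * ∑ a, G b a + Fintype.card α := by
      have : ∀ a, (G b a - 1) ^ 2 = (G b a) ^ 2 - 2 * G b a + 1 := fun a => by ring
      rw [Finset.sum_congr rfl fun a _ => this a, Finset.sum_add_distrib, Finset.sum_sub_distrib,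
        ← Finset.mul_sum, Finset.sum_const, Finset.card_univ, nsmul_eq_mul, mul_one]
    rw [(hG b).2] at h1
    rw [h1]
    field_simp
    ring
  have hsum : ∑ x : Fin k → α, Real.exp (2 * S G x) =
      (Fintype.card α : ℝ) ^ k * ∏ b, (1 + (∑ a, (G b a - 1) ^ 2) / (Fintype.card α : ℝ)) := by
    rw [Finset.sum_congr rfl fun x _ => hexp x]
    refine (sum_prod (fun (b : Fin k) (a : α) => (G b a) ^ 2)).trans ?_
    rw [Finset.prod_congr rfl fun b _ => hsq b, Finset.prod_mul_distrib, Finset.prod_const,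
      Finset.card_univ, Fintype.card_fin]
  have hprod : ∏ b, (1 + (∑ a, (G b a - 1) ^ 2) / (Fintype.card α : ℝ)) ≤ Real.exp (V G) := by
    unfold V
    rw [Real.exp_sum]
    refine Finset.prod_le_prod (fun b _ => ?_) fun b _ => ?_
    · have : 0 ≤ ∑ a, (G b a - 1) ^ 2 := Finset.sum_nonneg fun a _ => sq_nonneg _
      positivity
    · have := Real.add_one_le_exp ((∑ a, (G b a - 1) ^ 2) / (Fintype.card α : ℝ))
      linarith
  have hcard : ((univ.filter (fun x : Fin k → α => s ≤ S G x)).card : ℝ) *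
      Real.exp (2 * s) ≤ ∑ x : Fin k → α, Real.exp (2 * S G x) := by
    rw [← nsmul_eq_mul]
    refine le_trans (Finset.card_nsmul_le_sum _ (fun x => Real.exp (2 * S G x)) _ fun x hx => ?_) ?_
    · exact Real.exp_le_exp.mpr (by linarith [(Finset.mem_filter.mp hx).2])
    · exact Finset.sum_le_sum_of_subset_of_nonneg (Finset.filter_subset _ _)
        fun x _ _ => (Real.exp_pos _).le
  rw [hsum] at hcard
  have h4 : ((univ.filter (fun x : Fin k → α => s ≤ S G x)).card : ℝ) * Real.exp (2 * s) ≤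
      (Fintype.card α : ℝ) ^ k * Real.exp (V G) :=
    le_trans hcard (mul_le_mul_of_nonneg_left hprod (by positivity))
  have h5 : Real.exp (-2 * s + V G) = Real.exp (V G) / Real.exp (2 * s) := by
    rw [← Real.exp_sub]
    congr 1
    ring
  rw [h5, div_le_div_iff₀ (by positivity) (Real.exp_pos _)]
  linarith

end Pool.Agent.H63TC.Bl
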