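import Pool.Agent.H63TC.BlDefs

set_option autoImplicit false

/-!
# Layers for independent blocks (helper82)
-/

namespace Pool.Agent.H63TC.Bl

open Finset

variable {k : ℕ} {α : Type} [Fintype α] [Nonempty α]

private theorem G_pos {Λ : ℝ} (hΛ : 1 ≤ Λ) (G : Fin k → α → ℝ) (hG : Ok Λ G) (b : Fin k)
    (a : α) : 0 < G b a :=
  lt_of_lt_of_le (by positivity) ((hG b).1 a).1

private theorem card_pos' : (0 : ℝ) < Fintype.card α := by
  have := Fintype.card_pos (α := α)
  exact_mod_cast this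

private theorem Q_eq {Λ : ℝ} (hΛ : 1 ≤ Λ) (G : Fin k → α → ℝ) (hG : Ok Λ G) (x : Fin k → α) :
    Q G x * Real.exp (-S G x) = 1 / (Fintype.card α : ℝ) ^ k := by
  have h2 : Real.exp (S G x) = ∏ b, G b (x b) := by
    rw [S, Real.exp_sum]
    exact prod_congr rfl fun b _ => Real.exp_log (G_pos hΛ G hG b _)
  have h3 : Q G x = Real.exp (S G x) / (Fintype.card α : ℝ) ^ k := by
    rw [h2, Q, prod_div_distrib]
    simp
  rw [h3, Real.exp_neg]
  have h4 := (Real.exp_pos (S G x)).ne'
  field_simp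

private theorem Q_nonneg {Λ : ℝ} (hΛ : 1 ≤ Λ) (G : Fin k → α → ℝ) (hG : Ok Λ G)
    (x : Fin k → α) : 0 ≤ Q G x :=
  prod_nonneg fun b _ => by
    have := G_pos hΛ G hG b (x b)
    have := card_pos' (α := α)
    positivity

/-- H6 -/
theorem layers {Λ : ℝ} (hΛ : 1 ≤ Λ) (G : Fin k → α → ℝ) (hG : Ok Λ G) (s B : ℝ)
    (hB : ∀ a, ∑ x ∈ univ.filter (fun x : Fin k → α => |S G x - a| ≤ 1), Q G x ≤ B) :
    ((univ.filter (fun x : Fin k → α => s ≤ S G x)).card : ℝ) / (Fintype.card α : ℝ) ^ k ≤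
      2 * B * Real.exp (-s) := by
  have hB0 : 0 ≤ B := le_trans (sum_nonneg fun x _ => Q_nonneg hΛ G hG x) (hB 0)
  set A := univ.filter (fun x : Fin k → α => s ≤ S G x) with hA
  set K : (Fin k → α) → ℕ := fun x => ⌊S G x - s⌋₊ with hK
  set N : ℕ := A.sup K + 1 with hN
  have h2 : (A.card : ℝ) / (Fintype.card α : ℝ) ^ k =
      ∑ x ∈ A, Q G x * Real.exp (-S G x) := by
    rw [sum_congr rfl fun x _ => Q_eq hΛ G hG x, sum_const, nsmul_eq_mul]
    ring
  have hmaps : ∀ x ∈ A, K x ∈ range N := by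
    intro x hx
    rw [mem_range, hN]
    exact Nat.lt_succ_of_le (le_sup (f := K) hx)
  rw [h2, ← sum_fiberwise_of_maps_to hmaps]
  have h3 : ∀ j ∈ range N, ∑ x ∈ A.filter (fun x => K x = j), Q G x * Real.exp (-S G x) ≤
      B * Real.exp (-s) * (1 / 2) ^ j := by
    intro j _
    have h4 : ∀ x ∈ A.filter (fun x => K x = j), Q G x * Real.exp (-S G x) ≤
        Q G x * (Real.exp (-s) * (1 / 2) ^ j) := by
      intro x hx
      refine mul_le_mul_of_nonneg_left ?_ (Q_nonneg hΛ G hG x)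
      have hxA := (mem_filter.1 (mem_filter.1 hx).1).2
      have hxk := (mem_filter.1 hx).2
      have h5 : (j : ℝ) ≤ S G x - s := by
        rw [← hxk]
        exact Nat.floor_le (by linarith)
      have h6 : Real.exp (-S G x) ≤ Real.exp (-s) * Real.exp (-(j : ℝ)) := by
        rw [← Real.exp_add]
        exact Real.exp_le_exp.2 (by linarith)
      refine h6.trans (mul_le_mul_of_nonneg_left ?_ (Real.exp_pos _).le)
      have h7 : Real.exp (-(j : ℝ)) = (Real.exp (-1)) ^ j := by
        rw [← Real.exp_nat_mul]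
        congr 1
        ring
      rw [h7]
      refine pow_le_pow_left₀ (Real.exp_pos _).le ?_ j
      rw [Real.exp_neg, one_div]
      refine inv_anti₀ (by norm_num) ?_
      have := Real.add_one_le_exp (1 : ℝ)
      linarith
    refine (sum_le_sum h4).trans ?_
    rw [← sum_mul]
    have h8 : ∑ x ∈ A.filter (fun x => K x = j), Q G x ≤ B := by
      refine le_trans (sum_le_sum_of_subset_of_nonneg ?_ fun x _ _ => Q_nonneg hΛ G hG x)
        (hB (s + j))
      intro x hx
      have hxA := (mem_filter.1 (mem_filter.1 hx).1).2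
      have hxk := (mem_filter.1 hx).2
      rw [mem_filter]
      refine ⟨mem_univ _, ?_⟩
      have h5 : (j : ℝ) ≤ S G x - s := by
        rw [← hxk]
        exact Nat.floor_le (by linarith)
      have h9 : S G x - s < (j : ℝ) + 1 := by
        rw [← hxk]
        exact Nat.lt_floor_add_one _
      rw [abs_le]
      constructor <;> linarith
    calc (∑ x ∈ A.filter (fun x => K x = j), Q G x) * (Real.exp (-s) * (1 / 2) ^ j)
        ≤ B * (Real.exp (-s) * (1 / 2) ^ j) := mul_le_mul_of_nonneg_right h8 (by positivity)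
      _ = B * Real.exp (-s) * (1 / 2) ^ j := by ring
  refine (sum_le_sum h3).trans ?_
  rw [← mul_sum]
  have h10 : ∑ j ∈ range N, (1 / (2 : ℝ)) ^ j ≤ 2 := sum_geometric_two_le N
  calc B * Real.exp (-s) * ∑ j ∈ range N, (1 / (2 : ℝ)) ^ j
      ≤ B * Real.exp (-s) * 2 := mul_le_mul_of_nonneg_left h10 (by positivity)
    _ = 2 * B * Real.exp (-s) := by ring

end Pool.Agent.H63TC.Bl
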