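import Pool.Agent.H63TC.BlH4
import Pool.Agent.H63TC.BlH5
import Pool.Agent.H63TC.BlH6

set_option autoImplicit false

/-!
# Independent factors (helper33)
-/

namespace Pool.Agent.H63TC.Bl

open Finset

variable {k : ℕ} {α : Type} [Fintype α] [Nonempty α]

/-- H7: independent factors with mean one and values in `[1/Λ, Λ]`. -/
theorem indep {Λ : ℝ} (hΛ : 1 ≤ Λ) (G : Fin k → α → ℝ) (hG : Ok Λ G) (t : ℝ) (ht : 1 < t) :
    ((univ.filter (fun x : Fin k → α => t ≤ ∏ b, G b (x b))).card : ℝ) /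
      (Fintype.card α : ℝ) ^ k ≤
      26 * Λ ^ 2 * (1 + 2 * Real.log Λ) / (t * Real.sqrt (Real.log t)) := by
  have hΛ0 : 0 < Λ := by linarith
  have hL : 0 ≤ Real.log Λ := Real.log_nonneg hΛ
  have hL1 : 0 < 1 + 2 * Real.log Λ := by linarith
  obtain ⟨w, hwd⟩ : ∃ w : ℝ, w = 1 / (1 + 2 * Real.log Λ) := ⟨_, rfl⟩
  have hw : 0 < w := by
    rw [hwd]
    exact one_div_pos.2 hL1
  have hw1 : w ≤ 1 := by
    rw [hwd, div_le_one hL1]
    linarith
  have hw' : w * (2 * Real.log Λ) ≤ Real.pi := by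
    have h2 : w * (2 * Real.log Λ) ≤ 1 := by
      rw [hwd, one_div, inv_mul_eq_div, div_le_one hL1]
      linarith
    linarith [Real.pi_gt_three]
  have hpos : ∀ (x : Fin k → α) (b : Fin k), 0 < G b (x b) := fun x b =>
    (one_div_pos.2 hΛ0).trans_le ((hG b).1 (x b)).1
  have ht0 : 0 < t := by linarith
  have hs : ∀ x : Fin k → α, t ≤ ∏ b, G b (x b) ↔ Real.log t ≤ S G x := fun x => by
    have e2 : 0 < ∏ b, G b (x b) := Finset.prod_pos fun b _ => hpos x b
    have e3 : S G x = Real.log (∏ b, G b (x b)) := by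
      unfold S
      rw [Real.log_prod fun b _ => (hpos x b).ne']
    rw [e3, Real.log_le_log_iff ht0 e2]
  have hfil : (univ.filter (fun x : Fin k → α => t ≤ ∏ b, G b (x b))) =
      univ.filter (fun x : Fin k → α => Real.log t ≤ S G x) :=
    Finset.filter_congr fun x _ => hs x
  rw [hfil]
  obtain ⟨s, hsd⟩ : ∃ s : ℝ, s = Real.log t := ⟨_, rfl⟩
  rw [← hsd]
  have hs0 : 0 < s := by
    rw [hsd]
    exact Real.log_pos ht
  have hss : 0 < Real.sqrt s := Real.sqrt_pos.2 hs0
  have hexp : Real.exp (-s) = 1 / t := by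
    rw [Real.exp_neg, hsd, Real.exp_log ht0, one_div]
  by_cases hV : V G ≤ s / 2
  · refine (second hΛ G hG s).trans ?_
    have e1 : Real.exp (-2 * s + V G) ≤ Real.exp (-s) * Real.exp (-(s / 2)) := by
      rw [← Real.exp_add]
      exact Real.exp_le_exp.2 (by linarith)
    have e2 : Real.exp (-(s / 2)) ≤ 1 / Real.sqrt s := by
      rw [Real.exp_neg, ← one_div]
      refine one_div_le_one_div_of_le hss ?_
      rw [Real.sqrt_le_left (Real.exp_pos _).le, ← Real.exp_nat_mul]
      have e3 := Real.add_one_le_exp s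
      have e4 : Real.exp s = Real.exp (((2 : ℕ) : ℝ) * (s / 2)) := by
        congr 1
        push_cast
        ring
      rw [← e4]
      linarith
    have e5 : 1 ≤ 26 * Λ ^ 2 * (1 + 2 * Real.log Λ) := by
      have e6 : 1 ≤ Λ ^ 2 := one_le_pow₀ hΛ
      nlinarith
    calc Real.exp (-2 * s + V G) ≤ Real.exp (-s) * Real.exp (-(s / 2)) := e1
      _ ≤ 1 / t * (1 / Real.sqrt s) := by
        rw [hexp]
        exact mul_le_mul_of_nonneg_left e2 (one_div_pos.2 ht0).le
      _ = 1 / (t * Real.sqrt s) := by rw [one_div_mul_one_div]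
      _ ≤ 26 * Λ ^ 2 * (1 + 2 * Real.log Λ) / (t * Real.sqrt s) :=
        div_le_div_of_nonneg_right e5 (by positivity)
  · rw [not_le] at hV
    have hV0 : 0 < V G := by linarith
    have e1 := layers hΛ G hG s _ fun a => conc hΛ G hG hV0 w hw hw1 hw' a
    refine e1.trans ?_
    have e2 : 9 * Real.sqrt s ≤ 13 * Real.sqrt (V G) := by
      refine (sq_le_sq₀ (by positivity) (by positivity)).1 ?_
      rw [mul_pow, mul_pow, Real.sq_sqrt hs0.le, Real.sq_sqrt hV0.le]
      nlinarith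
    have hsV : 0 < Real.sqrt (V G) := Real.sqrt_pos.2 hV0
    have e3 : 9 * Λ ^ 2 / (w * Real.sqrt (V G)) ≤
        13 * Λ ^ 2 * (1 + 2 * Real.log Λ) / Real.sqrt s := by
      have e4 : 9 * Λ ^ 2 / (w * Real.sqrt (V G)) =
          9 * Λ ^ 2 * (1 + 2 * Real.log Λ) / Real.sqrt (V G) := by
        rw [hwd]
        field_simp
      rw [e4, div_le_div_iff₀ hsV hss]
      have e5 : 0 ≤ Λ ^ 2 * (1 + 2 * Real.log Λ) := by positivity
      have e6 := mul_le_mul_of_nonneg_left e2 e5
      linarith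
    calc 2 * (9 * Λ ^ 2 / (w * Real.sqrt (V G))) * Real.exp (-s)
        ≤ 2 * (13 * Λ ^ 2 * (1 + 2 * Real.log Λ) / Real.sqrt s) * Real.exp (-s) := by
          refine mul_le_mul_of_nonneg_right ?_ (Real.exp_pos _).le
          linarith
      _ = 26 * Λ ^ 2 * (1 + 2 * Real.log Λ) / (t * Real.sqrt s) := by
        rw [hexp]
        field_simp
        ring

end Pool.Agent.H63TC.Bl
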