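import Pool.Agent.H63TC.BlH0
import Pool.Agent.H63TC.BlH7

set_option autoImplicit false

/-!
# Products over the blocks of a partition of the coordinates (helper33)
-/

namespace Pool.Agent.H63TC.Bl

open Finset

/-- Marginals of a product measure. -/
private theorem marg {I J : Type} [Fintype I] [DecidableEq I] [Fintype J] [DecidableEq J]
    (ι : I → J) (hι : Function.Injective ι) (w : J → Bool → ℝ)
    (hw : ∀ j, w j true + w j false = 1) (f : (I → Bool) → ℝ) :
    ∑ Y : J → Bool, (∏ j, w j (Y j)) * f (fun i => Y (ι i)) =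
      ∑ y : I → Bool, (∏ i, w (ι i) (y i)) * f y := by
  classical
  obtain ⟨E, hE⟩ : ∃ E : I ⊕ {j : J // j ∉ Set.range ι} ≃ J,
      (∀ i, E (Sum.inl i) = ι i) ∧ ∀ j, E (Sum.inr j) = j.1 :=
    ⟨(Equiv.sumCongr (Equiv.ofInjective ι hι) (Equiv.refl _)).trans
      (Equiv.Set.sumCompl (Set.range ι)), fun i => rfl, fun j => rfl⟩
  have e1 : ∑ Y : J → Bool, (∏ j, w j (Y j)) * f (fun i => Y (ι i)) =
      ∑ Z : I ⊕ {j : J // j ∉ Set.range ι} → Bool,
        (∏ s, w (E s) (Z s)) * f (fun i => Z (Sum.inl i)) := by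
    refine (Fintype.sum_equiv (Equiv.arrowCongr E (Equiv.refl Bool)) _ _ fun Z => ?_).symm
    congr 1
    · refine Fintype.prod_equiv E _ _ fun s => ?_
      simp [Equiv.arrowCongr]
    · congr 1
      funext i
      rw [← hE.1 i]
      simp [Equiv.arrowCongr]
  rw [e1, ← (Equiv.sumArrowEquivProdArrow I {j : J // j ∉ Set.range ι} Bool).symm.sum_comp,
    Fintype.sum_prod_type]
  refine Finset.sum_congr rfl fun y _ => ?_
  have e2 : ∀ z : {j : J // j ∉ Set.range ι} → Bool,
      (∏ s, w (E s) ((Equiv.sumArrowEquivProdArrow I {j : J // j ∉ Set.range ι} Bool).symm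
        (y, z) s)) * f (fun i => (Equiv.sumArrowEquivProdArrow I {j : J // j ∉ Set.range ι}
          Bool).symm (y, z) (Sum.inl i)) =
      ((∏ i, w (ι i) (y i)) * f y) * ∏ j : {j : J // j ∉ Set.range ι}, w j.1 (z j) := fun z => by
    rw [Fintype.prod_sum_type]
    simp only [hE.1, hE.2, Equiv.sumArrowEquivProdArrow_symm_apply_inl,
      Equiv.sumArrowEquivProdArrow_symm_apply_inr]
    ring
  simp only [e2]
  rw [← Finset.mul_sum]
  have e3 : ∑ z : {j : J // j ∉ Set.range ι} → Bool,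
      ∏ j : {j : J // j ∉ Set.range ι}, w j.1 (z j) = 1 := by
    have e4 := Finset.prod_univ_sum (fun _ : {j : J // j ∉ Set.range ι} =>
      (Finset.univ : Finset Bool)) fun j b => w j.1 b
    rw [Fintype.piFinset_univ] at e4
    rw [← e4]
    refine Finset.prod_eq_one fun j _ => ?_
    rw [Fintype.sum_bool]
    exact hw j.1
  rw [e3, mul_one]

private theorem margc {n k m : ℕ} (c : Fin n → Fin k) (e : Fin n → Fin m)
    (hinj : ∀ i j, c i = c j → e i = e j → i = j) (w : Fin k → Fin m → Bool → ℝ)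
    (hw : ∀ b j, w b j true + w b j false = 1) (f : (Fin n → Bool) → ℝ) :
    ∑ Y : Fin k → Fin m → Bool, (∏ b, ∏ j, w b j (Y b j)) * f (fun i => Y (c i) (e i)) =
      ∑ y : Fin n → Bool, (∏ i, w (c i) (e i) (y i)) * f y := by
  have h := marg (fun i : Fin n => (c i, e i)) (fun i j hij => by
    obtain ⟨h1, h2⟩ := Prod.mk.inj hij
    exact hinj i j h1 h2) (fun p b => w p.1 p.2 b) (fun p => hw p.1 p.2) f
  rw [← h]
  refine (Fintype.sum_equiv (Equiv.curry (Fin k) (Fin m) Bool) _ _ fun Z => ?_).symm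
  rw [Fintype.prod_prod_type]
  rfl

/-- An injection on every fibre. -/
private theorem exists_emb {n k m : ℕ} (c : Fin n → Fin k)
    (hc : ∀ b, (univ.filter fun i => c i = b).card ≤ m) :
    ∃ e : Fin n → Fin m, ∀ i j, c i = c j → e i = e j → i = j := by
  have h1 : ∀ b, Nonempty ({i // c i = b} ↪ Fin m) := fun b => by
    refine Function.Embedding.nonempty_of_card_le ?_
    rw [Fintype.card_fin, Fintype.card_subtype]
    exact hc b
  let emb : ∀ b, {i // c i = b} ↪ Fin m := fun b => (h1 b).some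
  have h2 : ∀ (b : Fin k) (i : Fin n) (h : c i = b), emb (c i) ⟨i, rfl⟩ = emb b ⟨i, h⟩ := by
    intro b i h
    subst h
    rfl
  refine ⟨fun i => emb (c i) ⟨i, rfl⟩, fun i j hij he => ?_⟩
  have h3 : emb (c i) ⟨i, rfl⟩ = emb (c j) ⟨j, rfl⟩ := he
  rw [h2 (c j) i hij] at h3
  have h4 := (emb (c j)).injective h3
  exact congrArg Subtype.val h4

/-- The sum over the dummy cube. -/
private theorem sum_pull {n k m : ℕ} (c : Fin n → Fin k) (e : Fin n → Fin m)
    (hinj : ∀ i j, c i = c j → e i = e j → i = j) (f : (Fin n → Bool) → ℝ) :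
    (∑ Y : Fin k → Fin m → Bool, f (fun i => Y (c i) (e i))) / (2 ^ m) ^ k =
      (∑ y : Fin n → Bool, f y) / 2 ^ n := by
  have h := margc c e hinj (fun _ _ _ => 1 / 2) (fun _ _ => by norm_num) f
  simp only [Finset.prod_const, Finset.card_univ, Fintype.card_fin] at h
  rw [← Finset.mul_sum, ← Finset.mul_sum] at h
  rw [div_eq_mul_inv, div_eq_mul_inv, mul_comm _ (((2 : ℝ) ^ m) ^ k)⁻¹,
    mul_comm _ ((2 : ℝ) ^ n)⁻¹]
  rw [one_div, inv_pow, inv_pow, inv_pow] at h
  exact h

/-- The mean of a function of one block. -/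
private theorem mean_block {n k m : ℕ} (c : Fin n → Fin k) (e : Fin n → Fin m)
    (hinj : ∀ i j, c i = c j → e i = e j → i = j) (b : Fin k) (g : (Fin n → Bool) → ℝ)
    (hd : ∀ x y : Fin n → Bool, (∀ i, c i = b → x i = y i) → g x = g y)
    (hm : ∑ x, g x = 2 ^ n) :
    ∑ Y : Fin m → Bool, g (fun i => Y (e i)) = 2 ^ m := by
  have h1 : (∑ y : Fin n → Bool, g y) / 2 ^ n = 1 := by
    rw [hm, div_self (by positivity)]
  have h2 : ∑ Y : Fin k → Fin m → Bool, g (fun i => Y (c i) (e i)) =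
      ∑ Y : Fin k → Fin m → Bool, g (fun i => Y b (e i)) :=
    Finset.sum_congr rfl fun Y _ => hd _ _ fun i hi => by rw [hi]
  have h3 := margc (n := m) (k := k) (m := m) (fun _ => b) (fun i => i)
    (fun i j _ h => h) (fun _ _ _ => 1 / 2) (fun _ _ => by norm_num)
    (fun Y : Fin m → Bool => g (fun i => Y (e i)))
  have h4 := sum_pull c e hinj g
  rw [h1, h2] at h4
  simp only [Finset.prod_const, Finset.card_univ, Fintype.card_fin] at h3
  rw [← Finset.mul_sum, ← Finset.mul_sum, one_div, inv_pow, inv_pow] at h3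
  rw [div_eq_iff (by positivity), one_mul] at h4
  rw [h4] at h3
  have h5 : ((2 : ℝ) ^ m) ≠ 0 := by positivity
  have h6 : (((2 : ℝ) ^ m) ^ k) ≠ 0 := by positivity
  rw [inv_mul_cancel₀ h6, eq_inv_mul_iff_mul_eq₀ h5, mul_one] at h3
  exact h3.symm

/-- Products of functions of disjoint blocks of at most `m` coordinates of the `n`-cube. -/
theorem general {ρ : ℝ} (h0 : 0 < ρ) (h1 : ρ < 1) {n k m : ℕ} (c : Fin n → Fin k)
    (hc : ∀ b, (univ.filter fun i => c i = b).card ≤ m) (g : Fin k → (Fin n → Bool) → ℝ)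
    (hd : ∀ b x y, (∀ i, c i = b → x i = y i) → g b x = g b y) (hg : ∀ b x, 0 ≤ g b x)
    (hm : ∀ b, ∑ x, g b x = 2 ^ n) (t : ℝ) (ht : 1 < t) :
    ((univ.filter fun x : Fin n → Bool => t ≤ noise ρ (fun y => ∏ b, g b y) x).card : ℝ) /
      2 ^ n ≤ 26 * (2 / (1 - ρ)) ^ (2 * m) * (1 + 2 * m * Real.log (2 / (1 - ρ))) /
        (t * Real.sqrt (Real.log t)) := by
  classical
  obtain ⟨e, hinj⟩ := exists_emb c hc
  have hb : 1 ≤ 2 / (1 - ρ) := by
    rw [le_div_iff₀ (by linarith)]
    linarith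
  obtain ⟨g', hg'⟩ : ∃ g' : Fin k → (Fin m → Bool) → ℝ,
      g' = fun b Y => g b fun i => Y (e i) := ⟨_, rfl⟩
  have hmean : ∀ b, ∑ Y, g' b Y = 2 ^ m := fun b => by
    rw [hg']
    exact mean_block c e hinj b (g b) (hd b) (hm b)
  have hpos : ∀ b Y, 0 ≤ g' b Y := fun b Y => by
    rw [hg']
    exact hg b _
  have hOk := noise_ok h0 h1 g' hpos hmean
  have hΛ : 1 ≤ (2 / (1 - ρ)) ^ m := one_le_pow₀ hb
  have hmain := indep hΛ (fun b => noise ρ (g' b)) hOk t ht
  have hprod : ∀ Y : Fin k → Fin m → Bool, ∏ b, g' b (Y b) =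
      ∏ b, g b (fun i => Y (c i) (e i)) := fun Y => by
    refine Finset.prod_congr rfl fun b _ => ?_
    rw [hg']
    exact hd b _ _ fun i hi => by rw [hi]
  have hnoise : ∀ X : Fin k → Fin m → Bool, ∏ b, noise ρ (g' b) (X b) =
      noise ρ (fun y => ∏ b, g b y) (fun i => X (c i) (e i)) := fun X => by
    rw [← noise_block ρ g' X]
    simp only [hprod]
    have h := margc c e hinj (fun b j y => if X b j = y then (1 + ρ) / 2 else (1 - ρ) / 2)
      (fun b j => by
        cases X b j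
        · simp only [Bool.false_eq_true, if_false, if_true]
          ring
        · simp only [Bool.true_eq_false, if_false, if_true]
          ring) (fun y => ∏ b, g b y)
    rw [h]
    rfl
  have hcount := sum_pull c e hinj fun x : Fin n → Bool =>
    if t ≤ noise ρ (fun y => ∏ b, g b y) x then (1 : ℝ) else 0
  rw [Finset.sum_boole, Finset.sum_boole] at hcount
  rw [← hcount]
  have hcard : (Fintype.card (Fin m → Bool) : ℝ) = 2 ^ m := by
    rw [Fintype.card_fun, Fintype.card_bool, Fintype.card_fin]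
    push_cast
    rfl
  rw [hcard] at hmain
  simp only [hnoise] at hmain
  refine hmain.trans_eq ?_
  rw [← pow_mul, mul_comm m 2, Real.log_pow, ← mul_assoc (2 : ℝ) (m : ℝ)]

end Pool.Agent.H63TC.Bl
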