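import Pool.Agent.H63TC.BlDefs

/-! Package H0: the noise operator on products over blocks. -/

set_option autoImplicit false

namespace Pool.Agent.H63TC.Bl

open Finset

private theorem sum_prod' {k : ℕ} {β : Type} [Fintype β] (F : Fin k → β → ℝ) :
    ∑ x : Fin k → β, ∏ b, F b (x b) = ∏ b, ∑ a, F b a := by
  have h := Finset.prod_univ_sum (fun _ : Fin k => (Finset.univ : Finset β)) F
  rw [Fintype.piFinset_univ] at h
  exact h.symm

/-- H0a: the noise of a product over blocks (coordinates: `Fin k × Fin m`). -/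
theorem noise_block {k : ℕ} (ρ : ℝ) {m : ℕ} (g : Fin k → (Fin m → Bool) → ℝ)
    (x : Fin k → Fin m → Bool) :
    ∑ y : Fin k → Fin m → Bool, (∏ b, ∏ i, if x b i = y b i then (1 + ρ) / 2 else (1 - ρ) / 2) *
      ∏ b, g b (y b) = ∏ b, noise ρ (g b) (x b) := by
  have h1 : ∀ y : Fin k → Fin m → Bool,
      (∏ b, ∏ i, if x b i = y b i then (1 + ρ) / 2 else (1 - ρ) / 2) * ∏ b, g b (y b) =
      ∏ b, (fun (b : Fin k) (z : Fin m → Bool) => wt ρ (x b) z * g b z) b (y b) := by
    intro y
    rw [← Finset.prod_mul_distrib]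
    rfl
  rw [Finset.sum_congr rfl fun y _ => h1 y]
  exact sum_prod' (fun (b : Fin k) (z : Fin m → Bool) => wt ρ (x b) z * g b z)

private theorem sum_wt (ρ : ℝ) {m : ℕ} (y : Fin m → Bool) :
    ∑ a : Fin m → Bool, wt ρ a y = 1 := by
  unfold wt
  refine (sum_prod' (fun (i : Fin m) (b : Bool) =>
    if b = y i then (1 + ρ) / 2 else (1 - ρ) / 2)).trans ?_
  refine Finset.prod_eq_one fun i _ => ?_
  rw [Fintype.sum_bool]
  cases y i
  · simp only [Bool.true_eq_false, if_false, if_true]
    ring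
  · simp only [Bool.false_eq_true, if_false, if_true]
    ring

/-- H0b -/
theorem noise_ok {k : ℕ} {ρ : ℝ} (h0 : 0 < ρ) (h1 : ρ < 1) {m : ℕ}
    (g : Fin k → (Fin m → Bool) → ℝ)
    (hg : ∀ b y, 0 ≤ g b y) (hm : ∀ b, ∑ y, g b y = 2 ^ m) :
    Ok ((2 / (1 - ρ)) ^ m) (fun b => noise ρ (g b)) := by
  have hr : 0 < 1 - ρ := by linarith
  have hlow : ∀ x y : Fin m → Bool, ((1 - ρ) / 2) ^ m ≤ wt ρ x y := by
    intro x y
    unfold wt
    have h := Finset.prod_le_prod (s := (Finset.univ : Finset (Fin m)))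
      (f := fun _ => (1 - ρ) / 2)
      (g := fun i => if x i = y i then (1 + ρ) / 2 else (1 - ρ) / 2)
      (fun i _ => by positivity) (fun i _ => by
        split_ifs
        · linarith
        · exact le_rfl)
    rwa [Finset.prod_const, Finset.card_univ, Fintype.card_fin] at h
  have hup : ∀ x y : Fin m → Bool, wt ρ x y ≤ ((1 + ρ) / 2) ^ m := by
    intro x y
    unfold wt
    have h := Finset.prod_le_prod (s := (Finset.univ : Finset (Fin m)))
      (f := fun i => if x i = y i then (1 + ρ) / 2 else (1 - ρ) / 2)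
      (g := fun _ => (1 + ρ) / 2)
      (fun i _ => by
        split_ifs
        · linarith
        · linarith) (fun i _ => by
        split_ifs
        · exact le_rfl
        · linarith)
    rwa [Finset.prod_const, Finset.card_univ, Fintype.card_fin] at h
  intro b
  refine ⟨fun a => ⟨?_, ?_⟩, ?_⟩
  · have h2 : ((1 - ρ) / 2) ^ m * 2 ^ m ≤ noise ρ (g b) a := by
      rw [← hm b, Finset.mul_sum]
      unfold noise
      exact Finset.sum_le_sum fun y _ => mul_le_mul_of_nonneg_right (hlow a y) (hg b y)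
    have h3 : (1 : ℝ) ≤ 2 ^ m := one_le_pow₀ (by norm_num)
    have h4 : 1 / (2 / (1 - ρ)) ^ m = ((1 - ρ) / 2) ^ m := by
      rw [one_div, ← inv_pow, inv_div]
    rw [h4]
    have h5 : 0 ≤ ((1 - ρ) / 2) ^ m := by positivity
    nlinarith
  · have h2 : noise ρ (g b) a ≤ ((1 + ρ) / 2) ^ m * 2 ^ m := by
      rw [← hm b, Finset.mul_sum]
      unfold noise
      exact Finset.sum_le_sum fun y _ => mul_le_mul_of_nonneg_right (hup a y) (hg b y)
    refine h2.trans ?_
    rw [← mul_pow]
    refine pow_le_pow_left₀ (by positivity) ?_ m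
    rw [le_div_iff₀ hr]
    nlinarith
  · unfold noise
    rw [Finset.sum_comm]
    have h2 : ∀ y : Fin m → Bool, ∑ a : Fin m → Bool, wt ρ a y * g b y = g b y := by
      intro y
      rw [← Finset.sum_mul, sum_wt, one_mul]
    rw [Finset.sum_congr rfl fun y _ => h2 y, hm b]
    simp

end Pool.Agent.H63TC.Bl
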