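import Pool.Agent.H63TC.BlDefs
import Mathlib.Analysis.SpecialFunctions.Trigonometric.Bounds

set_option autoImplicit false

/-!
# The characteristic function of the tilted sum, blocks (helper21)
-/

namespace Pool.Agent.H63TC.Bl

open Finset

private theorem h2_norm {α : Type} [Fintype α] (q L : α → ℝ) :
    ‖∑ a, (q a : ℂ) * Complex.exp ((L a : ℝ) * Complex.I)‖ ^ 2 =
      ∑ a, ∑ c, q a * q c * Real.cos (L a - L c) := by
  rw [Complex.sq_norm, Complex.normSq_apply]
  have hre : (∑ a, (q a : ℂ) * Complex.exp ((L a : ℝ) * Complex.I)).re =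
      ∑ a, q a * Real.cos (L a) := by
    rw [Complex.re_sum]
    refine sum_congr rfl fun a _ => ?_
    rw [Complex.re_ofReal_mul, Complex.exp_ofReal_mul_I_re]
  have him : (∑ a, (q a : ℂ) * Complex.exp ((L a : ℝ) * Complex.I)).im =
      ∑ a, q a * Real.sin (L a) := by
    rw [Complex.im_sum]
    refine sum_congr rfl fun a _ => ?_
    rw [Complex.im_ofReal_mul, Complex.exp_ofReal_mul_I_im]
  rw [hre, him, sum_mul_sum, sum_mul_sum, ← sum_add_distrib]
  refine sum_congr rfl fun a _ => ?_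
  rw [← sum_add_distrib]
  refine sum_congr rfl fun c _ => ?_
  rw [Real.cos_sub]
  ring

private theorem h2_log {Λ x y : ℝ} (hΛ : 1 ≤ Λ) (hx : 1 / Λ ≤ x) (hx' : x ≤ Λ) (hy : 1 / Λ ≤ y)
    (hy' : y ≤ Λ) : (x - y) ^ 2 / Λ ^ 2 ≤ (Real.log x - Real.log y) ^ 2 := by
  have hΛ0 : 0 < Λ := by linarith
  have h0 : 0 < 1 / Λ := by positivity
  have key : ∀ u v : ℝ, 0 < u → u ≤ v → v ≤ Λ → (v - u) / Λ ≤ Real.log v - Real.log u := by
    intro u v hu huv hv
    have hv0 : 0 < v := lt_of_lt_of_le hu huv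
    have h1 := Real.log_le_sub_one_of_pos (show 0 < u / v by positivity)
    rw [Real.log_div hu.ne' hv0.ne'] at h1
    have h2 : (v - u) / Λ ≤ (v - u) / v :=
      div_le_div_of_nonneg_left (by linarith) hv0 hv
    have h3 : (v - u) / v = 1 - u / v := by field_simp
    linarith
  rw [← div_pow]
  rcases le_total y x with h | h
  · have := key y x (lt_of_lt_of_le h0 hy) h hx'
    exact pow_le_pow_left₀ (div_nonneg (by linarith) hΛ0.le) this 2
  · have h4 := key x y (lt_of_lt_of_le h0 hx) h hy'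
    have h5 : 0 ≤ (y - x) / Λ := div_nonneg (by linarith) hΛ0.le
    have h6 := pow_le_pow_left₀ h5 h4 2
    have h7 : ((x - y) / Λ) ^ 2 = ((y - x) / Λ) ^ 2 := by ring
    have h8 : (Real.log x - Real.log y) ^ 2 = (Real.log y - Real.log x) ^ 2 := by ring
    rw [h7, h8]
    exact h6

private theorem h2_cos {z : ℝ} (hz : |z| ≤ Real.pi) : Real.cos z ≤ 1 - z ^ 2 / 5 := by
  have h := Real.cos_le_one_sub_mul_cos_sq hz
  have hpi := Real.pi_pos
  have hpi2 : Real.pi ^ 2 ≤ 10 := by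
    have := Real.pi_lt_d2
    nlinarith
  have h2 : z ^ 2 / 5 ≤ 2 / Real.pi ^ 2 * z ^ 2 := by
    have : (1 : ℝ) / 5 ≤ 2 / Real.pi ^ 2 := by
      rw [div_le_div_iff₀ (by norm_num) (by positivity)]
      linarith
    nlinarith [sq_nonneg z]
  linarith

private theorem h2_factor {α : Type} [Fintype α] [Nonempty α] {Λ : ℝ} (hΛ : 1 ≤ Λ) (g : α → ℝ)
    (hg : ∀ a, 1 / Λ ≤ g a ∧ g a ≤ Λ) (hs : ∑ a, g a = (Fintype.card α : ℝ)) {θ : ℝ} (hθ : 0 ≤ θ)
    (hθ' : θ * (2 * Real.log Λ) ≤ Real.pi) :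
    ‖∑ a, ((g a / Fintype.card α : ℝ) : ℂ) *
      Complex.exp ((θ * Real.log (g a) : ℝ) * Complex.I)‖ ≤
      Real.exp (-(1 / (5 * Λ ^ 4) * θ ^ 2 * ((∑ a, (g a - 1) ^ 2) / Fintype.card α))) := by
  have hΛ0 : 0 < Λ := by linarith
  set N : ℝ := (Fintype.card α : ℝ) with hN
  have hN0 : 0 < N := by rw [hN]; exact_mod_cast Fintype.card_pos
  refine le_of_sq_le_sq ?_ (Real.exp_pos _).le
  rw [h2_norm]
  have hlog : ∀ a, |Real.log (g a)| ≤ Real.log Λ := by
    intro a
    have h0 : 0 < 1 / Λ := by positivity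
    have h1 := Real.log_le_log h0 (hg a).1
    have h2 := Real.log_le_log (lt_of_lt_of_le h0 (hg a).1) (hg a).2
    rw [one_div, Real.log_inv] at h1
    exact abs_le.2 ⟨h1, h2⟩
  have hterm : ∀ a c, g a / N * (g c / N) * Real.cos (θ * Real.log (g a) - θ * Real.log (g c)) ≤
      g a / N * (g c / N) - θ ^ 2 / (5 * Λ ^ 4 * N ^ 2) * (g a - g c) ^ 2 := by
    intro a c
    have h0 : 0 < 1 / Λ := by positivity
    have ha0 : 0 < g a := lt_of_lt_of_le h0 (hg a).1
    have hc0 : 0 < g c := lt_of_lt_of_le h0 (hg c).1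
    have hz : |θ * Real.log (g a) - θ * Real.log (g c)| ≤ Real.pi := by
      rw [← mul_sub, abs_mul, abs_of_nonneg hθ]
      have h1 : |Real.log (g a) - Real.log (g c)| ≤ 2 * Real.log Λ := by
        have := abs_sub (Real.log (g a)) (Real.log (g c))
        linarith [hlog a, hlog c]
      exact (mul_le_mul_of_nonneg_left h1 hθ).trans hθ'
    have h1 := h2_cos hz
    have hw : 0 ≤ g a / N * (g c / N) := by positivity
    have h2 := mul_le_mul_of_nonneg_left h1 hw
    have h3 := h2_log hΛ (hg a).1 (hg a).2 (hg c).1 (hg c).2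
    have h4 : 1 / (Λ ^ 2 * N ^ 2) ≤ g a / N * (g c / N) := by
      have h5 : 1 / Λ * (1 / Λ) ≤ g a * g c :=
        mul_le_mul (hg a).1 (hg c).1 h0.le ha0.le
      have h6 : g a / N * (g c / N) = g a * g c / N ^ 2 := by field_simp
      have h7 : 1 / (Λ ^ 2 * N ^ 2) = 1 / Λ * (1 / Λ) / N ^ 2 := by field_simp
      rw [h6, h7]
      gcongr
    have h8 : θ ^ 2 / (5 * Λ ^ 4 * N ^ 2) * (g a - g c) ^ 2 ≤
        g a / N * (g c / N) * ((θ * Real.log (g a) - θ * Real.log (g c)) ^ 2 / 5) := by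
      have e1 : θ ^ 2 / (5 * Λ ^ 4 * N ^ 2) * (g a - g c) ^ 2 =
          1 / (Λ ^ 2 * N ^ 2) * (θ ^ 2 * ((g a - g c) ^ 2 / Λ ^ 2) / 5) := by
        field_simp
      have e2 : (θ * Real.log (g a) - θ * Real.log (g c)) ^ 2 / 5 =
          θ ^ 2 * (Real.log (g a) - Real.log (g c)) ^ 2 / 5 := by ring
      rw [e1, e2]
      apply mul_le_mul h4 _ (by positivity) hw
      apply div_le_div_of_nonneg_right _ (by norm_num)
      exact mul_le_mul_of_nonneg_left h3 (by positivity)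
    have h9 : g a / N * (g c / N) *
        (1 - (θ * Real.log (g a) - θ * Real.log (g c)) ^ 2 / 5) =
        g a / N * (g c / N) - g a / N * (g c / N) *
        ((θ * Real.log (g a) - θ * Real.log (g c)) ^ 2 / 5) := by ring
    linarith
  have hsum1 : ∑ a, ∑ c, g a / N * (g c / N) = 1 := by
    have : ∀ a, ∑ c, g a / N * (g c / N) = g a / N := by
      intro a
      rw [← mul_sum, ← sum_div, hs, div_self hN0.ne', mul_one]
    simp only [this]
    rw [← sum_div, hs, div_self hN0.ne']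
  have hsum2 : ∑ a, ∑ c, (g a - g c) ^ 2 = 2 * N * ∑ a, (g a - 1) ^ 2 := by
    have h1 : ∀ a c, (g a - g c) ^ 2 = (g a - 1) ^ 2 + (g c - 1) ^ 2 -
        2 * (g a - 1) * (g c - 1) := by intro a c; ring
    have h2 : ∑ c, (g c - 1) = 0 := by
      rw [sum_sub_distrib, hs]
      simp [hN]
    have h3 : ∀ a, ∑ c, (g a - g c) ^ 2 = N * (g a - 1) ^ 2 + ∑ c, (g c - 1) ^ 2 := by
      intro a
      simp only [h1]
      rw [sum_sub_distrib, sum_add_distrib, ← mul_sum, h2, sum_const, card_univ, nsmul_eq_mul]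
      ring
    simp only [h3]
    rw [sum_add_distrib, ← mul_sum, sum_const, card_univ, nsmul_eq_mul]
    ring
  calc ∑ a, ∑ c, g a / N * (g c / N) * Real.cos (θ * Real.log (g a) - θ * Real.log (g c))
      ≤ ∑ a, ∑ c, (g a / N * (g c / N) - θ ^ 2 / (5 * Λ ^ 4 * N ^ 2) * (g a - g c) ^ 2) :=
        sum_le_sum fun a _ => sum_le_sum fun c _ => hterm a c
    _ = 1 - θ ^ 2 / (5 * Λ ^ 4 * N ^ 2) * (2 * N * ∑ a, (g a - 1) ^ 2) := by
        simp only [sum_sub_distrib, ← mul_sum]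
        rw [hsum2]
        have h5 : ∑ a, g a / N * ∑ c, g c / N = 1 := by
          rw [← hsum1]
          exact sum_congr rfl fun a _ => mul_sum _ _ _
        rw [h5]
    _ = 1 - 2 * (1 / (5 * Λ ^ 4) * θ ^ 2 * ((∑ a, (g a - 1) ^ 2) / N)) := by
        field_simp
    _ ≤ Real.exp (-(1 / (5 * Λ ^ 4) * θ ^ 2 * ((∑ a, (g a - 1) ^ 2) / N))) ^ 2 := by
        rw [← Real.exp_nat_mul]
        have := Real.add_one_le_exp
          (((2 : ℕ) : ℝ) * -(1 / (5 * Λ ^ 4) * θ ^ 2 * ((∑ a, (g a - 1) ^ 2) / N)))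
        push_cast at this ⊢
        linarith

/-- H2: the characteristic function. -/
theorem char_le {k : ℕ} {α : Type} [Fintype α] [Nonempty α] {Λ : ℝ} (hΛ : 1 ≤ Λ)
    (G : Fin k → α → ℝ) (hG : Ok Λ G)
    (a θ : ℝ) (hθ : 0 ≤ θ) (hθ' : θ * (2 * Real.log Λ) ≤ Real.pi) :
    ∑ x, Q G x * Real.cos (θ * (S G x - a)) ≤
      Real.exp (-(1 / (5 * Λ ^ 4) * θ ^ 2 * V G)) := by
  classical
  let z : Fin k → α → ℂ := fun b c => ((G b c / Fintype.card α : ℝ) : ℂ) *
    Complex.exp ((θ * Real.log (G b c) : ℝ) * Complex.I)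
  have hz : ∀ x : Fin k → α, ∏ i, z i (x i) =
      ((Q G x : ℝ) : ℂ) * Complex.exp ((θ * S G x : ℝ) * Complex.I) := by
    intro x
    simp only [z]
    rw [prod_mul_distrib, ← Complex.exp_sum]
    congr 1
    · unfold Q
      push_cast
      rfl
    · congr 1
      unfold S
      rw [← sum_mul]
      congr 1
      rw [mul_sum]
      push_cast
      rfl
  have hre : ∀ x : Fin k → α, Q G x * Real.cos (θ * (S G x - a)) =
      (Complex.exp ((-(θ * a) : ℝ) * Complex.I) * ∏ i, z i (x i)).re := by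
    intro x
    rw [hz]
    have e1 : Complex.exp ((-(θ * a) : ℝ) * Complex.I) *
        (((Q G x : ℝ) : ℂ) * Complex.exp ((θ * S G x : ℝ) * Complex.I)) =
        ((Q G x : ℝ) : ℂ) * Complex.exp ((θ * (S G x - a) : ℝ) * Complex.I) := by
      rw [mul_left_comm, ← Complex.exp_add]
      congr 2
      push_cast
      ring
    rw [e1, Complex.re_ofReal_mul, Complex.exp_ofReal_mul_I_re]
  have hprod : ∑ x : Fin k → α, ∏ i, z i (x i) = ∏ i, ∑ c, z i c := by
    have h := Finset.prod_univ_sum (fun _ : Fin k => (univ : Finset α)) z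
    rw [Fintype.piFinset_univ] at h
    rw [← h]
  simp only [hre]
  rw [← Complex.re_sum, ← mul_sum, hprod]
  refine (Complex.re_le_norm _).trans ?_
  rw [norm_mul, Complex.norm_exp_ofReal_mul_I, one_mul, norm_prod]
  refine (prod_le_prod (fun i _ => norm_nonneg _)
    fun i _ => h2_factor hΛ (G i) (hG i).1 (hG i).2 hθ hθ').trans ?_
  rw [← Real.exp_sum]
  apply le_of_eq
  congr 1
  unfold V
  rw [sum_neg_distrib, ← mul_sum]

end Pool.Agent.H63TC.Bl
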