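import Pool.Agent.H63TC.BlH2

set_option autoImplicit false

/-!
# Anticoncentration under the tilted measure of a family of blocks (helper33)
-/

namespace Pool.Agent.H63TC.Bl

open Finset

variable {k : ℕ} {α : Type} [Fintype α] [Nonempty α]

omit [Nonempty α] in
private theorem Q_nonneg {Λ : ℝ} (hΛ : 1 ≤ Λ) (G : Fin k → α → ℝ) (hG : Ok Λ G)
    (x : Fin k → α) : 0 ≤ Q G x := by
  unfold Q
  refine Finset.prod_nonneg fun b _ => div_nonneg ?_ (Nat.cast_nonneg _)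
  have hΛ0 : 0 < Λ := by linarith
  exact (one_div_pos.2 hΛ0).le.trans ((hG b).1 (x b)).1

/-- H4 -/
theorem conc {Λ : ℝ} (hΛ : 1 ≤ Λ) (G : Fin k → α → ℝ) (hG : Ok Λ G) (hV : 0 < V G)
    (w : ℝ) (hw : 0 < w) (hw1 : w ≤ 1) (hw' : w * (2 * Real.log Λ) ≤ Real.pi) (a : ℝ) :
    ∑ x ∈ univ.filter (fun x : Fin k → α => |S G x - a| ≤ 1), Q G x ≤
      9 * Λ ^ 2 / (w * Real.sqrt (V G)) := by
  have hΛ0 : 0 < Λ := by linarith
  obtain ⟨c, hc⟩ : ∃ c : ℝ, c = 1 / (5 * Λ ^ 4) * w ^ 2 * V G := ⟨_, rfl⟩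
  have hc0 : 0 < c := by
    rw [hc]
    positivity
  have hL : 0 ≤ 2 * Real.log Λ := by linarith [Real.log_nonneg hΛ]
  have e1 : 1 / 4 * ∑ x ∈ univ.filter (fun x : Fin k → α => |S G x - a| ≤ 1), Q G x ≤
      ∑ x, Q G x * ∫ θ in (0 : ℝ)..1, (1 - θ) * Real.cos (θ * (w * (S G x - a))) := by
    rw [Finset.mul_sum, Finset.sum_filter]
    refine Finset.sum_le_sum fun x _ => ?_
    split_ifs with hx
    · rw [mul_comm]
      refine mul_le_mul_of_nonneg_left (Pr.ker_ge _ ?_) (Q_nonneg hΛ G hG x)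
      rw [abs_mul, abs_of_pos hw]
      exact mul_le_one₀ hw1 (abs_nonneg _) hx
    · exact mul_nonneg (Q_nonneg hΛ G hG x) (Pr.ker_nonneg _)
  have e2 : ∑ x, Q G x * ∫ θ in (0 : ℝ)..1, (1 - θ) * Real.cos (θ * (w * (S G x - a))) =
      ∫ θ in (0 : ℝ)..1, (1 - θ) * ∑ x, Q G x * Real.cos (θ * w * (S G x - a)) := by
    have h3 : ∀ x : Fin k → α, Q G x *
        ∫ θ in (0 : ℝ)..1, (1 - θ) * Real.cos (θ * (w * (S G x - a))) =
        ∫ θ in (0 : ℝ)..1, (1 - θ) * (Q G x * Real.cos (θ * w * (S G x - a))) := fun x => by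
      rw [← intervalIntegral.integral_const_mul]
      refine intervalIntegral.integral_congr fun θ _ => ?_
      show Q G x * ((1 - θ) * Real.cos (θ * (w * (S G x - a)))) =
        (1 - θ) * (Q G x * Real.cos (θ * w * (S G x - a)))
      rw [mul_assoc θ w]
      ring
    rw [Finset.sum_congr rfl fun x _ => h3 x, ← intervalIntegral.integral_finsetSum]
    · refine intervalIntegral.integral_congr fun θ _ => ?_
      show ∑ x, (1 - θ) * (Q G x * Real.cos (θ * w * (S G x - a))) =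
        (1 - θ) * ∑ x, Q G x * Real.cos (θ * w * (S G x - a))
      rw [Finset.mul_sum]
    · intro x _
      exact Continuous.intervalIntegrable (by fun_prop) _ _
  have e3 : ∫ θ in (0 : ℝ)..1, (1 - θ) * ∑ x, Q G x * Real.cos (θ * w * (S G x - a)) ≤
      ∫ θ in (0 : ℝ)..1, Real.exp (-(c * θ ^ 2)) := by
    refine intervalIntegral.integral_mono_on zero_le_one
      (Continuous.intervalIntegrable (by fun_prop) _ _)
      (Continuous.intervalIntegrable (by fun_prop) _ _) fun θ hθ => ?_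
    have h3 : θ * w * (2 * Real.log Λ) ≤ Real.pi := by
      refine le_trans ?_ hw'
      rw [mul_assoc]
      exact mul_le_of_le_one_left (mul_nonneg hw.le hL) hθ.2
    have h4 := char_le hΛ G hG a (θ * w) (mul_nonneg hθ.1 hw.le) h3
    have h5 : 1 / (5 * Λ ^ 4) * (θ * w) ^ 2 * V G = c * θ ^ 2 := by
      rw [hc]
      ring
    rw [h5] at h4
    have h6 : 0 ≤ 1 - θ := by linarith [hθ.2]
    calc (1 - θ) * ∑ x, Q G x * Real.cos (θ * w * (S G x - a))
        ≤ (1 - θ) * Real.exp (-(c * θ ^ 2)) := mul_le_mul_of_nonneg_left h4 h6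
      _ ≤ 1 * Real.exp (-(c * θ ^ 2)) :=
        mul_le_mul_of_nonneg_right (by linarith [hθ.1]) (Real.exp_pos _).le
      _ = Real.exp (-(c * θ ^ 2)) := one_mul _
  have e4 := Pr.gauss_le c hc0
  have e5 : 1 / 4 * ∑ x ∈ univ.filter (fun x : Fin k → α => |S G x - a| ≤ 1), Q G x ≤
      1 / Real.sqrt c := by
    rw [e2] at e1
    exact (e1.trans e3).trans e4
  have hsV : 0 < Real.sqrt (V G) := Real.sqrt_pos.2 hV
  have hsc : 0 < Real.sqrt c := Real.sqrt_pos.2 hc0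
  have e6 : 4 * (w * Real.sqrt (V G)) ≤ 9 * Λ ^ 2 * Real.sqrt c := by
    refine (sq_le_sq₀ (by positivity) (by positivity)).1 ?_
    rw [mul_pow, mul_pow, mul_pow, mul_pow, Real.sq_sqrt hV.le, Real.sq_sqrt hc0.le, hc]
    have h7 : 0 < w ^ 2 * V G := by positivity
    have h8 : 9 ^ 2 * (Λ ^ 2) ^ 2 * (1 / (5 * Λ ^ 4) * w ^ 2 * V G) =
        81 / 5 * (w ^ 2 * V G) := by
      field_simp
      ring
    rw [h8]
    linarith
  have e7 : 4 / Real.sqrt c ≤ 9 * Λ ^ 2 / (w * Real.sqrt (V G)) := by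
    rw [div_le_div_iff₀ hsc (by positivity)]
    exact e6
  have e8 : 4 / Real.sqrt c = 4 * (1 / Real.sqrt c) := by ring
  linarith

end Pool.Agent.H63TC.Bl
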