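import Pool.Agent.H63TC.CdAll

/-!
# Functions carried by a union of separated balls
-/

set_option autoImplicit false

open Finset

namespace Pool.Agent.H63TC.Cd

/-- Moving `y` by a distance at most `r` changes the kernel by at most `((1 + ρ) / (1 - ρ)) ^ r`. -/
theorem wt_move {ρ : ℝ} (h0 : 0 < ρ) (h1 : ρ < 1) {n : ℕ} (x y u : Fin n → Bool) (r : ℕ)
    (h : hammingDist y u ≤ r) : wt ρ x y ≤ ((1 + ρ) / (1 - ρ)) ^ r * wt ρ x u := by
  have hρ : 0 < 1 - ρ := by linarith
  have hc : 1 ≤ (1 + ρ) / (1 - ρ) := by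
    rw [le_div_iff₀ hρ]; linarith
  have hw : 0 ≤ wt ρ x u := by
    unfold wt
    refine Finset.prod_nonneg fun i _ => ?_
    split_ifs <;> linarith
  have key : wt ρ x y ≤ ((1 + ρ) / (1 - ρ)) ^ hammingDist y u * wt ρ x u := by
    have e : ((1 + ρ) / (1 - ρ)) ^ hammingDist y u =
        ∏ i : Fin n, if y i ≠ u i then (1 + ρ) / (1 - ρ) else 1 := by
      rw [Finset.prod_ite, Finset.prod_const_one, mul_one, Finset.prod_const]
      rfl
    rw [e]
    unfold wt
    rw [← Finset.prod_mul_distrib]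
    refine Finset.prod_le_prod (fun i _ => by split_ifs <;> linarith) fun i _ => ?_
    have e1 : (1 + ρ) / (1 - ρ) * ((1 - ρ) / 2) = (1 + ρ) / 2 := by field_simp
    have e2 : (1 + ρ) / 2 ≤ (1 + ρ) / (1 - ρ) * ((1 + ρ) / 2) := by
      nlinarith [hc, h0]
    rcases Bool.eq_false_or_eq_true (x i) with hx | hx <;>
    rcases Bool.eq_false_or_eq_true (y i) with hy | hy <;>
    rcases Bool.eq_false_or_eq_true (u i) with hu | hu <;>
    simp only [hx, hy, hu] <;> norm_num <;> linarith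
  refine le_trans key (mul_le_mul_of_nonneg_right ?_ hw)
  exact pow_le_pow_right₀ hc h

open Classical in
/-- **Functions on separated balls.** -/
theorem balls {ρ : ℝ} (h0 : 0 < ρ) (h1 : ρ < 1) {n : ℕ} (f : (Fin n → Bool) → ℝ)
    (hf : ∀ x, 0 ≤ f x) (hm : ∑ x, f x = 2 ^ n) (A : Finset (Fin n → Bool)) (r : ℕ)
    (hA : ∀ y, f y ≠ 0 → ∃ u ∈ A, hammingDist y u ≤ r) (η : ℝ)
    (hη : ∀ u ∈ A, ∑ v ∈ A.erase u, Real.sqrt (1 - ρ ^ 2) ^ hammingDist u v ≤ η)
    (t : ℝ) (ht : 8 * ((1 + ρ) / (1 - ρ)) ^ r / (1 - ρ) ≤ t) :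
    ((univ.filter fun x : Fin n → Bool => t ≤ noise ρ f x).card : ℝ) / 2 ^ n ≤
      ((1 + ρ) / (1 - ρ)) ^ r / t *
        (32 / Real.sqrt ((1 - ρ) * Real.log (t / (2 * ((1 + ρ) / (1 - ρ)) ^ r))) + η) := by
  have hρ : 0 < 1 - ρ := by linarith
  set c : ℝ := ((1 + ρ) / (1 - ρ)) ^ r with hc
  have hc0 : 0 < c := by
    rw [hc]; positivity
  have ht0 : 0 < t := lt_of_lt_of_le (by positivity) ht
  choose π hπ using hA
  let p : (Fin n → Bool) → Fin n → Bool := fun y => if h : f y ≠ 0 then π y h else y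
  let F : (Fin n → Bool) → ℝ := fun u => ∑ y ∈ univ.filter (fun y => p y = u), f y
  have hF0 : ∀ u, 0 ≤ F u := fun u => Finset.sum_nonneg fun y _ => hf y
  have hFm : ∑ u, F u = 2 ^ n := by
    rw [← hm]
    exact Finset.sum_fiberwise _ _ _
  have hFA : ∀ u, F u ≠ 0 → u ∈ A := by
    intro u hu
    obtain ⟨y, hy, hfy⟩ := Finset.exists_ne_zero_of_sum_ne_zero hu
    rw [Finset.mem_filter] at hy
    have : p y = π y hfy := dif_pos hfy
    rw [← hy.2, this]
    exact (hπ y hfy).1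
  have hle : ∀ x, noise ρ f x ≤ c * noise ρ F x := by
    intro x
    have e : noise ρ F x = ∑ y, wt ρ x (p y) * f y := by
      unfold noise
      rw [← Finset.sum_fiberwise univ p (fun y => wt ρ x (p y) * f y)]
      refine Finset.sum_congr rfl fun u _ => ?_
      rw [Finset.mul_sum]
      refine Finset.sum_congr rfl fun y hy => ?_
      rw [(Finset.mem_filter.1 hy).2]
    rw [e, Finset.mul_sum]
    unfold noise
    refine Finset.sum_le_sum fun y _ => ?_
    by_cases hy : f y = 0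
    · simp [hy]
    · have hp : p y = π y hy := dif_pos hy
      rw [hp, ← mul_assoc]
      exact mul_le_mul_of_nonneg_right (wt_move h0 h1 x y _ r (hπ y hy).2) (hf y)
  have ht' : 8 / (1 - ρ) ≤ t / c := by
    rw [le_div_iff₀ hc0]
    calc 8 / (1 - ρ) * c = 8 * c / (1 - ρ) := by ring
      _ ≤ t := ht
  have hh := code h0 h1 F hF0 hFm η (fun y hy => by
    refine le_trans ?_ (hη y (hFA y hy))
    refine Finset.sum_le_sum_of_subset_of_nonneg ?_ fun z _ _ => by positivity
    intro z hz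
    rw [Finset.mem_filter] at hz
    exact Finset.mem_erase.2 ⟨hz.2.2, hFA z hz.2.1⟩) (t / c) ht'
  have h2 : (0 : ℝ) < 2 ^ n := by positivity
  have e1 : t / c / 2 = t / (2 * c) := by
    field_simp
  have e2 : 1 / (t / c) = c / t := by
    field_simp
  rw [e1, e2] at hh
  refine le_trans (div_le_div_of_nonneg_right ?_ h2.le) hh
  refine Nat.cast_le.2 (Finset.card_le_card fun x hx => ?_)
  rw [Finset.mem_filter] at hx ⊢
  refine ⟨Finset.mem_univ _, ?_⟩
  rw [div_le_iff₀ hc0]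
  linarith [hle x, hx.2, mul_comm c (noise ρ F x)]

end Pool.Agent.H63TC.Cd
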