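import Pool.Agent.H63TC.Main

/-!
# The sum of many non-negative functions: one large summand or much overlap
-/

set_option autoImplicit false

namespace Pool.Agent.H63TC.Cd

open Finset

/-- If a sum of non-negative functions is at least `t` then either one summand is at least `t / 2`
or the overlaps `√(h i * h j)` sum up to at least `t`. -/
theorem two_scale {n : ℕ} {ι : Type} [Fintype ι] [DecidableEq ι] (h : ι → (Fin n → Bool) → ℝ)
    (hh : ∀ j x, 0 ≤ h j x) (t : ℝ) (ht : 0 < t) :
    ((univ.filter fun x : Fin n → Bool => t ≤ ∑ j, h j x).card : ℝ) ≤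
      ((univ.filter fun x : Fin n → Bool => ∃ j, t / 2 ≤ h j x).card : ℝ) +
        (1 / t) * ∑ i, ∑ j ∈ univ.erase i, ∑ x, Real.sqrt (h i x * h j x) := by
  classical
  have key : ∀ x, t ≤ ∑ j, h j x → (¬∃ j, t / 2 ≤ h j x) →
      1 ≤ (1 / t) * ∑ i, ∑ j ∈ univ.erase i, Real.sqrt (h i x * h j x) := by
    intro x hx hno
    push Not at hno
    have hne : Nonempty ι := by
      by_contra hem
      rw [not_nonempty_iff] at hem
      rw [univ_eq_empty, sum_empty] at hx
      linarith
    obtain ⟨m, -, hm⟩ := exists_max_image (univ : Finset ι) (fun j => h j x) univ_nonempty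
    have h1 : ∑ i, ∑ j ∈ univ.erase i, Real.sqrt (h i x * h j x) =
        ∑ j ∈ univ.erase m, Real.sqrt (h m x * h j x) +
          ∑ i ∈ univ.erase m, ∑ j ∈ univ.erase i, Real.sqrt (h i x * h j x) :=
      (add_sum_erase univ (fun i => ∑ j ∈ univ.erase i, Real.sqrt (h i x * h j x))
        (mem_univ m)).symm
    have h2 : ∑ i ∈ univ.erase m, Real.sqrt (h i x * h m x) ≤
        ∑ i ∈ univ.erase m, ∑ j ∈ univ.erase i, Real.sqrt (h i x * h j x) := by
      refine sum_le_sum fun i hi => ?_
      exact single_le_sum (f := fun j => Real.sqrt (h i x * h j x))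
        (fun j _ => Real.sqrt_nonneg _)
        (mem_erase.2 ⟨(ne_of_mem_erase hi).symm, mem_univ m⟩)
    have h3 : ∀ j, h j x ≤ Real.sqrt (h m x * h j x) := by
      intro j
      refine Real.le_sqrt_of_sq_le ?_
      rw [sq]
      exact mul_le_mul_of_nonneg_right (hm j (mem_univ j)) (hh j x)
    have h4 : ∑ j ∈ univ.erase m, h j x ≤ ∑ j ∈ univ.erase m, Real.sqrt (h m x * h j x) :=
      sum_le_sum fun j _ => h3 j
    have h5 : ∑ j ∈ univ.erase m, h j x ≤ ∑ i ∈ univ.erase m, Real.sqrt (h i x * h m x) :=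
      sum_le_sum fun j _ => by
        rw [mul_comm]
        exact h3 j
    have h6 : ∑ j, h j x = h m x + ∑ j ∈ univ.erase m, h j x :=
      (add_sum_erase univ (fun j => h j x) (mem_univ m)).symm
    have h7 := hno m
    have h8 : t ≤ ∑ i, ∑ j ∈ univ.erase i, Real.sqrt (h i x * h j x) := by
      rw [h1]
      linarith
    rw [one_div, inv_mul_eq_div, le_div_iff₀ ht, one_mul]
    exact h8
  have hpt : ∀ x : Fin n → Bool, (if t ≤ ∑ j, h j x then (1 : ℝ) else 0) ≤
      (if ∃ j, t / 2 ≤ h j x then (1 : ℝ) else 0) +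
        (1 / t) * ∑ i, ∑ j ∈ univ.erase i, Real.sqrt (h i x * h j x) := by
    intro x
    have hnn : 0 ≤ (1 / t) * ∑ i, ∑ j ∈ univ.erase i, Real.sqrt (h i x * h j x) :=
      mul_nonneg (by positivity)
        (sum_nonneg fun i _ => sum_nonneg fun j _ => Real.sqrt_nonneg _)
    by_cases h1 : t ≤ ∑ j, h j x
    · by_cases h2 : ∃ j, t / 2 ≤ h j x
      · rw [if_pos h1, if_pos h2]
        linarith
      · rw [if_pos h1, if_neg h2]
        have := key x h1 h2
        linarith
    · rw [if_neg h1]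
      split_ifs
      · linarith
      · linarith
  have hsum := sum_le_sum fun x (_ : x ∈ (univ : Finset (Fin n → Bool))) => hpt x
  rw [sum_add_distrib, ← mul_sum] at hsum
  have hswap : ∑ x : Fin n → Bool, ∑ i, ∑ j ∈ univ.erase i, Real.sqrt (h i x * h j x) =
      ∑ i, ∑ j ∈ univ.erase i, ∑ x : Fin n → Bool, Real.sqrt (h i x * h j x) := by
    rw [sum_comm]
    refine sum_congr rfl fun i _ => ?_
    rw [sum_comm]
  rw [hswap] at hsum
  have hc1 : ((univ.filter fun x : Fin n → Bool => t ≤ ∑ j, h j x).card : ℝ) =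
      ∑ x : Fin n → Bool, (if t ≤ ∑ j, h j x then (1 : ℝ) else 0) := by
    rw [sum_boole]
  have hc2 : ((univ.filter fun x : Fin n → Bool => ∃ j, t / 2 ≤ h j x).card : ℝ) =
      ∑ x : Fin n → Bool, (if ∃ j, t / 2 ≤ h j x then (1 : ℝ) else 0) := by
    rw [sum_boole]
  rw [hc1, hc2]
  exact hsum

end Pool.Agent.H63TC.Cd
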