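import Mathlib

/-!
# Noise on the cube (MP_b7d303_pr): definitions
-/

set_option autoImplicit false

namespace Pool.Agent.H63TC

/-- The weight of the step from `x` to `y` under the noise operator `T_ρ`. -/
noncomputable def wt {n : ℕ} (ρ : ℝ) (x y : Fin n → Bool) : ℝ :=
  ∏ i : Fin n, if x i = y i then (1 + ρ) / 2 else (1 - ρ) / 2

/-- The noise operator `T_ρ`. -/
noncomputable def noise {n : ℕ} (ρ : ℝ) (f : (Fin n → Bool) → ℝ) (x : Fin n → Bool) : ℝ :=
  ∑ y : Fin n → Bool, wt ρ x y * f y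

end Pool.Agent.H63TC
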