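import Mathlib

set_option autoImplicit false

/-!
# A point of large binomial probability (helper21)
-/

namespace Pool.Agent.H63TC.Dm

open Finset

theorem binom {q : ℝ} (hq0 : 0 < q) (hq1 : q < 1) (n : ℕ) : ∃ k : ℕ, k ≤ n ∧
    ((k : ℝ) - n * q) ^ 2 ≤ 4 * (n * q * (1 - q)) ∧
    3 / (4 * (4 * Real.sqrt (n * q * (1 - q)) + 1)) ≤
      (n.choose k : ℝ) * q ^ k * (1 - q) ^ (n - k) := by
  classical
  have h1q : 0 < 1 - q := by linarith
  rcases Nat.eq_zero_or_pos n with hn | hn
  · subst hn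
    exact ⟨0, le_rfl, by simp, by norm_num⟩
  have hn0 : (0 : ℝ) < n := by exact_mod_cast hn
  set v : ℝ := n * q * (1 - q) with hv
  have hv0 : 0 < v := by positivity
  set s : ℝ := Real.sqrt v with hs
  have hs0 : 0 < s := Real.sqrt_pos.2 hv0
  have hs2 : s ^ 2 = v := Real.sq_sqrt hv0.le
  let p : ℕ → ℝ := fun k => (n.choose k : ℝ) * q ^ k * (1 - q) ^ (n - k)
  have hp0 : ∀ k, 0 ≤ p k := fun k => by positivity
  have hsum : ∑ k ∈ range (n + 1), p k = 1 := by
    have h := congrArg (Polynomial.eval q) (bernsteinPolynomial.sum ℝ n)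
    simpa [bernsteinPolynomial, Polynomial.eval_finsetSum, p] using h
  have hvar : ∑ k ∈ range (n + 1), ((k : ℝ) - n * q) ^ 2 * p k = v := by
    have h := congrArg (Polynomial.eval q) (bernsteinPolynomial.variance ℝ n)
    simp only [bernsteinPolynomial, Polynomial.eval_finsetSum, Polynomial.eval_mul,
      Polynomial.eval_pow, Polynomial.eval_sub, Polynomial.eval_X,
      Polynomial.eval_natCast, Polynomial.eval_one, nsmul_eq_mul] at h
    rw [hv, ← h]
    refine sum_congr rfl fun k _ => ?_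
    simp only [p]
    ring
  let W := (range (n + 1)).filter fun k : ℕ => ((k : ℝ) - n * q) ^ 2 ≤ 4 * v
  have hW : 3 / 4 ≤ ∑ k ∈ W, p k := by
    have h1 := sum_filter_add_sum_filter_not (range (n + 1))
      (fun k : ℕ => ((k : ℝ) - n * q) ^ 2 ≤ 4 * v) p
    have h2 : (4 * v) * ∑ k ∈ (range (n + 1)).filter
        (fun k : ℕ => ¬ ((k : ℝ) - n * q) ^ 2 ≤ 4 * v), p k ≤ v := by
      rw [mul_sum]
      calc _ ≤ ∑ k ∈ (range (n + 1)).filter
            (fun k : ℕ => ¬ ((k : ℝ) - n * q) ^ 2 ≤ 4 * v), ((k : ℝ) - n * q) ^ 2 * p k := by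
            refine sum_le_sum fun k hk => ?_
            exact mul_le_mul_of_nonneg_right (not_le.mp (mem_filter.mp hk).2).le (hp0 k)
        _ ≤ ∑ k ∈ range (n + 1), ((k : ℝ) - n * q) ^ 2 * p k :=
            sum_le_sum_of_subset_of_nonneg (filter_subset _ _)
              fun k _ _ => mul_nonneg (sq_nonneg _) (hp0 k)
        _ = v := hvar
    have h3 : ∑ k ∈ (range (n + 1)).filter
        (fun k : ℕ => ¬ ((k : ℝ) - n * q) ^ 2 ≤ 4 * v), p k ≤ 1 / 4 := by
      by_contra h4
      have h5 := mul_lt_mul_of_pos_left (not_le.mp h4) (by positivity : 0 < 4 * v)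
      linarith
    rw [hsum] at h1
    show 3 / 4 ≤ ∑ k ∈ (range (n + 1)).filter
      (fun k : ℕ => ((k : ℝ) - n * q) ^ 2 ≤ 4 * v), p k
    linarith
  have hne : W.Nonempty := by
    by_contra h
    rw [not_nonempty_iff_eq_empty] at h
    rw [h, sum_empty] at hW
    norm_num at hW
  have hcard : (W.card : ℝ) ≤ 4 * s + 1 := by
    have hab : ∀ k ∈ W, (k : ℝ) - n * q ≤ 2 * s ∧ n * q - k ≤ 2 * s := by
      intro k hk
      have h1 : ((k : ℝ) - n * q) ^ 2 ≤ (2 * s) ^ 2 := by
        rw [mul_pow, hs2]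
        linarith [(mem_filter.mp hk).2]
      have h2 := abs_le.mp (abs_le_of_sq_le_sq h1 (by positivity))
      constructor
      · exact h2.2
      · linarith [h2.1]
    have h1 : W ⊆ Finset.Icc (W.min' hne) (W.max' hne) := fun k hk =>
      mem_Icc.mpr ⟨W.min'_le k hk, W.le_max' k hk⟩
    have h2 := card_le_card h1
    rw [Nat.card_Icc] at h2
    have h3 : W.min' hne ≤ W.max' hne := W.min'_le _ (W.max'_mem hne)
    have h4 := (hab _ (W.max'_mem hne)).1
    have h5 := (hab _ (W.min'_mem hne)).2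
    have h6 : (W.card : ℝ) ≤ (W.max' hne : ℝ) + 1 - W.min' hne := by
      have : (W.card : ℝ) ≤ ((W.max' hne + 1 - W.min' hne : ℕ) : ℝ) := by exact_mod_cast h2
      rw [Nat.cast_sub (by omega)] at this
      push_cast at this
      exact this
    linarith
  obtain ⟨k, hk, hmax⟩ := exists_max_image W p hne
  refine ⟨k, ?_, (mem_filter.mp hk).2, ?_⟩
  · have := mem_range.mp (mem_filter.mp hk).1
    omega
  · have h1 : ∑ j ∈ W, p j ≤ W.card * p k := by
      have := sum_le_card_nsmul W p (p k) fun j hj => hmax j hj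
      simpa using this
    have h2 : (W.card : ℝ) * p k ≤ (4 * s + 1) * p k := mul_le_mul_of_nonneg_right hcard (hp0 k)
    show 3 / (4 * (4 * s + 1)) ≤ p k
    rw [div_le_iff₀ (by positivity)]
    linarith

end Pool.Agent.H63TC.Dm
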