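import Pool.Agent.H63TC.Main

set_option autoImplicit false

open Finset

namespace Pool.Agent.H63TC.Dm

/-- Hoeffding's lemma for a two-point distribution. -/
theorem two_point (p : ℝ) (hp0 : 0 ≤ p) (hp1 : p ≤ 1) (a b : ℝ) (hab : a ≤ b) (s : ℝ) :
    p * Real.exp (s * b) + (1 - p) * Real.exp (s * a) ≤
      Real.exp (s * (p * b + (1 - p) * a) + s ^ 2 * (b - a) ^ 2 / 8) := by
  have hsum : ENNReal.ofReal p + ENNReal.ofReal (1 - p) = 1 := by
    rw [← ENNReal.ofReal_add hp0 (by linarith)]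
    simp
  let P : PMF Bool := PMF.ofFintype
    (fun c : Bool => cond c (ENNReal.ofReal p) (ENNReal.ofReal (1 - p))) (by simpa using hsum)
  let X : Bool → ℝ := fun c => cond c b a
  have hP1 : (P true).toReal = p := by
    show (ENNReal.ofReal p).toReal = p
    exact ENNReal.toReal_ofReal hp0
  have hP2 : (P false).toReal = 1 - p := by
    show (ENNReal.ofReal (1 - p)).toReal = 1 - p
    exact ENNReal.toReal_ofReal (by linarith)
  have hE : ∀ g : Bool → ℝ, ∫ c, g c ∂P.toMeasure = p * g true + (1 - p) * g false := by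
    intro g
    rw [PMF.integral_eq_sum, Fintype.sum_bool, hP1, hP2]
    simp [smul_eq_mul]
  have h := ProbabilityTheory.hasSubgaussianMGF_of_mem_Icc (μ := P.toMeasure) (X := X) (a := a)
    (b := b) (measurable_of_finite X).aemeasurable
    (Filter.Eventually.of_forall fun c => by
      cases c
      · exact ⟨le_rfl, hab⟩
      · exact ⟨hab, le_rfl⟩)
  have h2 := h.mgf_le s
  unfold ProbabilityTheory.mgf at h2
  rw [hE, hE] at h2
  have hc : (((‖b - a‖₊ / 2) ^ 2 : NNReal) : ℝ) = (b - a) ^ 2 / 4 := by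
    push_cast
    rw [Real.norm_of_nonneg (by linarith)]
    ring
  rw [hc] at h2
  have e1 : Real.exp (s * (p * b + (1 - p) * a) + s ^ 2 * (b - a) ^ 2 / 8) =
      Real.exp (s * (p * b + (1 - p) * a)) * Real.exp ((b - a) ^ 2 / 4 * s ^ 2 / 2) := by
    rw [← Real.exp_add]
    congr 1
    ring
  rw [e1]
  refine le_trans (le_of_eq ?_) (mul_le_mul_of_nonneg_left h2 (Real.exp_pos _).le)
  have e2 : ∀ x y : ℝ, Real.exp (s * y) = Real.exp (s * x) * Real.exp (s * (y - x)) := by
    intro x y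
    rw [← Real.exp_add]
    congr 1
    ring
  show p * Real.exp (s * b) + (1 - p) * Real.exp (s * a) =
    Real.exp (s * (p * b + (1 - p) * a)) *
      (p * Real.exp (s * (b - (p * b + (1 - p) * a))) +
        (1 - p) * Real.exp (s * (a - (p * b + (1 - p) * a))))
  rw [e2 (p * b + (1 - p) * a) b, e2 (p * b + (1 - p) * a) a]
  ring

theorem hoef {ρ : ℝ} (h0 : 0 < ρ) (h1 : ρ < 1) (s : ℝ) (_hs : 0 ≤ s) :
    ((1 + ρ) ^ (1 + s) + (1 - ρ) ^ (1 + s)) / 2 ≤
      Real.exp (s * (((1 + ρ) * Real.log (1 + ρ) + (1 - ρ) * Real.log (1 - ρ)) / 2) +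
        s ^ 2 * (Real.log ((1 + ρ) / (1 - ρ))) ^ 2 / 8) := by
  have hA : 0 < 1 + ρ := by linarith
  have hB : 0 < 1 - ρ := by linarith
  have h := two_point ((1 + ρ) / 2) (by linarith) (by linarith) (Real.log (1 - ρ))
    (Real.log (1 + ρ)) (Real.log_le_log hB (by linarith)) s
  have eL : Real.log ((1 + ρ) / (1 - ρ)) = Real.log (1 + ρ) - Real.log (1 - ρ) :=
    Real.log_div hA.ne' hB.ne'
  rw [eL]
  have e1 : (1 + ρ) ^ (1 + s) = (1 + ρ) * Real.exp (s * Real.log (1 + ρ)) := by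
    rw [Real.rpow_add hA, Real.rpow_one, Real.rpow_def_of_pos hA, mul_comm s]
  have e2 : (1 - ρ) ^ (1 + s) = (1 - ρ) * Real.exp (s * Real.log (1 - ρ)) := by
    rw [Real.rpow_add hB, Real.rpow_one, Real.rpow_def_of_pos hB, mul_comm s]
  rw [e1, e2]
  refine le_trans (le_of_eq ?_) (le_trans h (le_of_eq ?_))
  · ring
  · congr 1
    ring

end Pool.Agent.H63TC.Dm
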