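import Pool.Agent.H63TC.Main

/-!
Package L of the critical dimension (MP_b7d303_pr): the point mass.
-/

set_option autoImplicit false

namespace Pool.Agent.H63TC.Dm

open Finset

theorem wt_eq {ρ : ℝ} {n : ℕ} (x y : Fin n → Bool) :
    wt ρ x y = ((1 - ρ) / 2) ^ hammingDist x y * ((1 + ρ) / 2) ^ (n - hammingDist x y) := by
  unfold wt hammingDist
  rw [Finset.prod_ite, Finset.prod_const, Finset.prod_const, mul_comm]
  have h1 : (univ.filter fun i => x i = y i).card + (univ.filter fun i => x i ≠ y i).card = n := by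
    have h := Finset.card_filter_add_card_filter_not (s := (univ : Finset (Fin n)))
      (fun i => x i = y i)
    rw [card_univ, Fintype.card_fin] at h
    exact h
  have h2 : (univ.filter fun i => x i = y i).card = n - (univ.filter fun i => x i ≠ y i).card := by
    omega
  rw [h2]

theorem lower {ρ : ℝ} (h0 : 0 < ρ) (h1 : ρ < 1) {n : ℕ} (u : Fin n → Bool) (k : ℕ)
    (hk : k ≤ n) :
    (n.choose k : ℝ) * ((1 - ρ) / 2) ^ k * (1 - (1 - ρ) / 2) ^ (n - k) ≤
      ((1 + ρ) ^ (n - k) * (1 - ρ) ^ k) *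
        (((univ.filter fun x : Fin n → Bool => (1 + ρ) ^ (n - k) * (1 - ρ) ^ k ≤
          noise ρ (fun y => if y = u then 2 ^ n else 0) x).card : ℝ) / 2 ^ n) := by
  have hρ : 0 < 1 - ρ := by linarith
  have hsub : (univ.filter (fun x : Fin n → Bool => hammingDist x u = k)) ⊆
      univ.filter fun x : Fin n → Bool => (1 + ρ) ^ (n - k) * (1 - ρ) ^ k ≤
          noise ρ (fun y => if y = u then 2 ^ n else 0) x := by
    intro x hx
    rw [mem_filter] at hx ⊢
    refine ⟨mem_univ _, le_of_eq ?_⟩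
    unfold noise
    simp only [mul_ite, mul_zero, Finset.sum_ite_eq', mem_univ, if_true]
    rw [wt_eq, hx.2, div_pow, div_pow]
    have h2 : (2 : ℝ) ^ n = 2 ^ k * 2 ^ (n - k) := by rw [← pow_add]; congr 1; omega
    rw [h2]
    field_simp
  have hcard : (n.choose k : ℝ) ≤ ((univ.filter fun x : Fin n → Bool =>
      (1 + ρ) ^ (n - k) * (1 - ρ) ^ k ≤
          noise ρ (fun y => if y = u then 2 ^ n else 0) x).card : ℝ) := by
    rw [← card_sphere u k]
    exact_mod_cast card_le_card hsub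
  have h3 : (n.choose k : ℝ) * ((1 - ρ) / 2) ^ k * (1 - (1 - ρ) / 2) ^ (n - k)
      = ((1 + ρ) ^ (n - k) * (1 - ρ) ^ k) * ((n.choose k : ℝ) / 2 ^ n) := by
    have h4 : (1 : ℝ) - (1 - ρ) / 2 = (1 + ρ) / 2 := by ring
    rw [h4, div_pow, div_pow]
    have h2 : (2 : ℝ) ^ n = 2 ^ k * 2 ^ (n - k) := by rw [← pow_add]; congr 1; omega
    rw [h2]
    field_simp
  rw [h3]
  refine mul_le_mul_of_nonneg_left ?_ (by positivity)
  gcongr

end Pool.Agent.H63TC.Dm
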