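import Pool.Agent.H63TC.DmP
import Pool.Agent.H63TC.DmH
import Pool.Agent.H63TC.DmB
import Pool.Agent.H63TC.DmL

/-!
# The critical dimension
-/

set_option autoImplicit false

open Finset

namespace Pool.Agent.H63TC.Dm

/-- **Upper bound**, all functions. -/
theorem upper {ρ : ℝ} (h0 : 0 < ρ) (h1 : ρ < 1) {n : ℕ} (f : (Fin n → Bool) → ℝ)
    (hf : ∀ x, 0 ≤ f x) (hm : ∑ x, f x = 2 ^ n) (t : ℝ) (ht0 : 0 < t)
    (ht : n * (((1 + ρ) * Real.log (1 + ρ) + (1 - ρ) * Real.log (1 - ρ)) / 2) ≤ Real.log t) :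
    ((univ.filter fun x : Fin n → Bool => t ≤ noise ρ f x).card : ℝ) / 2 ^ n ≤
      1 / t * Real.exp (-(2 * (Real.log t -
        n * (((1 + ρ) * Real.log (1 + ρ) + (1 - ρ) * Real.log (1 - ρ)) / 2)) ^ 2 /
          (n * (Real.log ((1 + ρ) / (1 - ρ))) ^ 2))) := by
  have hρ : 0 < 1 - ρ := by linarith
  set κ : ℝ := ((1 + ρ) * Real.log (1 + ρ) + (1 - ρ) * Real.log (1 - ρ)) / 2 with hκ
  set L : ℝ := Real.log ((1 + ρ) / (1 - ρ)) with hL
  have hL0 : 0 < L := by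
    apply Real.log_pos
    rw [lt_div_iff₀ hρ]; linarith
  set D : ℝ := Real.log t - n * κ with hD
  have hD0 : 0 ≤ D := by linarith
  set s : ℝ := 4 * D / (n * L ^ 2) with hs
  have hs0 : 0 ≤ s := by positivity
  have h2 : (0 : ℝ) < 2 ^ n := by positivity
  set S := univ.filter fun x : Fin n → Bool => t ≤ noise ρ f x with hS
  have hw : ∀ x y : Fin n → Bool, 0 ≤ wt ρ x y := by
    intro x y
    unfold wt
    refine Finset.prod_nonneg fun i _ => ?_
    split_ifs <;> linarith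
  have hN : ∀ x, 0 ≤ noise ρ f x := by
    intro x
    unfold noise
    exact Finset.sum_nonneg fun y _ => mul_nonneg (hw x y) (hf y)
  have e1 : (S.card : ℝ) * t ^ (1 + s) ≤ ∑ x, (noise ρ f x) ^ (1 + s) := by
    calc (S.card : ℝ) * t ^ (1 + s) = ∑ x ∈ S, t ^ (1 + s) := by
          rw [Finset.sum_const, nsmul_eq_mul]
      _ ≤ ∑ x ∈ S, (noise ρ f x) ^ (1 + s) := by
          refine Finset.sum_le_sum fun x hx => ?_
          exact Real.rpow_le_rpow ht0.le (Finset.mem_filter.1 hx).2 (by linarith)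
      _ ≤ ∑ x, (noise ρ f x) ^ (1 + s) := by
          refine Finset.sum_le_sum_of_subset_of_nonneg (Finset.subset_univ _) fun x _ _ => ?_
          exact Real.rpow_nonneg (hN x) _
  have e2 := mom h0 h1 f hf hm s hs0
  have e3 : (((1 + ρ) ^ (1 + s) + (1 - ρ) ^ (1 + s)) / 2) ^ n ≤
      Real.exp (n * (s * κ + s ^ 2 * L ^ 2 / 8)) := by
    rw [Real.exp_nat_mul]
    refine pow_le_pow_left₀ ?_ (hoef h0 h1 s hs0) n
    positivity
  have e4 : (S.card : ℝ) / 2 ^ n * t ^ (1 + s) ≤ Real.exp (n * (s * κ + s ^ 2 * L ^ 2 / 8)) := by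
    rw [div_mul_eq_mul_div, div_le_iff₀ h2]
    calc (S.card : ℝ) * t ^ (1 + s) ≤ _ := le_trans e1 e2
      _ ≤ 2 ^ n * Real.exp (n * (s * κ + s ^ 2 * L ^ 2 / 8)) :=
          mul_le_mul_of_nonneg_left e3 h2.le
      _ = _ := by ring
  have e5 : t ^ (1 + s) = t * Real.exp (s * Real.log t) := by
    rw [Real.rpow_add ht0, Real.rpow_one, Real.rpow_def_of_pos ht0, mul_comm s]
  have e6 : (S.card : ℝ) / 2 ^ n ≤
      1 / t * Real.exp (n * (s * κ + s ^ 2 * L ^ 2 / 8) - s * Real.log t) := by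
    rw [Real.exp_sub, ← mul_div_assoc, le_div_iff₀ (Real.exp_pos _)]
    rw [e5] at e4
    rw [one_div, ← div_eq_inv_mul, le_div_iff₀ ht0]
    calc (S.card : ℝ) / 2 ^ n * Real.exp (s * Real.log t) * t =
          (S.card : ℝ) / 2 ^ n * (t * Real.exp (s * Real.log t)) := by ring
      _ ≤ _ := e4
  refine le_trans e6 (le_of_eq ?_)
  congr 2
  rcases Nat.eq_zero_or_pos n with hn | hn
  · have hz : s = 0 := by rw [hs, hn]; simp
    rw [hz, hn]; simp
  · have hn' : (0 : ℝ) < n := by exact_mod_cast hn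
    have hx : (n : ℝ) * (s * κ + s ^ 2 * L ^ 2 / 8) - s * Real.log t =
        -(s * D) + n * s ^ 2 * L ^ 2 / 8 := by
      rw [hD]; ring
    rw [hx, hs]
    field_simp
    ring

/-- **Lower bound**, point masses. -/
theorem sharp {ρ : ℝ} (h0 : 0 < ρ) (h1 : ρ < 1) (n : ℕ) :
    ∃ t : ℝ, 0 < t ∧ (Real.log t -
        n * (((1 + ρ) * Real.log (1 + ρ) + (1 - ρ) * Real.log (1 - ρ)) / 2)) ^ 2 ≤
          n * (1 - ρ ^ 2) * (Real.log ((1 + ρ) / (1 - ρ))) ^ 2 ∧
      ∀ u : Fin n → Bool, 3 / (4 * t * (2 * Real.sqrt (n * (1 - ρ ^ 2)) + 1)) ≤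
        ((univ.filter fun x : Fin n → Bool =>
          t ≤ noise ρ (fun y => if y = u then 2 ^ n else 0) x).card : ℝ) / 2 ^ n := by
  have hρ : 0 < 1 - ρ := by linarith
  have hρ' : 0 < 1 + ρ := by linarith
  obtain ⟨k, hk, hv, hb⟩ := binom (q := (1 - ρ) / 2) (by linarith) (by linarith) n
  have hq : (n : ℝ) * ((1 - ρ) / 2) * (1 - (1 - ρ) / 2) = n * (1 - ρ ^ 2) / 4 := by ring
  refine ⟨(1 + ρ) ^ (n - k) * (1 - ρ) ^ k, by positivity, ?_, fun u => ?_⟩
  · have hl : Real.log ((1 + ρ) ^ (n - k) * (1 - ρ) ^ k) -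
        n * (((1 + ρ) * Real.log (1 + ρ) + (1 - ρ) * Real.log (1 - ρ)) / 2) =
        (n * ((1 - ρ) / 2) - k) * Real.log ((1 + ρ) / (1 - ρ)) := by
      rw [Real.log_mul (by positivity) (by positivity), Real.log_pow, Real.log_pow,
        Real.log_div (by positivity) (by positivity), Nat.cast_sub hk]
      ring
    rw [hl, mul_pow]
    refine mul_le_mul_of_nonneg_right ?_ (sq_nonneg _)
    rw [hq] at hv
    nlinarith [hv]
  · have hl := lower h0 h1 u k hk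
    have ht : (0 : ℝ) < (1 + ρ) ^ (n - k) * (1 - ρ) ^ k := by positivity
    have hsq : Real.sqrt (n * ((1 - ρ) / 2) * (1 - (1 - ρ) / 2)) =
        Real.sqrt (n * (1 - ρ ^ 2)) / 2 := by
      rw [hq, show (n : ℝ) * (1 - ρ ^ 2) / 4 = n * (1 - ρ ^ 2) / 2 ^ 2 by ring,
        Real.sqrt_div' _ (by positivity), Real.sqrt_sq (by norm_num)]
    rw [hsq] at hb
    have h3 := le_trans hb hl
    have hs0 : 0 ≤ Real.sqrt (n * (1 - ρ ^ 2)) := Real.sqrt_nonneg _
    rw [div_le_iff₀ (by positivity)]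
    rw [div_le_iff₀ (by positivity)] at h3
    calc (3 : ℝ) ≤ _ := h3
      _ = _ := by ring

end Pool.Agent.H63TC.Dm
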