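import Pool.Agent.H63TC.Defs

/-! Package P: moments of the noise operator. -/

set_option autoImplicit false

namespace Pool.Agent.H63TC.Dm

open Finset

private theorem sum_prod' {k : ℕ} {β : Type} [Fintype β] (F : Fin k → β → ℝ) :
    ∑ x : Fin k → β, ∏ b, F b (x b) = ∏ b, ∑ a, F b a := by
  have h := Finset.prod_univ_sum (fun _ : Fin k => (Finset.univ : Finset β)) F
  rw [Fintype.piFinset_univ] at h
  exact h.symm

private theorem col {ρ : ℝ} (h0 : 0 < ρ) (h1 : ρ < 1) {n : ℕ} (s : ℝ) (y : Fin n → Bool) :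
    ∑ x : Fin n → Bool, (2 ^ n * wt ρ x y) ^ (1 + s) =
      2 ^ n * (((1 + ρ) ^ (1 + s) + (1 - ρ) ^ (1 + s)) / 2) ^ n := by
  have hr : 0 < 1 - ρ := by linarith
  have h2 : ∀ x : Fin n → Bool, (2 ^ n * wt ρ x y) ^ (1 + s) =
      ∏ i, (fun (i : Fin n) (b : Bool) => (if b = y i then (1 + ρ) else (1 - ρ)) ^ (1 + s)) i (x i) := by
    intro x
    have h3 : 2 ^ n * wt ρ x y = ∏ i, (if x i = y i then (1 + ρ) else (1 - ρ)) := by
      unfold wt
      have h4 : (2 : ℝ) ^ n = ∏ _i : Fin n, (2 : ℝ) := by simp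
      rw [h4, ← Finset.prod_mul_distrib]
      refine Finset.prod_congr rfl fun i _ => ?_
      split_ifs <;> ring
    rw [h3, ← Real.finsetProd_rpow]
    intro i _
    split_ifs <;> linarith
  rw [Finset.sum_congr rfl fun x _ => h2 x]
  refine (sum_prod' (fun (i : Fin n) (b : Bool) =>
    (if b = y i then (1 + ρ) else (1 - ρ)) ^ (1 + s))).trans ?_
  have h5 : ∀ i : Fin n, ∑ b : Bool, (if b = y i then (1 + ρ) else (1 - ρ)) ^ (1 + s) =
      2 * (((1 + ρ) ^ (1 + s) + (1 - ρ) ^ (1 + s)) / 2) := by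
    intro i
    rw [Fintype.sum_bool]
    cases y i
    · simp only [Bool.true_eq_false, if_false, if_true]
      ring
    · simp only [Bool.false_eq_true, if_false, if_true]
      ring
  rw [Finset.prod_congr rfl fun i _ => h5 i, Finset.prod_const, Finset.card_univ, Fintype.card_fin,
    mul_pow]

theorem mom {ρ : ℝ} (h0 : 0 < ρ) (h1 : ρ < 1) {n : ℕ} (f : (Fin n → Bool) → ℝ)
    (hf : ∀ x, 0 ≤ f x) (hm : ∑ x, f x = 2 ^ n) (s : ℝ) (hs : 0 ≤ s) :
    ∑ x, (noise ρ f x) ^ (1 + s) ≤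
      2 ^ n * (((1 + ρ) ^ (1 + s) + (1 - ρ) ^ (1 + s)) / 2) ^ n := by
  have hr : 0 < 1 - ρ := by linarith
  have h2n : (0 : ℝ) < 2 ^ n := by positivity
  have hw : ∑ y, f y / 2 ^ n = 1 := by
    rw [← Finset.sum_div, hm, div_self h2n.ne']
  have hwt : ∀ x y : Fin n → Bool, 0 ≤ wt ρ x y := by
    intro x y
    unfold wt
    refine Finset.prod_nonneg fun i _ => ?_
    split_ifs <;> linarith
  have h3 : ∀ x, (noise ρ f x) ^ (1 + s) ≤ ∑ y, f y / 2 ^ n * (2 ^ n * wt ρ x y) ^ (1 + s) := by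
    intro x
    have h4 := Real.rpow_arith_mean_le_arith_mean_rpow Finset.univ (fun y => f y / 2 ^ n)
      (fun y => 2 ^ n * wt ρ x y) (fun y _ => div_nonneg (hf y) h2n.le) hw
      (fun y _ => mul_nonneg h2n.le (hwt x y)) (p := 1 + s) (by linarith)
    have h5 : noise ρ f x = ∑ y, f y / 2 ^ n * (2 ^ n * wt ρ x y) := by
      unfold noise
      refine Finset.sum_congr rfl fun y _ => ?_
      field_simp
    rw [h5]
    exact h4
  refine (Finset.sum_le_sum fun x _ => h3 x).trans ?_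
  rw [Finset.sum_comm]
  have h6 : ∀ y, ∑ x, f y / 2 ^ n * (2 ^ n * wt ρ x y) ^ (1 + s) =
      f y / 2 ^ n * (2 ^ n * (((1 + ρ) ^ (1 + s) + (1 - ρ) ^ (1 + s)) / 2) ^ n) := by
    intro y
    rw [← Finset.mul_sum, col h0 h1]
  rw [Finset.sum_congr rfl fun y _ => h6 y, ← Finset.sum_mul, hw, one_mul]

end Pool.Agent.H63TC.Dm
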