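import Pool.Agent.H63TC.Defs

set_option autoImplicit false

/-!
# The noise of a radial function is radial
-/

namespace Pool.Agent.H63TC

open Finset

/-- The isometry of the cube which permutes the coordinates by `σ` and fixes `u`. -/
private def nrMap {n : ℕ} (u : Fin n → Bool) (σ : Equiv.Perm (Fin n)) (z : Fin n → Bool) :
    Fin n → Bool :=
  fun i => (z (σ.symm i) ^^ u (σ.symm i)) ^^ u i

private theorem nrMap_apply {n : ℕ} (u : Fin n → Bool) (σ : Equiv.Perm (Fin n))
    (z : Fin n → Bool) (i : Fin n) : nrMap u σ z (σ i) = ((z i ^^ u i) ^^ u (σ i)) := by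
  simp [nrMap]

private theorem nrMap_inv {n : ℕ} (u : Fin n → Bool) (σ : Equiv.Perm (Fin n))
    (z : Fin n → Bool) : nrMap u σ⁻¹ (nrMap u σ z) = z := by
  funext i
  show ((((z (σ.symm ((σ⁻¹).symm i)) ^^ u (σ.symm ((σ⁻¹).symm i))) ^^ u ((σ⁻¹).symm i)) ^^
    u ((σ⁻¹).symm i)) ^^ u i) = z i
  have h : (σ⁻¹).symm i = σ i := rfl
  rw [h, Equiv.symm_apply_apply]
  cases z i <;> cases u i <;> cases u (σ i) <;> rfl

private theorem wt_map {n : ℕ} (ρ : ℝ) (u : Fin n → Bool) (σ : Equiv.Perm (Fin n))
    (x z : Fin n → Bool) : wt ρ (nrMap u σ x) (nrMap u σ z) = wt ρ x z := by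
  unfold wt
  rw [← Equiv.prod_comp σ]
  refine Finset.prod_congr rfl fun i _ => ?_
  rw [nrMap_apply, nrMap_apply]
  congr 1
  cases x i <;> cases z i <;> cases u i <;> cases u (σ i) <;> simp

private theorem dist_map {n : ℕ} (u : Fin n → Bool) (σ : Equiv.Perm (Fin n))
    (z : Fin n → Bool) : hammingDist (nrMap u σ z) u = hammingDist z u := by
  unfold hammingDist
  refine Finset.card_bij (fun i _ => σ.symm i) ?_ (fun _ _ _ _ h => σ.symm.injective h) ?_
  · intro i hi
    rw [mem_filter] at hi ⊢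
    refine ⟨mem_univ _, fun h => hi.2 ?_⟩
    show ((z (σ.symm i) ^^ u (σ.symm i)) ^^ u i) = u i
    rw [h]
    cases u (σ.symm i) <;> cases u i <;> rfl
  · intro i hi
    rw [mem_filter] at hi
    refine ⟨σ i, ?_, σ.symm_apply_apply i⟩
    rw [mem_filter]
    refine ⟨mem_univ _, fun h => hi.2 ?_⟩
    rw [nrMap_apply] at h
    revert h
    cases z i <;> cases u i <;> cases u (σ i) <;> simp

/-- A permutation of the coordinates moves `x` to `y`. -/
private theorem exists_perm {n : ℕ} (u x y : Fin n → Bool)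
    (h : hammingDist x u = hammingDist y u) : ∃ σ : Equiv.Perm (Fin n), nrMap u σ x = y := by
  classical
  have hc : Fintype.card {i // x i ≠ u i} = Fintype.card {i // y i ≠ u i} := by
    rw [Fintype.card_subtype, Fintype.card_subtype]
    exact h
  obtain ⟨e⟩ := Fintype.card_eq.1 hc
  refine ⟨e.extendSubtype, ?_⟩
  funext j
  obtain ⟨i, rfl⟩ := (e.extendSubtype).surjective j
  rw [nrMap_apply]
  by_cases hi : x i ≠ u i
  · have h1 := e.extendSubtype_mem i hi
    revert hi h1
    cases x i <;> cases u i <;> cases y (e.extendSubtype i) <;> cases u (e.extendSubtype i) <;> simp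
  · have h1 := e.extendSubtype_not_mem i hi
    revert hi h1
    cases x i <;> cases u i <;> cases y (e.extendSubtype i) <;> cases u (e.extendSubtype i) <;> simp

/-- P2b: the noise of a radial function is radial. -/
theorem noise_radial (ρ : ℝ) {n : ℕ} (f : (Fin n → Bool) → ℝ) (u : Fin n → Bool)
    (hr : ∀ x y, hammingDist x u = hammingDist y u → f x = f y) (x y : Fin n → Bool)
    (h : hammingDist x u = hammingDist y u) : noise ρ f x = noise ρ f y := by
  obtain ⟨σ, rfl⟩ := exists_perm u x y h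
  unfold noise
  refine Finset.sum_bij' (fun z _ => nrMap u σ z) (fun z _ => nrMap u σ⁻¹ z)
    (fun _ _ => mem_univ _) (fun _ _ => mem_univ _) (fun z _ => nrMap_inv u σ z)
    (fun z _ => ?_) fun z _ => ?_
  · have := nrMap_inv u σ⁻¹ z
    rwa [inv_inv] at this
  · rw [wt_map, hr _ _ (dist_map u σ z)]

end Pool.Agent.H63TC
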