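import Pool.Agent.H63TC.P3
import Pool.Agent.H63TC.P2b

set_option autoImplicit false

namespace Pool.Agent.H63TC

open Finset

/-- The number of points at Hamming distance `j` from `u`. -/
theorem card_sphere {n : ℕ} (u : Fin n → Bool) (j : ℕ) :
    (univ.filter (fun x : Fin n → Bool => hammingDist x u = j)).card = n.choose j := by
  have h1 : (powersetCard j (univ : Finset (Fin n))).card = n.choose j := by
    rw [card_powersetCard, card_univ, Fintype.card_fin]
  rw [← h1]
  apply card_nbij' (fun x => univ.filter (fun i => x i ≠ u i))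
    (fun s i => if i ∈ s then !(u i) else u i)
  · intro x hx
    rw [mem_coe, mem_filter] at hx
    rw [mem_coe, mem_powersetCard]
    exact ⟨subset_univ _, hx.2⟩
  · intro s hs
    rw [mem_coe, mem_powersetCard] at hs
    rw [mem_coe, mem_filter]
    refine ⟨mem_univ _, ?_⟩
    rw [← hs.2]
    unfold hammingDist
    congr 1
    ext i
    simp only [mem_filter, mem_univ, true_and]
    by_cases h : i ∈ s <;> simp [h]
  · intro x _
    funext i
    simp only [mem_filter, mem_univ, true_and]
    by_cases h : x i = u i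
    · simp [h]
    · simp only [h, not_false_eq_true, ne_eq, if_true]
      cases hx : x i <;> cases hu : u i <;> simp_all
  · intro s _
    ext i
    simp only [mem_filter, mem_univ, true_and]
    by_cases h : i ∈ s <;> simp [h]

/-- **Radial functions**: Talagrand's bound with the sharp rate. -/
theorem radial {ρ : ℝ} (h0 : 0 < ρ) (h1 : ρ < 1) {n : ℕ} (f : (Fin n → Bool) → ℝ)
    (hf : ∀ x, 0 ≤ f x) (hm : ∑ x, f x = 2 ^ n) (u : Fin n → Bool)
    (hr : ∀ x y, hammingDist x u = hammingDist y u → f x = f y) (t : ℝ) (ht : 4 / (1 - ρ) ≤ t) :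
    ((univ.filter (fun x : Fin n → Bool => t ≤ noise ρ f x)).card : ℝ) / 2 ^ n ≤
      16 / (t * Real.sqrt ((1 - ρ) * Real.log t)) := by
  have hρ : 0 < 1 - ρ := by linarith
  have hs : 0 < Real.sqrt (1 - ρ) := Real.sqrt_pos.mpr hρ
  have hK : 1 ≤ 1 / Real.sqrt (1 - ρ) := by
    rw [le_div_iff₀ hs, one_mul, Real.sqrt_le_one]
    linarith
  have hKt : (2 * (1 / Real.sqrt (1 - ρ))) ^ 2 ≤ t := by
    refine le_trans (le_of_eq ?_) ht
    rw [mul_pow, div_pow, one_pow, Real.sq_sqrt hρ.le]
    ring
  have ht4 : 4 ≤ t := by nlinarith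
  have ht0 : 0 < t := by linarith
  have hl : 0 < Real.log t := Real.log_pos (by linarith)
  have hsl : 0 < Real.sqrt (Real.log t) := Real.sqrt_pos.mpr hl
  set A := univ.filter (fun x : Fin n → Bool => t ≤ noise ρ f x) with hA
  set J := A.image (fun x => hammingDist x u) with hJ
  have hsub : J ⊆ range (n + 1) := by
    intro j hj
    rw [hJ, mem_image] at hj
    obtain ⟨x, _, rfl⟩ := hj
    rw [mem_range]
    have := hammingDist_le_card_fintype (x := x) (y := u)
    rw [Fintype.card_fin] at this
    omega
  have hcard : (A.card : ℝ) = ∑ j ∈ J, (n.choose j : ℝ) := by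
    rw [hJ, card_eq_sum_card_image (fun x => hammingDist x u) A]
    push_cast
    apply sum_congr rfl
    intro j hj
    rw [mem_image] at hj
    obtain ⟨z, hz, rfl⟩ := hj
    rw [← card_sphere u]
    congr 2
    ext x
    simp only [hA, mem_filter, mem_univ, true_and] at hz ⊢
    constructor
    · exact fun h => h.2
    · intro h
      exact ⟨by rw [noise_radial ρ f u hr x z h]; exact hz, h⟩
  have hlev : ∀ j ∈ J, (n.choose j : ℝ) * t * Real.sqrt (n + 1) ≤
      1 / Real.sqrt (1 - ρ) * 2 ^ n := by
    intro j hj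
    rw [hJ, mem_image] at hj
    obtain ⟨z, hz, rfl⟩ := hj
    have h2 := sphere_le h0 h1 f hf hm t u (hammingDist z u)
    have h3 : (univ.filter (fun x : Fin n → Bool =>
        hammingDist x u = hammingDist z u ∧ t ≤ noise ρ f x)).card = n.choose (hammingDist z u) := by
      rw [← card_sphere u]
      congr 1
      ext x
      simp only [hA, mem_filter, mem_univ, true_and] at hz ⊢
      constructor
      · exact fun h => h.1
      · intro h
        exact ⟨h, by rw [noise_radial ρ f u hr x z h]; exact hz⟩
    rw [h3, Real.sqrt_mul hρ.le] at h2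
    have hN : (0 : ℝ) < (n : ℝ) + 1 := by positivity
    have hsq : 0 < Real.sqrt ((n : ℝ) + 1) := Real.sqrt_pos.mpr hN
    rw [le_div_iff₀ (by positivity)] at h2
    rw [div_mul_eq_mul_div, one_mul, le_div_iff₀ hs]
    linarith
  have h4 := tail hK n t J hKt hsub hlev
  rw [hcard, div_le_iff₀ (by positivity)]
  refine h4.trans (le_of_eq ?_)
  rw [Real.sqrt_mul hρ.le]
  field_simp

end Pool.Agent.H63TC
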