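import Pool.Agent.H63TC.Defs

set_option autoImplicit false

/-!
# The noise kernel gives small weight to every Hamming sphere
-/

namespace Pool.Agent.H63TC

namespace Loc

open Finset

/-- The noise kernel. -/
noncomputable def ker (ρ : ℝ) {n : ℕ} (x y : Fin n → Bool) : ℝ :=
  ∏ i : Fin n, if x i = y i then (1 + ρ) / 2 else (1 - ρ) / 2

theorem ker_comm (ρ : ℝ) {n : ℕ} (x y : Fin n → Bool) : ker ρ x y = ker ρ y x := by
  unfold ker
  refine prod_congr rfl fun i _ => ?_
  by_cases h : x i = y i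
  · rw [if_pos h, if_pos h.symm]
  · rw [if_neg h, if_neg fun h' => h h'.symm]

theorem ker_nonneg {ρ : ℝ} (h0 : 0 < ρ) (h1 : ρ < 1) {n : ℕ} (x y : Fin n → Bool) :
    0 ≤ ker ρ x y := by
  unfold ker
  refine prod_nonneg fun i _ => ?_
  split_ifs <;> linarith

/-! ### central binomial coefficients -/

theorem central_sq (k : ℕ) : (k.centralBinom : ℝ) ^ 2 * (2 * k + 1) ≤ 16 ^ k := by
  induction k with
  | zero => simp
  | succ k ih =>
    have h := Nat.succ_mul_centralBinom_succ k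
    have h' : ((k : ℝ) + 1) * ((k + 1).centralBinom : ℝ) =
        2 * (2 * k + 1) * (k.centralBinom : ℝ) := by
      exact_mod_cast h
    have hk : (0 : ℝ) < (k : ℝ) + 1 := by positivity
    have h2 : ((k : ℝ) + 1) ^ 2 * (((k + 1).centralBinom : ℝ) ^ 2 * (2 * (k + 1) + 1)) ≤
        ((k : ℝ) + 1) ^ 2 * 16 ^ (k + 1) := by
      have h3 : ((k : ℝ) + 1) ^ 2 * ((k + 1).centralBinom : ℝ) ^ 2 =
          4 * (2 * k + 1) ^ 2 * (k.centralBinom : ℝ) ^ 2 := by
        rw [← mul_pow, h']; ring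
      have h4 : ((k : ℝ) + 1) ^ 2 * (((k + 1).centralBinom : ℝ) ^ 2 * (2 * (k + 1) + 1)) =
          4 * (2 * k + 1) * (2 * k + 3) * ((k.centralBinom : ℝ) ^ 2 * (2 * k + 1)) := by
        rw [← mul_assoc, h3]; ring
      rw [h4, pow_succ]
      have h5 : (4 : ℝ) * (2 * k + 1) * (2 * k + 3) ≤ 16 * ((k : ℝ) + 1) ^ 2 := by nlinarith
      have h6 : (0 : ℝ) ≤ 4 * (2 * k + 1) * (2 * k + 3) := by positivity
      calc 4 * (2 * (k : ℝ) + 1) * (2 * k + 3) * ((k.centralBinom : ℝ) ^ 2 * (2 * k + 1))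
          ≤ 4 * (2 * (k : ℝ) + 1) * (2 * k + 3) * 16 ^ k := mul_le_mul_of_nonneg_left ih h6
        _ ≤ 16 * ((k : ℝ) + 1) ^ 2 * 16 ^ k := mul_le_mul_of_nonneg_right h5 (by positivity)
        _ = ((k : ℝ) + 1) ^ 2 * (16 ^ k * 16) := by ring
    have := le_of_mul_le_mul_left h2 (by positivity)
    push_cast
    exact this

theorem middle_sq (r : ℕ) : ((r.choose (r / 2) : ℕ) : ℝ) ^ 2 * (r + 1) ≤ 4 ^ r := by
  rcases Nat.even_or_odd' r with ⟨k, hk | hk⟩
  · subst hk
    have h1 : 2 * k / 2 = k := by omega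
    rw [h1]
    have h := central_sq k
    rw [Nat.centralBinom_eq_two_mul_choose] at h
    have h2 : (4 : ℝ) ^ (2 * k) = 16 ^ k := by rw [pow_mul]; norm_num
    rw [h2]
    push_cast
    exact h
  · subst hk
    have h1 : (2 * k + 1) / 2 = k := by omega
    rw [h1]
    have h := central_sq (k + 1)
    have h3 : ((k + 1).centralBinom : ℝ) = 2 * ((2 * k + 1).choose k : ℕ) := by
      have h4 : (k + 1).centralBinom = (2 * k + 1).choose k + (2 * k + 1).choose (k + 1) := by
        rw [Nat.centralBinom_eq_two_mul_choose]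
        exact Nat.choose_succ_succ' (2 * k + 1) k
      have h5 : (2 * k + 1).choose (k + 1) = (2 * k + 1).choose k :=
        Nat.choose_symm_half k
      rw [h4, h5]
      push_cast
      ring
    rw [h3] at h
    have h2 : (4 : ℝ) ^ (2 * k + 1) = 4 * 16 ^ k := by
      rw [pow_succ, pow_mul]; norm_num; ring
    rw [h2]
    have h16 : (16 : ℝ) ^ (k + 1) = 16 * 16 ^ k := by ring
    rw [h16] at h
    push_cast at h ⊢
    have h6 : (0 : ℝ) ≤ (((2 * k + 1).choose k : ℕ) : ℝ) ^ 2 := by positivity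
    nlinarith

theorem middle_le (r : ℕ) : ((r.choose (r / 2) : ℕ) : ℝ) / 2 ^ r ≤ 1 / √(r + 1) := by
  have h := middle_sq r
  have h0 : (0 : ℝ) < (r : ℝ) + 1 := by positivity
  rw [div_le_div_iff₀ (by positivity) (Real.sqrt_pos.2 h0), one_mul]
  refine le_of_sq_le_sq ?_ (by positivity)
  rw [mul_pow, Real.sq_sqrt h0.le, ← pow_mul, mul_comm r 2, pow_mul]
  norm_num
  exact h

/-! ### the counting step -/

variable {n : ℕ}

/-- the sphere -/
def sph (u : Fin n → Bool) (j : ℕ) : Finset (Fin n → Bool) :=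
  univ.filter fun y => (univ.filter fun i => y i ≠ u i).card = j

theorem count_le (x u : Fin n → Bool) (j : ℕ) (R : Finset (Fin n)) :
    ((sph u j).filter fun y => ∀ i ∉ R, x i = y i).card ≤ R.card.choose (R.card / 2) := by
  classical
  set a := (Rᶜ.filter fun i => x i ≠ u i).card with ha
  have h1 : ((sph u j).filter fun y => ∀ i ∉ R, x i = y i).card ≤
      (R.powersetCard (j - a)).card := by
    refine card_le_card_of_injOn (fun y => R.filter fun i => y i ≠ u i) ?_ ?_
    · intro y hy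
      simp only [sph, coe_filter, Set.mem_ofPred_eq, mem_filter, mem_univ, true_and] at hy
      obtain ⟨hy1, hy2⟩ := hy
      rw [mem_coe, mem_powersetCard]
      refine ⟨filter_subset _ _, ?_⟩
      have h2 : (univ.filter fun i => y i ≠ u i) =
          (R.filter fun i => y i ≠ u i) ∪ (Rᶜ.filter fun i => x i ≠ u i) := by
        ext i
        simp only [mem_filter, mem_univ, true_and, mem_union, mem_compl]
        by_cases hi : i ∈ R
        · simp [hi]
        · simp [hi, hy2 i hi]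
      have h3 : Disjoint (R.filter fun i => y i ≠ u i) (Rᶜ.filter fun i => x i ≠ u i) := by
        rw [Finset.disjoint_left]
        intro i h4 h5
        exact (mem_compl.1 (mem_filter.1 h5).1) (mem_filter.1 h4).1
      rw [h2, card_union_of_disjoint h3, ← ha] at hy1
      show (R.filter fun i => y i ≠ u i).card = j - a
      omega
    · intro y hy z hz hyz
      simp only [coe_filter, Set.mem_ofPred_eq] at hy hz
      dsimp only at hyz
      ext i
      by_cases hi : i ∈ R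
      · have h6 : i ∈ (R.filter fun i => y i ≠ u i) ↔ i ∈ (R.filter fun i => z i ≠ u i) := by
          rw [hyz]
        simp only [mem_filter, hi, true_and] at h6
        revert h6
        cases y i <;> cases z i <;> cases u i <;> simp
      · rw [← hy.2 i hi, ← hz.2 i hi]
  refine h1.trans ?_
  rw [card_powersetCard]
  exact Nat.choose_le_middle _ _

/-- expansion of the kernel -/
theorem ker_expand (ρ : ℝ) (x y : Fin n → Bool) : ker ρ x y =
    ∑ R : Finset (Fin n), ((1 - ρ) / 2) ^ R.card * ρ ^ (n - R.card) *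
      (if ∀ i ∉ R, x i = y i then 1 else 0) := by
  classical
  have h1 : ker ρ x y = ∏ i : Fin n, ((1 - ρ) / 2 + if x i = y i then ρ else 0) := by
    unfold ker
    refine prod_congr rfl fun i _ => ?_
    split_ifs <;> ring
  rw [h1, prod_add, powerset_univ]
  refine sum_congr rfl fun R _ => ?_
  rw [prod_const, mul_assoc]
  congr 1
  have h2 : (univ \ R).card = n - R.card := by
    rw [card_univ_sdiff, Fintype.card_fin] 
  by_cases h : ∀ i ∉ R, x i = y i
  · rw [if_pos h, mul_one, prod_congr rfl fun i hi => if_pos (h i (mem_sdiff.1 hi).2), prod_const,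
      h2]
  · rw [if_neg h, mul_zero]
    push Not at h
    obtain ⟨i, hi, hxy⟩ := h
    exact prod_eq_zero (mem_sdiff.2 ⟨mem_univ i, hi⟩) (if_neg hxy)

/-- the weights -/
noncomputable def wgt (ρ : ℝ) (n : ℕ) (R : Finset (Fin n)) : ℝ :=
  (1 - ρ) ^ R.card * ρ ^ (n - R.card)

theorem wgt_nonneg {ρ : ℝ} (h0 : 0 < ρ) (h1 : ρ < 1) (R : Finset (Fin n)) : 0 ≤ wgt ρ n R := by
  unfold wgt
  have : 0 < 1 - ρ := by linarith
  positivity

theorem wgt_sum (ρ : ℝ) : ∑ R : Finset (Fin n), wgt ρ n R = 1 := by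
  classical
  have h := Finset.prod_add (fun _ : Fin n => 1 - ρ) (fun _ => ρ) univ
  simp only [prod_const, powerset_univ, card_univ_sdiff, Fintype.card_fin, card_univ,
    sub_add_cancel, one_pow] at h
  rw [h]
  rfl

theorem wgt_inv {ρ : ℝ} (h0 : 0 < ρ) (h1 : ρ < 1) :
    ∑ R : Finset (Fin n), wgt ρ n R * (1 / ((R.card : ℝ) + 1)) ≤ 1 / ((1 - ρ) * (n + 1)) := by
  classical
  have hp : 0 < 1 - ρ := by linarith
  have h2 : ∑ R : Finset (Fin n), wgt ρ n R * (1 / ((R.card : ℝ) + 1)) =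
      ∑ r ∈ range (n + 1), (n.choose r) • ((1 - ρ) ^ r * ρ ^ (n - r) * (1 / ((r : ℝ) + 1))) := by
    have := Finset.sum_powerset_apply_card (α := ℝ)
      (fun r => (1 - ρ) ^ r * ρ ^ (n - r) * (1 / ((r : ℝ) + 1))) (x := (univ : Finset (Fin n)))
    rw [powerset_univ, card_univ, Fintype.card_fin] at this
    rw [← this]
    rfl
  rw [h2]
  have h3 : ∀ r ∈ range (n + 1),
      (n.choose r) • ((1 - ρ) ^ r * ρ ^ (n - r) * (1 / ((r : ℝ) + 1))) =
      1 / ((1 - ρ) * (n + 1)) * ((1 - ρ) ^ (r + 1) * ρ ^ (n + 1 - (r + 1)) *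
        ((n + 1).choose (r + 1) : ℕ)) := by
    intro r hr
    have h4 : ((n : ℝ) + 1) * (n.choose r : ℕ) = ((n + 1).choose (r + 1) : ℕ) * ((r : ℝ) + 1) := by
      exact_mod_cast Nat.add_one_mul_choose_eq n r
    have h5 : n + 1 - (r + 1) = n - r := by omega
    have h6 : (0 : ℝ) < (r : ℝ) + 1 := by positivity
    have h7 : (0 : ℝ) < (n : ℝ) + 1 := by positivity
    rw [h5, nsmul_eq_mul]
    have h8 : ((n.choose r : ℕ) : ℝ) * (1 / ((r : ℝ) + 1)) =
        ((n + 1).choose (r + 1) : ℕ) / ((n : ℝ) + 1) := by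
      rw [mul_one_div, div_eq_div_iff h6.ne' h7.ne']
      linarith
    calc ((n.choose r : ℕ) : ℝ) * ((1 - ρ) ^ r * ρ ^ (n - r) * (1 / ((r : ℝ) + 1)))
        = (1 - ρ) ^ r * ρ ^ (n - r) * (((n.choose r : ℕ) : ℝ) * (1 / ((r : ℝ) + 1))) := by ring
      _ = (1 - ρ) ^ r * ρ ^ (n - r) * (((n + 1).choose (r + 1) : ℕ) / ((n : ℝ) + 1)) := by rw [h8]
      _ = _ := by
        field_simp
        ring
  rw [sum_congr rfl h3, ← mul_sum]
  have h9 : ∑ r ∈ range (n + 1), ((1 - ρ) ^ (r + 1) * ρ ^ (n + 1 - (r + 1)) *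
        ((n + 1).choose (r + 1) : ℕ)) ≤ 1 := by
    have h10 := add_pow (1 - ρ) ρ (n + 1)
    rw [sub_add_cancel, one_pow, sum_range_succ'] at h10
    have h11 : (0 : ℝ) ≤ (1 - ρ) ^ 0 * ρ ^ (n + 1 - 0) * ((n + 1).choose 0 : ℕ) := by positivity
    linarith
  have h12 : (0 : ℝ) ≤ 1 / ((1 - ρ) * (n + 1)) := by positivity
  calc _ ≤ 1 / ((1 - ρ) * (n + 1)) * 1 := mul_le_mul_of_nonneg_left h9 h12
    _ = _ := mul_one _

/-- **the noise kernel gives small weight to every Hamming sphere** -/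
theorem ker_sphere {ρ : ℝ} (h0 : 0 < ρ) (h1 : ρ < 1) (x u : Fin n → Bool) (j : ℕ) :
    ∑ y ∈ sph u j, ker ρ x y ≤ 1 / √((1 - ρ) * (n + 1)) := by
  classical
  have hp : 0 < 1 - ρ := by linarith
  have h2 : ∑ y ∈ sph u j, ker ρ x y ≤
      ∑ R : Finset (Fin n), wgt ρ n R * (1 / √((R.card : ℝ) + 1)) := by
    simp only [ker_expand]
    rw [sum_comm]
    refine sum_le_sum fun R _ => ?_
    rw [← mul_sum, sum_boole]
    have h3 := count_le x u j R
    have h4 : (((sph u j).filter fun y => ∀ i ∉ R, x i = y i).card : ℝ) ≤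
        ((R.card.choose (R.card / 2) : ℕ) : ℝ) := by exact_mod_cast h3
    have h5 := middle_le R.card
    have h6 : ((1 - ρ) / 2) ^ R.card * ρ ^ (n - R.card) = wgt ρ n R / 2 ^ R.card := by
      unfold wgt
      rw [div_pow]
      ring
    rw [h6]
    have h7 := wgt_nonneg (n := n) h0 h1 R
    calc wgt ρ n R / 2 ^ R.card * (((sph u j).filter fun y => ∀ i ∉ R, x i = y i).card : ℝ)
        ≤ wgt ρ n R / 2 ^ R.card * ((R.card.choose (R.card / 2) : ℕ) : ℝ) :=
          mul_le_mul_of_nonneg_left h4 (by positivity)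
      _ = wgt ρ n R * (((R.card.choose (R.card / 2) : ℕ) : ℝ) / 2 ^ R.card) := by ring
      _ ≤ _ := mul_le_mul_of_nonneg_left h5 h7
  refine h2.trans ?_
  have h9 : (∑ R : Finset (Fin n), wgt ρ n R * (1 / √((R.card : ℝ) + 1))) ^ 2 ≤
      ∑ R : Finset (Fin n), wgt ρ n R * (1 / √((R.card : ℝ) + 1)) ^ 2 :=
    Real.pow_arith_mean_le_arith_mean_pow_of_even _ _ _ (fun R _ => wgt_nonneg h0 h1 R)
      (wgt_sum ρ) even_two
  have h10 : ∀ R : Finset (Fin n), (1 / √((R.card : ℝ) + 1)) ^ 2 = 1 / ((R.card : ℝ) + 1) := by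
    intro R
    rw [div_pow, one_pow, Real.sq_sqrt (by positivity)]
  simp only [h10] at h9
  have h11 := h9.trans (wgt_inv h0 h1)
  refine le_of_sq_le_sq ?_ (by positivity)
  rw [div_pow, one_pow, Real.sq_sqrt (by positivity)]
  exact h11

end Loc

open Finset in
/-- The local bound: every sphere has noise probability at most `1 / √((1 - ρ) (n + 1))` from
every point. -/
theorem local_le {ρ : ℝ} (h0 : 0 < ρ) (h1 : ρ < 1) {n : ℕ} (y u : Fin n → Bool) (j : ℕ) :
    ∑ x ∈ univ.filter (fun x : Fin n → Bool => hammingDist x u = j), wt ρ x y ≤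
      1 / Real.sqrt ((1 - ρ) * (n + 1)) := by
  have h := Loc.ker_sphere h0 h1 y u j
  have h2 : ∀ x : Fin n → Bool, wt ρ x y = Loc.ker ρ y x := fun x => Loc.ker_comm ρ x y
  simp only [h2]
  exact h

end Pool.Agent.H63TC
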