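import Pool.Agent.H63TC.P1c

set_option autoImplicit false

/-!
# The sphere bound for all functions; lower bound of the middle binomial coefficient
-/

namespace Pool.Agent.H63TC

open Finset

private theorem wt_nonneg2 {ρ : ℝ} (h0 : 0 < ρ) (h1 : ρ < 1) {n : ℕ} (x y : Fin n → Bool) :
    0 ≤ wt ρ x y := by
  unfold wt
  refine prod_nonneg fun i _ => ?_
  split_ifs <;> linarith

/-- P2a: the sphere bound for all `f`. -/
theorem sphere_le {ρ : ℝ} (h0 : 0 < ρ) (h1 : ρ < 1) {n : ℕ} (f : (Fin n → Bool) → ℝ)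
    (hf : ∀ x, 0 ≤ f x) (hm : ∑ x, f x = 2 ^ n) (t : ℝ) (u : Fin n → Bool) (j : ℕ) :
    t * ((univ.filter (fun x : Fin n → Bool => hammingDist x u = j ∧ t ≤ noise ρ f x)).card : ℝ) ≤
      2 ^ n / Real.sqrt ((1 - ρ) * (n + 1)) := by
  have hn : ∀ x, 0 ≤ noise ρ f x := fun x =>
    sum_nonneg fun y _ => mul_nonneg (wt_nonneg2 h0 h1 x y) (hf y)
  calc t * ((univ.filter (fun x : Fin n → Bool =>
          hammingDist x u = j ∧ t ≤ noise ρ f x)).card : ℝ)
      = ∑ x ∈ univ.filter (fun x : Fin n → Bool => hammingDist x u = j ∧ t ≤ noise ρ f x), t := by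
        rw [sum_const, nsmul_eq_mul, mul_comm]
    _ ≤ ∑ x ∈ univ.filter (fun x : Fin n → Bool => hammingDist x u = j ∧ t ≤ noise ρ f x),
          noise ρ f x := sum_le_sum fun x hx => (mem_filter.1 hx).2.2
    _ ≤ ∑ x ∈ univ.filter (fun x : Fin n → Bool => hammingDist x u = j), noise ρ f x := by
        refine sum_le_sum_of_subset_of_nonneg ?_ fun x _ _ => hn x
        intro x hx
        exact mem_filter.2 ⟨mem_univ x, (mem_filter.1 hx).2.1⟩
    _ = ∑ y, f y * ∑ x ∈ univ.filter (fun x : Fin n → Bool => hammingDist x u = j), wt ρ x y := by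
        unfold noise
        rw [sum_comm]
        refine sum_congr rfl fun y _ => ?_
        rw [mul_sum]
        exact sum_congr rfl fun x _ => mul_comm _ _
    _ ≤ ∑ y, f y * (1 / Real.sqrt ((1 - ρ) * (n + 1))) :=
        sum_le_sum fun y _ => mul_le_mul_of_nonneg_left (local_le h0 h1 y u j) (hf y)
    _ = 2 ^ n / Real.sqrt ((1 - ρ) * (n + 1)) := by
        rw [← sum_mul, hm]
        ring

private theorem sq_central (k : ℕ) : (16 : ℝ) ^ k ≤ (4 * k + 1) * (k.centralBinom : ℝ) ^ 2 := by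
  induction k with
  | zero => simp
  | succ k ih =>
    have h := Nat.succ_mul_centralBinom_succ k
    have h' : ((k : ℝ) + 1) * ((k + 1).centralBinom : ℝ) =
        2 * (2 * k + 1) * (k.centralBinom : ℝ) := by
      exact_mod_cast h
    have h3 : ((k : ℝ) + 1) ^ 2 * ((k + 1).centralBinom : ℝ) ^ 2 =
        4 * (2 * k + 1) ^ 2 * (k.centralBinom : ℝ) ^ 2 := by
      rw [← mul_pow, h']; ring
    have hk : (0 : ℝ) ≤ (k : ℝ) := by positivity
    have h5 : 4 * ((k : ℝ) + 1) ^ 2 * (4 * k + 1) ≤ (2 * k + 1) ^ 2 * (4 * k + 5) := by nlinarith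
    have h6 : (0 : ℝ) < ((k : ℝ) + 1) ^ 2 * (4 * k + 1) := by positivity
    refine le_of_mul_le_mul_left ?_ h6
    push_cast
    have e1 : ((k : ℝ) + 1) ^ 2 * (4 * k + 1) * ((4 * (k + 1) + 1) *
        ((k + 1).centralBinom : ℝ) ^ 2) =
        4 * ((2 * k + 1) ^ 2 * (4 * k + 5)) * ((4 * k + 1) * (k.centralBinom : ℝ) ^ 2) := by
      linear_combination (4 * (k : ℝ) + 1) * (4 * k + 5) * h3
    rw [e1, pow_succ]
    have h7 : (0 : ℝ) ≤ 4 * ((2 * (k : ℝ) + 1) ^ 2 * (4 * k + 5)) := by positivity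
    calc ((k : ℝ) + 1) ^ 2 * (4 * k + 1) * (16 ^ k * 16)
        = 4 * (4 * ((k : ℝ) + 1) ^ 2 * (4 * k + 1)) * 16 ^ k := by ring
      _ ≤ 4 * ((2 * (k : ℝ) + 1) ^ 2 * (4 * k + 5)) * 16 ^ k :=
          mul_le_mul_of_nonneg_right (by linarith) (by positivity)
      _ ≤ _ := mul_le_mul_of_nonneg_left ih h7

private theorem sq_mid (r : ℕ) :
    (4 : ℝ) ^ r ≤ 4 * (r + 1) * ((r.choose (r / 2) : ℕ) : ℝ) ^ 2 := by
  rcases Nat.even_or_odd' r with ⟨k, hk | hk⟩
  · subst hk
    have h1 : 2 * k / 2 = k := by omega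
    rw [h1]
    have h := sq_central k
    rw [Nat.centralBinom_eq_two_mul_choose] at h
    have h2 : (4 : ℝ) ^ (2 * k) = 16 ^ k := by rw [pow_mul]; norm_num
    rw [h2]
    push_cast
    have h6 : (0 : ℝ) ≤ (((2 * k).choose k : ℕ) : ℝ) ^ 2 := by positivity
    have hk : (0 : ℝ) ≤ (k : ℝ) := by positivity
    nlinarith
  · subst hk
    have h1 : (2 * k + 1) / 2 = k := by omega
    rw [h1]
    have h := sq_central (k + 1)
    have h3 : ((k + 1).centralBinom : ℝ) = 2 * ((2 * k + 1).choose k : ℕ) := by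
      have h4 : (k + 1).centralBinom = (2 * k + 1).choose k + (2 * k + 1).choose (k + 1) := by
        rw [Nat.centralBinom_eq_two_mul_choose]
        exact Nat.choose_succ_succ' (2 * k + 1) k
      have h5 : (2 * k + 1).choose (k + 1) = (2 * k + 1).choose k :=
        Nat.choose_symm_half k
      rw [h4, h5]
      push_cast
      ring
    rw [h3] at h
    have h2 : (4 : ℝ) ^ (2 * k + 1) = 4 * 16 ^ k := by
      rw [pow_succ, pow_mul]; norm_num; ring
    rw [h2]
    have h16 : (16 : ℝ) ^ (k + 1) = 16 * 16 ^ k := by ring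
    rw [h16] at h
    push_cast at h ⊢
    have h6 : (0 : ℝ) ≤ (((2 * k + 1).choose k : ℕ) : ℝ) ^ 2 := by positivity
    have hk : (0 : ℝ) ≤ (k : ℝ) := by positivity
    nlinarith

/-- lower bound of the middle binomial coefficient -/
theorem le_mid (m : ℕ) : (2 : ℝ) ^ m / (2 * Real.sqrt (m + 1)) ≤ ((m.choose (m / 2) : ℕ) : ℝ) := by
  have h := sq_mid m
  have h0 : (0 : ℝ) < (m : ℝ) + 1 := by positivity
  have h1 := Real.sqrt_pos.2 h0
  rw [div_le_iff₀ (by positivity)]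
  refine le_of_sq_le_sq ?_ (by positivity)
  rw [mul_pow, mul_pow, Real.sq_sqrt h0.le, ← pow_mul, mul_comm m 2, pow_mul]
  norm_num
  linarith

end Pool.Agent.H63TC
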