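import Pool.Agent.H63TC.P2a

set_option autoImplicit false

namespace Pool.Agent.H63TC

open Finset

private theorem step (n j : ℕ) (h' : j + 1 ≤ n) :
    (n.choose (j + 1) : ℝ) * ((n : ℝ) + 1 + (2 * (j : ℝ) + 1 - n)) =
      (n.choose j : ℝ) * ((n : ℝ) + 1 - (2 * (j : ℝ) + 1 - n)) := by
  have h1 : (n.choose (j + 1) : ℝ) * ((j : ℝ) + 1) = (n.choose j : ℝ) * ((n : ℝ) - j) := by
    have h2 := Nat.choose_succ_right_eq n j
    have h3 : ((n - j : ℕ) : ℝ) = (n : ℝ) - j := by
      rw [Nat.cast_sub (by omega)]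
    rw [← h3]
    exact_mod_cast h2
  linear_combination 2 * h1

private theorem ge_aux (n d : ℕ) : ∀ j : ℕ, j = (n + 1) / 2 + d →
    2 * (2 * j + 1 - n) ≤ n + 5 → j ≤ n →
    (2 : ℝ) ^ n / (2 * Real.sqrt (n + 1)) * Real.exp (-(2 * (j : ℝ) + 1 - n) ^ 2 / (n + 1)) ≤
      (n.choose j : ℝ) := by
  induction d with
  | zero =>
    intro j hj _ _
    have h1 : (n.choose j : ℝ) = ((n.choose (n / 2) : ℕ) : ℝ) := by
      congr 1
      have : n - n / 2 = j := by omega
      rw [← this]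
      exact Nat.choose_symm (Nat.div_le_self n 2)
    rw [h1]
    refine le_trans ?_ (le_mid n)
    have h2 : Real.exp (-(2 * (j : ℝ) + 1 - n) ^ 2 / (n + 1)) ≤ 1 := by
      rw [Real.exp_le_one_iff]
      have : 0 ≤ (2 * (j : ℝ) + 1 - n) ^ 2 := sq_nonneg _
      have h3 : (0 : ℝ) < (n : ℝ) + 1 := by positivity
      rw [neg_div]
      have := div_nonneg this h3.le
      linarith
    have h3 : 0 ≤ (2 : ℝ) ^ n / (2 * Real.sqrt (n + 1)) := by positivity
    nlinarith
  | succ d ih =>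
    intro j hj hM hjn
    obtain ⟨i, rfl⟩ : ∃ i, j = i + 1 := ⟨(n + 1) / 2 + d, by omega⟩
    have hi : i = (n + 1) / 2 + d := by omega
    have h1 := ih i hi (by omega) (by omega)
    have hni : n ≤ 2 * i := by omega
    have hs := step n i (by omega)
    set M : ℝ := 2 * (i : ℝ) + 1 - n with hMdef
    have hM0 : 0 ≤ M := by
      have : (n : ℝ) ≤ 2 * i := by exact_mod_cast hni
      linarith
    have hM1 : 2 * M ≤ n + 1 := by
      have h5 : 2 * (2 * (i + 1) + 1) ≤ 3 * n + 5 := by omega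
      have h6 : (2 : ℝ) * (2 * ((i : ℝ) + 1) + 1) ≤ 3 * n + 5 := by exact_mod_cast h5
      rw [hMdef]; linarith
    have hN : (0 : ℝ) < (n : ℝ) + 1 := by positivity
    have hz : Real.exp (-(4 * M / (n + 1))) * ((n : ℝ) + 1 + M) ≤ (n : ℝ) + 1 - M := by
      have h7 : 1 + 4 * M / (n + 1) ≤ Real.exp (4 * M / (n + 1)) := by
        have := Real.add_one_le_exp (4 * M / ((n : ℝ) + 1))
        linarith
      have h8 : ((n : ℝ) + 1 + M) ≤ ((n : ℝ) + 1 - M) * (1 + 4 * M / (n + 1)) := by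
        have h9 : ((n : ℝ) + 1 - M) * (1 + 4 * M / (n + 1)) =
            (n : ℝ) + 1 + 3 * M - 4 * M ^ 2 / (n + 1) := by
          field_simp
          ring
        rw [h9]
        have h10 : 4 * M ^ 2 / ((n : ℝ) + 1) ≤ 2 * M := by
          rw [div_le_iff₀ hN]
          nlinarith
        linarith
      have h11 : ((n : ℝ) + 1 - M) * (1 + 4 * M / (n + 1)) ≤
          ((n : ℝ) + 1 - M) * Real.exp (4 * M / (n + 1)) :=
        mul_le_mul_of_nonneg_left h7 (by linarith)
      have h12 : Real.exp (-(4 * M / (n + 1))) * Real.exp (4 * M / (n + 1)) = 1 := by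
        rw [← Real.exp_add]; simp
      have h13 : 0 < Real.exp (-(4 * M / ((n : ℝ) + 1))) := Real.exp_pos _
      calc Real.exp (-(4 * M / (n + 1))) * ((n : ℝ) + 1 + M)
          ≤ Real.exp (-(4 * M / (n + 1))) * (((n : ℝ) + 1 - M) * Real.exp (4 * M / (n + 1))) :=
            mul_le_mul_of_nonneg_left (h8.trans h11) h13.le
        _ = (n : ℝ) + 1 - M := by
            linear_combination ((n : ℝ) + 1 - M) * h12
    have he : Real.exp (-(2 * (((i + 1 : ℕ)) : ℝ) + 1 - n) ^ 2 / (n + 1)) ≤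
        Real.exp (-M ^ 2 / (n + 1)) * Real.exp (-(4 * M / (n + 1))) := by
      rw [← Real.exp_add]
      apply Real.exp_le_exp.mpr
      have h14 : (2 * (((i + 1 : ℕ)) : ℝ) + 1 - n) = M + 2 := by
        push_cast; rw [hMdef]; ring
      rw [h14]
      have h15 : -M ^ 2 / ((n : ℝ) + 1) + -(4 * M / (n + 1)) = -(M ^ 2 + 4 * M) / (n + 1) := by
        field_simp
        ring
      rw [h15]
      apply div_le_div_of_nonneg_right _ hN.le
      nlinarith
    have hc : 0 ≤ (2 : ℝ) ^ n / (2 * Real.sqrt (n + 1)) := by positivity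
    have hP : 0 < (n : ℝ) + 1 + M := by linarith
    refine le_of_mul_le_mul_right ?_ hP
    rw [hs]
    calc (2 : ℝ) ^ n / (2 * Real.sqrt (n + 1)) *
          Real.exp (-(2 * (((i + 1 : ℕ)) : ℝ) + 1 - n) ^ 2 / (n + 1)) * ((n : ℝ) + 1 + M)
        ≤ (2 : ℝ) ^ n / (2 * Real.sqrt (n + 1)) *
          (Real.exp (-M ^ 2 / (n + 1)) * Real.exp (-(4 * M / (n + 1)))) * ((n : ℝ) + 1 + M) := by
          gcongr
      _ = ((2 : ℝ) ^ n / (2 * Real.sqrt (n + 1)) * Real.exp (-M ^ 2 / (n + 1))) *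
          (Real.exp (-(4 * M / (n + 1))) * ((n : ℝ) + 1 + M)) := by ring
      _ ≤ ((2 : ℝ) ^ n / (2 * Real.sqrt (n + 1)) * Real.exp (-M ^ 2 / (n + 1))) *
          ((n : ℝ) + 1 - M) := by
          apply mul_le_mul_of_nonneg_left hz
          positivity
      _ ≤ (n.choose i : ℝ) * ((n : ℝ) + 1 - M) :=
          mul_le_mul_of_nonneg_right h1 (by linarith)

theorem choose_ge (n j : ℕ) (h : n ≤ 2 * j) (hj : j ≤ n) (h' : 2 * (2 * j + 1 - n) ≤ n + 5) :
    (2 : ℝ) ^ n / (2 * Real.sqrt (n + 1)) * Real.exp (-(2 * (j : ℝ) + 1 - n) ^ 2 / (n + 1)) ≤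
      (n.choose j : ℝ) :=
  ge_aux n (j - (n + 1) / 2) j (by omega) h' hj

theorem tail_le (n j : ℕ) (h : n ≤ 2 * j) :
    (2 * (j : ℝ) + 1 - n) * ∑ i ∈ Icc j n, (n.choose i : ℝ) ≤ (n + 1) * (n.choose j : ℝ) := by
  obtain ⟨d, hd⟩ : ∃ d, n + 1 ≤ j + d := ⟨n + 1, by omega⟩
  induction d generalizing j with
  | zero =>
    rw [Icc_eq_empty (by omega)]
    simp only [sum_empty, mul_zero]
    positivity
  | succ d ih =>
    rcases Nat.lt_or_ge n j with h1 | h1
    · rw [Icc_eq_empty (by omega)]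
      simp only [sum_empty, mul_zero]
      positivity
    · have h2 := ih (j + 1) (by omega) (by omega)
      have h3 : ∑ i ∈ Icc j n, (n.choose i : ℝ) =
          (n.choose j : ℝ) + ∑ i ∈ Icc (j + 1) n, (n.choose i : ℝ) := by
        rw [← Finset.add_sum_Ioc_eq_sum_Icc h1]
        have h31 : Ioc j n = Icc (j + 1) n := by
          ext i
          simp only [mem_Ioc, mem_Icc]
          omega
        rw [h31]
      rw [h3]
      set M : ℝ := 2 * (j : ℝ) + 1 - n with hM
      set S : ℝ := ∑ i ∈ Icc (j + 1) n, (n.choose i : ℝ) with hS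
      have hS0 : 0 ≤ S := sum_nonneg fun i _ => by positivity
      have hM0 : 0 ≤ M := by
        have : (n : ℝ) ≤ 2 * j := by exact_mod_cast h
        rw [hM]; linarith
      have h4 : M * S ≤ (n + 1) * (n.choose (j + 1) : ℝ) := by
        refine le_trans ?_ h2
        apply mul_le_mul_of_nonneg_right _ hS0
        push_cast
        rw [hM]; linarith
      have h5 : ((n : ℝ) + 1) * (n.choose (j + 1) : ℝ) ≤ ((n : ℝ) + 1 - M) * (n.choose j : ℝ) := by
        rcases Nat.lt_or_ge j n with h6 | h6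
        · have h7 := step n j h6
          rw [← hM] at h7
          have h8 : (0 : ℝ) ≤ (n.choose (j + 1) : ℝ) * M := by positivity
          nlinarith
        · have h9 : j = n := le_antisymm h1 h6
          subst h9
          rw [Nat.choose_succ_self]
          have : M = (j : ℝ) + 1 := by rw [hM]; ring
          rw [this]; simp
      nlinarith

theorem far {K t : ℝ} (hK : 1 ≤ K) (ht : (2 * K) ^ 2 ≤ t) (n j : ℕ) (h : n ≤ 2 * j) (hj : j ≤ n)
    (hs : (n.choose j : ℝ) * t * Real.sqrt (n + 1) ≤ K * 2 ^ n) :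
    Real.sqrt ((n + 1) * Real.log t) / 8 ≤ 2 * (j : ℝ) + 1 - n := by
  have hN : (0 : ℝ) < (n : ℝ) + 1 := by positivity
  have hsq : 0 < Real.sqrt ((n : ℝ) + 1) := Real.sqrt_pos.mpr hN
  have ht4 : 4 ≤ t := by nlinarith
  have ht0 : 0 < t := by linarith
  have hsqt : 2 * K ≤ Real.sqrt t := Real.le_sqrt_of_sq_le ht
  set M : ℝ := 2 * (j : ℝ) + 1 - n with hM
  have hM1 : 1 ≤ M := by
    have : (n : ℝ) ≤ 2 * j := by exact_mod_cast h
    rw [hM]; linarith
  have hlt : 0 ≤ Real.log t := Real.log_nonneg (by linarith)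
  have key : ((n : ℝ) + 1) * Real.log t ≤ 64 * M ^ 2 := by
    by_cases hc : 2 * (2 * j + 1 - n) ≤ n + 5
    · have h1 := choose_ge n j h hj hc
      rw [← hM] at h1
      have h2 : t * Real.exp (-M ^ 2 / (n + 1)) ≤ 2 * K := by
        have h3 : (2 : ℝ) ^ n / (2 * Real.sqrt (n + 1)) * Real.exp (-M ^ 2 / (n + 1)) * t *
            Real.sqrt (n + 1) ≤ K * 2 ^ n := by
          refine le_trans ?_ hs
          gcongr
        have h4 : (2 : ℝ) ^ n / (2 * Real.sqrt (n + 1)) * Real.exp (-M ^ 2 / (n + 1)) * t *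
            Real.sqrt (n + 1) = 2 ^ n * (t * Real.exp (-M ^ 2 / (n + 1)) / 2) := by
          field_simp
        rw [h4] at h3
        have h5 : (0 : ℝ) < 2 ^ n := by positivity
        nlinarith
      have h3 : Real.sqrt t * Real.exp (-M ^ 2 / (n + 1)) ≤ 1 := by
        have h4 : Real.sqrt t * Real.sqrt t = t := Real.mul_self_sqrt ht0.le
        have h5 : 0 < Real.sqrt t := Real.sqrt_pos.mpr ht0
        have h6 : Real.sqrt t * (Real.sqrt t * Real.exp (-M ^ 2 / (n + 1))) ≤ Real.sqrt t * 1 := by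
          rw [← mul_assoc, h4]; linarith
        exact le_of_mul_le_mul_left h6 h5
      have h7 : Real.log (Real.sqrt t) ≤ M ^ 2 / (n + 1) := by
        rw [Real.log_le_iff_le_exp (Real.sqrt_pos.mpr ht0)]
        have h8 : Real.exp (-M ^ 2 / (n + 1)) * Real.exp (M ^ 2 / (n + 1)) = 1 := by
          rw [← Real.exp_add]
          have : -M ^ 2 / ((n : ℝ) + 1) + M ^ 2 / (n + 1) = 0 := by ring
          rw [this, Real.exp_zero]
        have h9 : 0 < Real.exp (M ^ 2 / ((n : ℝ) + 1)) := Real.exp_pos _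
        calc Real.sqrt t = Real.sqrt t * (Real.exp (-M ^ 2 / (n + 1)) *
              Real.exp (M ^ 2 / (n + 1))) := by rw [h8, mul_one]
          _ = (Real.sqrt t * Real.exp (-M ^ 2 / (n + 1))) * Real.exp (M ^ 2 / (n + 1)) := by ring
          _ ≤ 1 * Real.exp (M ^ 2 / (n + 1)) := mul_le_mul_of_nonneg_right h3 h9.le
          _ = Real.exp (M ^ 2 / (n + 1)) := one_mul _
      rw [Real.log_sqrt ht0.le, le_div_iff₀ hN] at h7
      nlinarith [sq_nonneg M]
    · have h1 : (n : ℝ) + 1 ≤ 2 * M := by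
        have h2 : n + 5 < 2 * (2 * j + 1 - n) := not_le.mp hc
        have h3 : 3 * n + 5 < 2 * (2 * j + 1) := by omega
        have h4 : (3 : ℝ) * n + 5 < 2 * (2 * j + 1) := by exact_mod_cast h3
        rw [hM]; linarith
      have h2 : t ≤ K * 2 ^ n := by
        have h3 : (1 : ℝ) ≤ (n.choose j : ℝ) := by exact_mod_cast Nat.choose_pos hj
        have h4 : (1 : ℝ) ≤ Real.sqrt (n + 1) := by
          rw [Real.one_le_sqrt]
          have : (0 : ℝ) ≤ n := Nat.cast_nonneg n
          linarith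
        have h5 : t ≤ (n.choose j : ℝ) * t := by nlinarith
        have h6 : (n.choose j : ℝ) * t ≤ (n.choose j : ℝ) * t * Real.sqrt (n + 1) := by
          have : 0 ≤ (n.choose j : ℝ) * t := by positivity
          nlinarith
        linarith
      have h3 : Real.sqrt t ≤ 2 ^ n := by
        have h4 : Real.sqrt t * Real.sqrt t = t := Real.mul_self_sqrt ht0.le
        have h5 : 0 < Real.sqrt t := Real.sqrt_pos.mpr ht0
        have h7 : (0 : ℝ) < 2 ^ n := by positivity
        have h6 : Real.sqrt t * Real.sqrt t ≤ Real.sqrt t * 2 ^ n := by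
          rw [h4]
          nlinarith
        exact le_of_mul_le_mul_left h6 h5
      have h4 : Real.log (Real.sqrt t) ≤ n * Real.log 2 := by
        rw [← Real.log_pow]
        exact Real.log_le_log (Real.sqrt_pos.mpr ht0) h3
      rw [Real.log_sqrt ht0.le] at h4
      have h5 : Real.log 2 < 1 := by
        have := Real.log_two_lt_d9
        linarith
      have h6 : Real.log t ≤ 2 * ((n : ℝ) + 1) := by
        have : (0 : ℝ) ≤ n := Nat.cast_nonneg n
        nlinarith
      nlinarith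
  have h1 : Real.sqrt ((n + 1) * Real.log t) ≤ 8 * M := by
    rw [show 8 * M = Real.sqrt ((8 * M) ^ 2) from (Real.sqrt_sq (by linarith)).symm]
    apply Real.sqrt_le_sqrt
    nlinarith
  linarith

private theorem up {K t : ℝ} (hK : 1 ≤ K) (ht : (2 * K) ^ 2 ≤ t) (n : ℕ) (J : Finset ℕ)
    (hJ : ∀ j ∈ J, n ≤ 2 * j ∧ j ≤ n)
    (hs : ∀ j ∈ J, (n.choose j : ℝ) * t * Real.sqrt (n + 1) ≤ K * 2 ^ n) :
    ∑ j ∈ J, (n.choose j : ℝ) ≤ 8 * K * 2 ^ n / (t * Real.sqrt (Real.log t)) := by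
  have ht4 : 4 ≤ t := by nlinarith
  have ht0 : 0 < t := by linarith
  have hl : 0 < Real.log t := Real.log_pos (by linarith)
  have hsl : 0 < Real.sqrt (Real.log t) := Real.sqrt_pos.mpr hl
  have hN : (0 : ℝ) < (n : ℝ) + 1 := by positivity
  have hsq : 0 < Real.sqrt ((n : ℝ) + 1) := Real.sqrt_pos.mpr hN
  rcases J.eq_empty_or_nonempty with rfl | hne
  · simp only [sum_empty]
    positivity
  · set j := J.min' hne with hj
    have hjJ : j ∈ J := J.min'_mem hne
    obtain ⟨h1, h2⟩ := hJ j hjJ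
    have h3 := far hK ht n j h1 h2 (hs j hjJ)
    have h4 := tail_le n j h1
    have h5 : ∑ i ∈ J, (n.choose i : ℝ) ≤ ∑ i ∈ Icc j n, (n.choose i : ℝ) := by
      apply sum_le_sum_of_subset_of_nonneg
      · intro i hi
        rw [mem_Icc]
        exact ⟨J.min'_le i hi, (hJ i hi).2⟩
      · intro i _ _
        positivity
    set S := ∑ i ∈ Icc j n, (n.choose i : ℝ) with hS
    have hS0 : 0 ≤ S := sum_nonneg fun i _ => by positivity
    have h6 : Real.sqrt ((n + 1) * Real.log t) / 8 * S ≤ (n + 1) * (n.choose j : ℝ) :=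
      le_trans (mul_le_mul_of_nonneg_right h3 hS0) h4
    rw [Real.sqrt_mul hN.le] at h6
    have h7 : Real.sqrt ((n : ℝ) + 1) * Real.sqrt ((n : ℝ) + 1) = (n : ℝ) + 1 :=
      Real.mul_self_sqrt hN.le
    have h8 := hs j hjJ
    refine h5.trans ?_
    rw [le_div_iff₀ (by positivity)]
    have h9 : Real.sqrt ((n : ℝ) + 1) * (Real.sqrt (Real.log t) / 8 * S) ≤
        Real.sqrt ((n : ℝ) + 1) * (Real.sqrt ((n : ℝ) + 1) * (n.choose j : ℝ)) := by
      rw [← mul_assoc (Real.sqrt ((n : ℝ) + 1)) (Real.sqrt ((n : ℝ) + 1)), h7]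
      calc Real.sqrt ((n : ℝ) + 1) * (Real.sqrt (Real.log t) / 8 * S) =
          Real.sqrt ((n : ℝ) + 1) * Real.sqrt (Real.log t) / 8 * S := by ring
        _ ≤ _ := h6
    have h10 := le_of_mul_le_mul_left h9 hsq
    have h11 : Real.sqrt (Real.log t) / 8 * S * t ≤
        Real.sqrt ((n : ℝ) + 1) * (n.choose j : ℝ) * t :=
      mul_le_mul_of_nonneg_right h10 ht0.le
    nlinarith

theorem tail {K : ℝ} (hK : 1 ≤ K) (n : ℕ) (t : ℝ) (J : Finset ℕ) (h : (2 * K) ^ 2 ≤ t)
    (hJ : J ⊆ range (n + 1))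
    (hs : ∀ j ∈ J, (n.choose j : ℝ) * t * Real.sqrt (n + 1) ≤ K * 2 ^ n) :
    ∑ j ∈ J, (n.choose j : ℝ) ≤ 16 * K * 2 ^ n / (t * Real.sqrt (Real.log t)) := by
  have h1 : ∑ j ∈ J, (n.choose j : ℝ) = ∑ j ∈ J.filter (fun j => n ≤ 2 * j), (n.choose j : ℝ) +
      ∑ j ∈ J.filter (fun j => ¬ n ≤ 2 * j), (n.choose j : ℝ) :=
    (sum_filter_add_sum_filter_not J _ _).symm
  have h2 := up hK h n (J.filter (fun j => n ≤ 2 * j))
    (fun j hj => by
      rw [mem_filter] at hj
      have := hJ hj.1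
      rw [mem_range] at this
      exact ⟨hj.2, by omega⟩)
    (fun j hj => hs j (mem_filter.mp hj).1)
  have h3 : ∑ j ∈ J.filter (fun j => ¬ n ≤ 2 * j), (n.choose j : ℝ) =
      ∑ j ∈ (J.filter (fun j => ¬ n ≤ 2 * j)).image (fun j => n - j), (n.choose j : ℝ) := by
    rw [sum_image]
    · apply sum_congr rfl
      intro j hj
      have hj2 := hJ (mem_filter.mp hj).1
      rw [mem_range] at hj2
      rw [Nat.choose_symm (by omega)]
    · intro a ha b hb hab
      have ha2 := hJ (mem_filter.mp ha).1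
      have hb2 := hJ (mem_filter.mp hb).1
      rw [mem_range] at ha2 hb2
      simp only at hab
      omega
  have h4 := up hK h n ((J.filter (fun j => ¬ n ≤ 2 * j)).image (fun j => n - j))
    (fun j hj => by
      rw [mem_image] at hj
      obtain ⟨i, hi, rfl⟩ := hj
      rw [mem_filter] at hi
      have := hJ hi.1
      rw [mem_range] at this
      constructor <;> omega)
    (fun j hj => by
      rw [mem_image] at hj
      obtain ⟨i, hi, rfl⟩ := hj
      rw [mem_filter] at hi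
      have h5 := hJ hi.1
      rw [mem_range] at h5
      rw [Nat.choose_symm (by omega)]
      exact hs i hi.1)
  rw [← h3] at h4
  rw [h1]
  have : 16 * K * 2 ^ n / (t * Real.sqrt (Real.log t)) =
      8 * K * 2 ^ n / (t * Real.sqrt (Real.log t)) +
      8 * K * 2 ^ n / (t * Real.sqrt (Real.log t)) := by ring
  rw [this]
  exact add_le_add h2 h4

end Pool.Agent.H63TC
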