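import Pool.Agent.H63TC.Defs

set_option autoImplicit false

namespace Pool.Agent.H63TC.Pr

/-- The sign of a bit. -/
def sg (b : Bool) : ℝ := if b then 1 else -1

/-- The tilted weight (a product probability on the cube). -/
noncomputable def Q {n : ℕ} (u : Fin n → ℝ) (x : Fin n → Bool) : ℝ :=
  ∏ i, (1 + sg (x i) * u i) / 2

/-- The sum of the logarithms. -/
noncomputable def S {n : ℕ} (u : Fin n → ℝ) (x : Fin n → Bool) : ℝ :=
  ∑ i, Real.log (1 + sg (x i) * u i)

end Pool.Agent.H63TC.Pr
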