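import Pool.Agent.H63TC.PrDefs

set_option autoImplicit false

namespace Pool.Agent.H63TC.Pr

open Finset

/-- F1a: `= (1 - cos x) / x ^ 2`. -/
theorem ker_nonneg (x : ℝ) : 0 ≤ ∫ θ in (0 : ℝ)..1, (1 - θ) * Real.cos (θ * x) := by
  rcases eq_or_ne x 0 with rfl | hx
  · apply intervalIntegral.integral_nonneg zero_le_one
    intro θ hθ
    rw [mul_zero, Real.cos_zero, mul_one]
    linarith [hθ.2]
  · have h : ∀ θ ∈ Set.uIcc (0 : ℝ) 1, HasDerivAt
        (fun θ : ℝ => (1 - θ) * (Real.sin (θ * x) / x) - Real.cos (θ * x) / x ^ 2)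
        ((1 - θ) * Real.cos (θ * x)) θ := by
      intro θ _
      have h1 : HasDerivAt (fun θ : ℝ => θ * x) x θ := by
        simpa using (hasDerivAt_id θ).mul_const x
      have h2 := (h1.sin).div_const x
      have h3 := (h1.cos).div_const (x ^ 2)
      have h4 : HasDerivAt (fun θ : ℝ => 1 - θ) (-1) θ := by
        simpa using (hasDerivAt_id θ).const_sub 1
      have h5 := (h4.mul h2).sub h3
      have e : (1 - θ) * Real.cos (θ * x) = -1 * (Real.sin (θ * x) / x) +
          (1 - θ) * (Real.cos (θ * x) * x / x) - -Real.sin (θ * x) * x / x ^ 2 := by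
        field_simp
        ring
      rw [e]
      exact h5
    rw [intervalIntegral.integral_eq_sub_of_hasDerivAt h
      (Continuous.intervalIntegrable (by fun_prop) _ _)]
    have h6 : (1 - (1 : ℝ)) * (Real.sin (1 * x) / x) - Real.cos (1 * x) / x ^ 2 -
        ((1 - 0) * (Real.sin (0 * x) / x) - Real.cos (0 * x) / x ^ 2) =
        (1 - Real.cos x) / x ^ 2 := by
      simp
      ring
    rw [h6]
    apply div_nonneg _ (sq_nonneg x)
    linarith [Real.cos_le_one x]

/-- F1b: `cos 1 ≥ 1/2`. -/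
theorem ker_ge (x : ℝ) (hx : |x| ≤ 1) : 1 / 4 ≤ ∫ θ in (0 : ℝ)..1, (1 - θ) * Real.cos (θ * x) := by
  have h : ∫ θ in (0 : ℝ)..1, (1 - θ) * (1 / 2) = 1 / 4 := by
    rw [intervalIntegral.integral_mul_const, intervalIntegral.integral_sub
      intervalIntegrable_const intervalIntegral.intervalIntegrable_id]
    simp
    norm_num
  rw [← h]
  apply intervalIntegral.integral_mono_on zero_le_one
    (Continuous.intervalIntegrable (by fun_prop) _ _)
    (Continuous.intervalIntegrable (by fun_prop) _ _)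
  intro θ hθ
  apply mul_le_mul_of_nonneg_left _ (by linarith [hθ.2])
  have h1 := Real.one_sub_sq_div_two_le_cos (x := θ * x)
  have h2 : (θ * x) ^ 2 ≤ 1 := by
    rw [mul_pow]
    have h3 : θ ^ 2 ≤ 1 := by nlinarith [hθ.1, hθ.2]
    have h4 : x ^ 2 ≤ 1 := by
      rw [← sq_abs]
      nlinarith [abs_nonneg x]
    nlinarith [sq_nonneg θ, sq_nonneg x]
  linarith

/-- F3 -/
theorem gauss_le (c : ℝ) (hc : 0 < c) :
    ∫ θ in (0 : ℝ)..1, Real.exp (-(c * θ ^ 2)) ≤ 1 / Real.sqrt c := by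
  have h1 : ∫ θ in Set.Ioi (0 : ℝ), Real.exp (-c * θ ^ 2) = Real.sqrt (Real.pi / c) / 2 :=
    integral_gaussian_Ioi c
  have hi : MeasureTheory.Integrable (fun θ : ℝ => Real.exp (-c * θ ^ 2)) :=
    integrable_exp_neg_mul_sq hc
  have h2 : ∫ θ in (0 : ℝ)..1, Real.exp (-(c * θ ^ 2)) ≤
      ∫ θ in Set.Ioi (0 : ℝ), Real.exp (-c * θ ^ 2) := by
    rw [intervalIntegral.integral_of_le zero_le_one]
    have h3 : ∀ θ : ℝ, Real.exp (-(c * θ ^ 2)) = Real.exp (-c * θ ^ 2) := by
      intro θ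
      congr 1
      ring
    simp only [h3]
    apply MeasureTheory.setIntegral_mono_set hi.integrableOn
    · exact Filter.Eventually.of_forall fun θ => (Real.exp_pos _).le
    · exact (Set.Ioc_subset_Ioi_self).eventuallyLE
  rw [h1] at h2
  refine h2.trans ?_
  rw [Real.sqrt_div Real.pi_pos.le, div_div, div_le_div_iff₀ (by positivity) (by positivity)]
  have h4 : Real.sqrt Real.pi ≤ 2 := by
    rw [Real.sqrt_le_left (by norm_num)]
    linarith [Real.pi_le_four]
  have h5 : 0 < Real.sqrt c := Real.sqrt_pos.2 hc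
  nlinarith

end Pool.Agent.H63TC.Pr
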