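import Pool.Agent.H63TC.WiP

set_option autoImplicit false

open Finset

namespace Pool.Agent.H63TC.Wi

open scoped Classical in
/-- The pointwise drift inequality. -/
theorem drift {ρ : ℝ} (h0 : 0 < ρ) (h1 : ρ < 1) {n : ℕ} (f : (Fin n → Bool) → ℝ)
    (hf : ∀ x, 0 ≤ f x) (hm : ∑ x, f x = 2 ^ n) (y x : Fin n → Bool) (w s e δ L C1 c2 : ℝ)
    (hδ : δ = Real.log (1 + ρ)) (hL : L = Real.log ((1 + ρ) / (1 - ρ)))
    (hC1 : C1 = L * Real.exp (L + δ) / δ) (he : (1 + C1) * e ≤ (1 + ρ) / 8) (he0 : 0 < e)
    (hc2 : c2 = (1 + ρ) / 8 * (δ * Real.exp (-δ))) (hs : 0 ≤ s) :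
    ∑ i ∈ univ.filter (fun i => x i = y i),
      (g w (Real.log (noise ρ f (flip x i))) - g w (Real.log (noise ρ f x))) ≤
      -(c2 * n * (if w ≤ Real.log (noise ρ f x) ∧ Real.log (noise ρ f x) < w + δ then 1 else 0)) +
      (c2 + 2) * n * ((if (n : ℝ) * (3 - ρ) / 4 < (hammingDist x y : ℝ) then 1 else 0) +
        (if e * n < ((exc ρ f x y).card : ℝ) ∧ w - s - L < Real.log (noise ρ f x) then 1 else 0)) +
      n * Real.exp (-s) := by
  have hρ : 0 < 1 - ρ := by linarith
  have hρ' : 0 < 1 + ρ := by linarith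
  have hδ0 : 0 < δ := by rw [hδ]; exact Real.log_pos (by linarith)
  have hL0 : 0 < L := by
    rw [hL]; apply Real.log_pos; rw [lt_div_iff₀ hρ]; linarith
  have hc20 : 0 < c2 := by rw [hc2]; positivity
  have hC10 : 0 < C1 := by rw [hC1]; positivity
  obtain ⟨g0, g2, gm⟩ := g_all w
  set T := noise ρ f x with hT
  have hTpos : 0 < T := noise_pos h0 h1 f hf hm x
  have hTi : ∀ i, 0 < noise ρ f (flip x i) := fun i => noise_pos h0 h1 f hf hm _
  set W := Real.log T with hW
  have hup : ∀ i, Real.log (noise ρ f (flip x i)) ≤ W + L := by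
    intro i
    rw [hW, hL, ← Real.log_mul hTpos.ne' (by positivity)]
    apply Real.log_le_log (hTi i)
    rw [mul_comm]
    exact ratio_le h0 h1 f hf x i
  set A := univ.filter (fun i => x i = y i) with hA
  have hexc : exc ρ f x y = A.filter (fun i => T < (1 + ρ) * noise ρ f (flip x i)) := by
    unfold exc
    ext i
    simp [hA, hT]
  have hAn : (A.card : ℝ) + (hammingDist x y : ℝ) = n := by
    have : A.card + hammingDist x y = n := by
      have h := Finset.card_filter_add_card_filter_not (s := (univ : Finset (Fin n)))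
        (fun i => x i = y i)
      rw [Finset.card_univ, Fintype.card_fin] at h
      exact h
    exact_mod_cast this
  have hNn : (A.card : ℝ) ≤ n := by
    have : (0 : ℝ) ≤ (hammingDist x y : ℝ) := by positivity
    linarith
  have hn0 : (0 : ℝ) ≤ n := by positivity
  -- trivial bound
  have htriv : ∑ i ∈ A, (g w (Real.log (noise ρ f (flip x i))) - g w W) ≤ 2 * n := by
    calc _ ≤ ∑ i ∈ A, (2 : ℝ) := Finset.sum_le_sum fun i _ => by
            linarith [g2 (Real.log (noise ρ f (flip x i))), g0 W]
      _ = A.card * 2 := by rw [Finset.sum_const, nsmul_eq_mul]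
      _ ≤ 2 * n := by linarith
  by_cases hgood : (hammingDist x y : ℝ) ≤ (n : ℝ) * (3 - ρ) / 4 ∧
      ((exc ρ f x y).card : ℝ) ≤ e * n
  · obtain ⟨hN, hex⟩ := hgood
    set D := g w W - g w (W - δ) with hD
    have hD0 : 0 ≤ D := by
      have := gm (show W - δ ≤ W by linarith)
      linarith
    have hsplit : ∑ i ∈ A, (g w (Real.log (noise ρ f (flip x i))) - g w W) ≤
        C1 * D * ((exc ρ f x y).card : ℝ) - D * ((A.card : ℝ) - ((exc ρ f x y).card : ℝ)) := by
      rw [← Finset.sum_filter_add_sum_filter_not A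
        (fun i => T < (1 + ρ) * noise ρ f (flip x i)), ← hexc]
      have hcard : ((A.filter (fun i => ¬ (T < (1 + ρ) * noise ρ f (flip x i)))).card : ℝ) =
          (A.card : ℝ) - ((exc ρ f x y).card : ℝ) := by
        have h := Finset.card_filter_add_card_filter_not (s := A)
          (fun i => T < (1 + ρ) * noise ρ f (flip x i))
        rw [← hexc] at h
        have : ((exc ρ f x y).card : ℝ) +
          ((A.filter (fun i => ¬ (T < (1 + ρ) * noise ρ f (flip x i)))).card : ℝ) = A.card := by
          exact_mod_cast h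
        linarith
      have hA1 : ∑ i ∈ exc ρ f x y, (g w (Real.log (noise ρ f (flip x i))) - g w W) ≤
          C1 * D * ((exc ρ f x y).card : ℝ) := by
        calc _ ≤ ∑ i ∈ exc ρ f x y, C1 * D := Finset.sum_le_sum fun i _ => by
              have h := gm (hup i)
              have h' := g_step w W δ L hδ0 hL0
              rw [← hC1] at h'
              linarith
          _ = _ := by rw [Finset.sum_const, nsmul_eq_mul]; ring
      have hA2 : ∑ i ∈ A.filter (fun i => ¬ (T < (1 + ρ) * noise ρ f (flip x i))),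
          (g w (Real.log (noise ρ f (flip x i))) - g w W) ≤
          -(D * ((A.card : ℝ) - ((exc ρ f x y).card : ℝ))) := by
        rw [← hcard]
        calc _ ≤ ∑ i ∈ A.filter (fun i => ¬ (T < (1 + ρ) * noise ρ f (flip x i))), (-D) :=
              Finset.sum_le_sum fun i hi => by
              have hi' := (Finset.mem_filter.1 hi).2
              push Not at hi'
              have hlog : Real.log (noise ρ f (flip x i)) ≤ W - δ := by
                have := Real.log_le_log (by have := hTi i; positivity) hi'
                rw [Real.log_mul hρ'.ne' (hTi i).ne'] at this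
                rw [hδ]; linarith
              have h := gm hlog
              linarith
          _ = _ := by rw [Finset.sum_const, nsmul_eq_mul]; ring
      linarith
    have hE : (1 + C1) * ((exc ρ f x y).card : ℝ) ≤ (1 + ρ) / 8 * n := by
      calc (1 + C1) * ((exc ρ f x y).card : ℝ) ≤ (1 + C1) * (e * n) :=
            mul_le_mul_of_nonneg_left hex (by linarith)
        _ = (1 + C1) * e * n := by ring
        _ ≤ _ := mul_le_mul_of_nonneg_right he hn0
    have hAc : (1 + ρ) / 4 * n ≤ (A.card : ℝ) := by nlinarith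
    have hmain : ∑ i ∈ A, (g w (Real.log (noise ρ f (flip x i))) - g w W) ≤
        -(D * ((1 + ρ) / 8 * n)) := by
      refine le_trans hsplit ?_
      have : D * ((1 + ρ) / 8 * n) ≤ D * ((A.card : ℝ) - (1 + C1) * ((exc ρ f x y).card : ℝ)) :=
        mul_le_mul_of_nonneg_left (by linarith) hD0
      linarith
    have hwin : c2 * n * (if w ≤ W ∧ W < w + δ then 1 else 0) ≤ D * ((1 + ρ) / 8 * n) := by
      split_ifs with hw
      · have h := g_win w W δ hδ0 hw.1 hw.2
        rw [hc2]
        have : (1 + ρ) / 8 * n * (δ * Real.exp (-δ)) ≤ (1 + ρ) / 8 * n * D :=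
          mul_le_mul_of_nonneg_left h (by positivity)
        linarith
      · have : 0 ≤ D * ((1 + ρ) / 8 * n) := by positivity
        linarith
    have hrest : 0 ≤ (c2 + 2) * n * ((if (n : ℝ) * (3 - ρ) / 4 < (hammingDist x y : ℝ) then
        (1 : ℝ) else 0) + (if e * n < ((exc ρ f x y).card : ℝ) ∧ w - s - L < W then 1 else 0)) := by
      have a1 : (0 : ℝ) ≤ (if (n : ℝ) * (3 - ρ) / 4 < (hammingDist x y : ℝ) then
        (1 : ℝ) else 0) := by split_ifs <;> norm_num
      have a2 : (0 : ℝ) ≤ (if e * n < ((exc ρ f x y).card : ℝ) ∧ w - s - L < W then (1 : ℝ)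
        else 0) := by split_ifs <;> norm_num
      positivity
    have hexp : 0 ≤ n * Real.exp (-s) := by positivity
    linarith
  · by_cases hlow : W + L ≤ w - s
    · have hfar : ∑ i ∈ A, (g w (Real.log (noise ρ f (flip x i))) - g w W) ≤
          n * Real.exp (-s) := by
        calc _ ≤ ∑ i ∈ A, Real.exp (-s) := Finset.sum_le_sum fun i _ => by
              have h := g_far w _ s (le_trans (hup i) hlow) hs
              linarith [g0 W]
          _ = A.card * Real.exp (-s) := by rw [Finset.sum_const, nsmul_eq_mul]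
          _ ≤ _ := mul_le_mul_of_nonneg_right hNn (Real.exp_pos _).le
      have hnw : ¬ (w ≤ W ∧ W < w + δ) := by
        rintro ⟨h, -⟩
        linarith
      have a1 : (0 : ℝ) ≤ (if (n : ℝ) * (3 - ρ) / 4 < (hammingDist x y : ℝ) then
        (1 : ℝ) else 0) := by split_ifs <;> norm_num
      have a2 : (0 : ℝ) ≤ (if e * n < ((exc ρ f x y).card : ℝ) ∧ w - s - L < W then (1 : ℝ)
        else 0) := by split_ifs <;> norm_num
      have hrest : 0 ≤ (c2 + 2) * n * ((if (n : ℝ) * (3 - ρ) / 4 < (hammingDist x y : ℝ) then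
        (1 : ℝ) else 0) + (if e * n < ((exc ρ f x y).card : ℝ) ∧ w - s - L < W then 1 else 0)) := by
        positivity
      rw [if_neg hnw]
      linarith
    · have hone : 1 ≤ (if (n : ℝ) * (3 - ρ) / 4 < (hammingDist x y : ℝ) then
        (1 : ℝ) else 0) + (if e * n < ((exc ρ f x y).card : ℝ) ∧ w - s - L < W then 1 else 0) := by
        by_cases hN : (n : ℝ) * (3 - ρ) / 4 < (hammingDist x y : ℝ)
        · rw [if_pos hN]
          have a2 : (0 : ℝ) ≤ (if e * n < ((exc ρ f x y).card : ℝ) ∧ w - s - L < W then (1 : ℝ)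
            else 0) := by split_ifs <;> norm_num
          linarith
        · rw [if_neg hN]
          have hex : e * n < ((exc ρ f x y).card : ℝ) := by
            by_contra hc
            exact hgood ⟨not_lt.1 hN, not_lt.1 hc⟩
          rw [if_pos ⟨hex, by push Not at hlow; linarith⟩]
          norm_num
      have hbig : (c2 + 2) * n ≤ (c2 + 2) * n * ((if (n : ℝ) * (3 - ρ) / 4 <
          (hammingDist x y : ℝ) then (1 : ℝ) else 0) +
          (if e * n < ((exc ρ f x y).card : ℝ) ∧ w - s - L < W then 1 else 0)) :=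
        le_mul_of_one_le_right (by positivity) hone
      have hwin : c2 * n * (if w ≤ W ∧ W < w + δ then (1 : ℝ) else 0) ≤ c2 * n := by
        split_ifs
        · simp
        · simp; positivity
      have hexp : 0 ≤ n * Real.exp (-s) := by positivity
      linarith

end Pool.Agent.H63TC.Wi
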