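import Pool.Agent.H63TC.WiA

set_option autoImplicit false

open Finset

namespace Pool.Agent.H63TC.Wi

theorem wt_sum (ρ : ℝ) {n : ℕ} (y : Fin n → Bool) : ∑ x : Fin n → Bool, wt ρ x y = 1 := by
  unfold wt
  have e2 := (Finset.prod_univ_sum (fun _ : Fin n => (Finset.univ : Finset Bool))
    (fun i b => if b = y i then (1 + ρ) / 2 else (1 - ρ) / 2)).symm
  rw [Fintype.piFinset_univ] at e2
  refine e2.trans ?_
  refine Finset.prod_eq_one fun i _ => ?_
  rw [Fintype.sum_bool]
  cases y i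
  · simp only [Bool.true_eq_false, if_false, if_true]
    ring
  · simp only [Bool.false_eq_true, if_false, if_true]
    ring

theorem wt_nonneg {ρ : ℝ} (h0 : 0 < ρ) (h1 : ρ < 1) {n : ℕ} (x y : Fin n → Bool) :
    0 ≤ wt ρ x y := by
  unfold wt
  refine Finset.prod_nonneg fun i _ => ?_
  split_ifs <;> linarith

open scoped Classical in
/-- The mass of a window. -/
theorem window {ρ : ℝ} (h0 : 0 < ρ) (h1 : ρ < 1) {n : ℕ} (hn : 0 < n) (f : (Fin n → Bool) → ℝ)
    (hf : ∀ x, 0 ≤ f x) (hm : ∑ x, f x = 2 ^ n) (w s e δ L C1 c2 η : ℝ)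
    (hδ : δ = Real.log (1 + ρ)) (hL : L = Real.log ((1 + ρ) / (1 - ρ)))
    (hC1 : C1 = L * Real.exp (L + δ) / δ) (he : (1 + C1) * e ≤ (1 + ρ) / 8) (he0 : 0 < e)
    (hc2 : c2 = (1 + ρ) / 8 * (δ * Real.exp (-δ))) (hs : 0 ≤ s) (hη : 0 < η)
    (hw : n * (kap ρ - η) ≤ w) (hsη : s + L ≤ η * n) :
    c2 * n * ∑ x ∈ univ.filter (fun x : Fin n → Bool => w ≤ Real.log (noise ρ f x) ∧
        Real.log (noise ρ f x) < w + δ), noise ρ f x ≤
      2 ^ n * (2 * Real.sqrt (n * ((1 + ρ) / (1 - ρ))) +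
        (c2 + 2) * n * (4 * (1 - ρ) / ((1 + ρ) * n) + 1 / (e * (1 - ρ) / 8) *
          (Real.exp (3 * η * n) * (1 - ρ ^ 2) ^ (e * (1 - ρ) / 8 * n / 2) +
            2 * Real.exp (-(2 * η ^ 2 * n / (Real.log ((1 + ρ) / (1 - ρ))) ^ 2)))) +
        n * Real.exp (-s)) := by
  have hρ : 0 < 1 - ρ := by linarith
  have hρ' : 0 < 1 + ρ := by linarith
  have hδ0 : 0 < δ := by rw [hδ]; exact Real.log_pos (by linarith)
  have hc20 : 0 < c2 := by rw [hc2]; positivity
  have hn0 : (0 : ℝ) < n := by exact_mod_cast hn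
  set ε : ℝ := e * (1 - ρ) / 8 with hε
  have hε0 : 0 < ε := by positivity
  obtain ⟨g0, g2, gm⟩ := g_all w
  have hT : ∀ x, 0 < noise ρ f x := fun x => noise_pos h0 h1 f hf hm x
  -- for every y
  have hy : ∀ y, c2 * n * ∑ x, wt ρ x y * (if w ≤ Real.log (noise ρ f x) ∧
      Real.log (noise ρ f x) < w + δ then 1 else 0) ≤
      2 * Real.sqrt (n * ((1 + ρ) / (1 - ρ))) + (c2 + 2) * n * (4 * (1 - ρ) / ((1 + ρ) * n) +
        1 / ε * ∑ x ∈ univ.filter (fun x : Fin n → Bool =>
          Real.exp (n * (kap ρ - 2 * η)) ≤ noise ρ f x),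
            wt ρ x y * (off ρ f (ε * n) x y / noise ρ f x)) + n * Real.exp (-s) := by
    intro y
    have h1' := star h0 h1 y (fun x => g w (Real.log (noise ρ f x))) (fun x => g0 _)
      (fun x => g2 _)
    have h2' : ∑ x, wt ρ x y * ∑ i ∈ univ.filter (fun i => x i = y i),
        (g w (Real.log (noise ρ f (flip x i))) - g w (Real.log (noise ρ f x))) ≤
        ∑ x, wt ρ x y * (-(c2 * n * (if w ≤ Real.log (noise ρ f x) ∧
          Real.log (noise ρ f x) < w + δ then 1 else 0)) +
        (c2 + 2) * n * ((if (n : ℝ) * (3 - ρ) / 4 < (hammingDist x y : ℝ) then 1 else 0) +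
          (if e * n < ((exc ρ f x y).card : ℝ) ∧ w - s - L < Real.log (noise ρ f x) then 1
            else 0)) + n * Real.exp (-s)) :=
      Finset.sum_le_sum fun x _ => mul_le_mul_of_nonneg_left
        (drift h0 h1 f hf hm y x w s e δ L C1 c2 hδ hL hC1 he he0 hc2 hs) (wt_nonneg h0 h1 x y)
    have h3' : ∑ x, wt ρ x y * (-(c2 * n * (if w ≤ Real.log (noise ρ f x) ∧
          Real.log (noise ρ f x) < w + δ then 1 else 0)) +
        (c2 + 2) * n * ((if (n : ℝ) * (3 - ρ) / 4 < (hammingDist x y : ℝ) then 1 else 0) +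
          (if e * n < ((exc ρ f x y).card : ℝ) ∧ w - s - L < Real.log (noise ρ f x) then 1
            else 0)) + n * Real.exp (-s)) =
        -(c2 * n * ∑ x, wt ρ x y * (if w ≤ Real.log (noise ρ f x) ∧
          Real.log (noise ρ f x) < w + δ then 1 else 0)) +
        (c2 + 2) * n * (∑ x, wt ρ x y * (if (n : ℝ) * (3 - ρ) / 4 < (hammingDist x y : ℝ) then 1
          else 0) + ∑ x, wt ρ x y * (if e * n < ((exc ρ f x y).card : ℝ) ∧
            w - s - L < Real.log (noise ρ f x) then 1 else 0)) + n * Real.exp (-s) := by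
      have e0 : ∀ x, wt ρ x y * (-(c2 * n * (if w ≤ Real.log (noise ρ f x) ∧
          Real.log (noise ρ f x) < w + δ then 1 else 0)) +
        (c2 + 2) * n * ((if (n : ℝ) * (3 - ρ) / 4 < (hammingDist x y : ℝ) then 1 else 0) +
          (if e * n < ((exc ρ f x y).card : ℝ) ∧ w - s - L < Real.log (noise ρ f x) then 1
            else 0)) + n * Real.exp (-s)) =
          -(c2 * n * (wt ρ x y * (if w ≤ Real.log (noise ρ f x) ∧
          Real.log (noise ρ f x) < w + δ then 1 else 0))) +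
          (c2 + 2) * n * (wt ρ x y * (if (n : ℝ) * (3 - ρ) / 4 < (hammingDist x y : ℝ) then 1
            else 0) + wt ρ x y * (if e * n < ((exc ρ f x y).card : ℝ) ∧
              w - s - L < Real.log (noise ρ f x) then 1 else 0)) +
          wt ρ x y * (n * Real.exp (-s)) := by
        intro x
        ring
      rw [Finset.sum_congr rfl fun x _ => e0 x, Finset.sum_add_distrib, Finset.sum_add_distrib,
        Finset.sum_neg_distrib, ← Finset.mul_sum, ← Finset.mul_sum, Finset.sum_add_distrib,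
        ← Finset.sum_mul, wt_sum, one_mul]
    have h4' : ∑ x, wt ρ x y * (if (n : ℝ) * (3 - ρ) / 4 < (hammingDist x y : ℝ) then 1
          else 0) ≤ 4 * (1 - ρ) / ((1 + ρ) * n) := by
      refine le_trans (le_of_eq ?_) (cheb h0 h1 hn y)
      rw [Finset.sum_filter]
      refine Finset.sum_congr rfl fun x _ => ?_
      split_ifs <;> simp
    have h5' : ∑ x, wt ρ x y * (if e * n < ((exc ρ f x y).card : ℝ) ∧
            w - s - L < Real.log (noise ρ f x) then 1 else 0) ≤
        1 / ε * ∑ x ∈ univ.filter (fun x : Fin n → Bool =>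
          Real.exp (n * (kap ρ - 2 * η)) ≤ noise ρ f x),
            wt ρ x y * (off ρ f (ε * n) x y / noise ρ f x) := by
      rw [Finset.mul_sum, Finset.sum_filter]
      refine Finset.sum_le_sum fun x _ => ?_
      have hoff : 0 ≤ off ρ f (ε * n) x y := by
        unfold off
        exact Finset.sum_nonneg fun z _ => mul_nonneg (wt_nonneg h0 h1 x z) (hf z)
      by_cases hb : e * n < ((exc ρ f x y).card : ℝ) ∧ w - s - L < Real.log (noise ρ f x)
      · have hx : Real.exp (n * (kap ρ - 2 * η)) ≤ noise ρ f x := by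
          rw [← Real.exp_log (hT x)]
          apply Real.exp_le_exp.2
          have : (n : ℝ) * (kap ρ - 2 * η) = n * (kap ρ - η) - η * n := by ring
          linarith [hb.2]
        rw [if_pos hb, if_pos hx, mul_one]
        have h := off_ge h0 h1 hn f hf x y e he0 hb.1
        have hq : 1 ≤ 1 / ε * (off ρ f (ε * n) x y / noise ρ f x) := by
          rw [one_div, ← div_eq_inv_mul, le_div_iff₀ hε0, one_mul, le_div_iff₀ (hT x)]
          exact h
        calc wt ρ x y = wt ρ x y * 1 := (mul_one _).symm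
          _ ≤ wt ρ x y * (1 / ε * (off ρ f (ε * n) x y / noise ρ f x)) :=
            mul_le_mul_of_nonneg_left hq (wt_nonneg h0 h1 x y)
          _ = _ := by ring
      · rw [if_neg hb, mul_zero]
        split_ifs
        · have := wt_nonneg h0 h1 x y
          have := (hT x).le
          positivity
        · exact le_rfl
    have h6' : (c2 + 2) * n * (∑ x, wt ρ x y * (if (n : ℝ) * (3 - ρ) / 4 < (hammingDist x y : ℝ)
        then 1 else 0) + ∑ x, wt ρ x y * (if e * n < ((exc ρ f x y).card : ℝ) ∧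
            w - s - L < Real.log (noise ρ f x) then 1 else 0)) ≤
        (c2 + 2) * n * (4 * (1 - ρ) / ((1 + ρ) * n) +
        1 / ε * ∑ x ∈ univ.filter (fun x : Fin n → Bool =>
          Real.exp (n * (kap ρ - 2 * η)) ≤ noise ρ f x),
            wt ρ x y * (off ρ f (ε * n) x y / noise ρ f x)) :=
      mul_le_mul_of_nonneg_left (add_le_add h4' h5') (by positivity)
    rw [h3'] at h2'
    have h7 := le_trans h1' h2'
    linarith
  -- average over y
  have hav := Finset.sum_le_sum fun y (_ : y ∈ (univ : Finset (Fin n → Bool))) =>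
    mul_le_mul_of_nonneg_left (hy y) (hf y)
  have hl : ∑ y, f y * (c2 * n * ∑ x, wt ρ x y * (if w ≤ Real.log (noise ρ f x) ∧
      Real.log (noise ρ f x) < w + δ then 1 else 0)) =
      c2 * n * ∑ x ∈ univ.filter (fun x : Fin n → Bool => w ≤ Real.log (noise ρ f x) ∧
        Real.log (noise ρ f x) < w + δ), noise ρ f x := by
    rw [Finset.sum_filter, Finset.mul_sum]
    have : ∀ y, f y * (c2 * n * ∑ x, wt ρ x y * (if w ≤ Real.log (noise ρ f x) ∧
      Real.log (noise ρ f x) < w + δ then 1 else 0)) = ∑ x, c2 * n * (wt ρ x y * f y *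
        (if w ≤ Real.log (noise ρ f x) ∧ Real.log (noise ρ f x) < w + δ then 1 else 0)) := by
      intro y
      rw [Finset.mul_sum, Finset.mul_sum]
      refine Finset.sum_congr rfl fun x _ => ?_
      ring
    rw [Finset.sum_congr rfl fun y _ => this y, Finset.sum_comm]
    refine Finset.sum_congr rfl fun x _ => ?_
    rw [← Finset.mul_sum, ← Finset.sum_mul]
    have hnz : ∑ y, wt ρ x y * f y = noise ρ f x := rfl
    rw [hnz]
    split_ifs <;> simp
  have hr : ∑ y, f y * (2 * Real.sqrt (n * ((1 + ρ) / (1 - ρ))) + (c2 + 2) * n *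
        (4 * (1 - ρ) / ((1 + ρ) * n) +
        1 / ε * ∑ x ∈ univ.filter (fun x : Fin n → Bool =>
          Real.exp (n * (kap ρ - 2 * η)) ≤ noise ρ f x),
            wt ρ x y * (off ρ f (ε * n) x y / noise ρ f x)) + n * Real.exp (-s)) =
      2 ^ n * (2 * Real.sqrt (n * ((1 + ρ) / (1 - ρ))) + (c2 + 2) * n *
        (4 * (1 - ρ) / ((1 + ρ) * n)) + n * Real.exp (-s)) + (c2 + 2) * n * (1 / ε) *
        ∑ y, f y * ∑ x ∈ univ.filter (fun x : Fin n → Bool =>
          Real.exp (n * (kap ρ - 2 * η)) ≤ noise ρ f x),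
            wt ρ x y * (off ρ f (ε * n) x y / noise ρ f x) := by
    rw [← hm, Finset.sum_mul, Finset.mul_sum, ← Finset.sum_add_distrib]
    refine Finset.sum_congr rfl fun y _ => ?_
    ring
  rw [hl, hr] at hav
  refine le_trans hav ?_
  have hp := pair h0 h1 f hf hm η ε hη hε0
  have hp' : (c2 + 2) * n * (1 / ε) *
        ∑ y, f y * ∑ x ∈ univ.filter (fun x : Fin n → Bool =>
          Real.exp (n * (kap ρ - 2 * η)) ≤ noise ρ f x),
            wt ρ x y * (off ρ f (ε * n) x y / noise ρ f x) ≤ (c2 + 2) * n * (1 / ε) *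
        (2 ^ n * (Real.exp (3 * η * n) * (1 - ρ ^ 2) ^ (ε * n / 2) +
        2 * Real.exp (-(2 * η ^ 2 * n / (Real.log ((1 + ρ) / (1 - ρ))) ^ 2)))) :=
    mul_le_mul_of_nonneg_left hp (by positivity)
  refine le_trans (add_le_add le_rfl hp') (le_of_eq ?_)
  ring

end Pool.Agent.H63TC.Wi
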