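import Pool.Agent.H63TC.WiB

set_option autoImplicit false

open Finset

namespace Pool.Agent.H63TC.Wi

theorem mul_exp_le {γ x : ℝ} (hγ : 0 < γ) : x * Real.exp (-(γ * x)) ≤ 1 / γ := by
  rw [Real.exp_neg, ← div_eq_mul_inv, div_le_div_iff₀ (Real.exp_pos _) hγ, one_mul]
  have := Real.add_one_le_exp (γ * x)
  linarith [mul_comm x γ]

open scoped Classical in
/-- Every window above the level `exp (n (κ - η))` has mass `O(1 / √n)`. -/
theorem window_mass {ρ : ℝ} (h0 : 0 < ρ) (h1 : ρ < 1) : ∃ η : ℝ, 0 < η ∧ ∃ K : ℝ, 0 < K ∧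
    ∀ (n : ℕ), 0 < n → ∀ f : (Fin n → Bool) → ℝ, (∀ x, 0 ≤ f x) → ∑ x, f x = 2 ^ n →
    ∀ w : ℝ, n * (kap ρ - η) ≤ w →
      ∑ x ∈ univ.filter (fun x : Fin n → Bool => w ≤ Real.log (noise ρ f x) ∧
        Real.log (noise ρ f x) < w + Real.log (1 + ρ)), noise ρ f x ≤
        2 ^ n * (K / Real.sqrt n) := by
  have hρ : 0 < 1 - ρ := by linarith
  have hρ' : 0 < 1 + ρ := by linarith
  obtain ⟨δ, hδ⟩ : ∃ δ, δ = Real.log (1 + ρ) := ⟨_, rfl⟩
  obtain ⟨L, hL⟩ : ∃ L, L = Real.log ((1 + ρ) / (1 - ρ)) := ⟨_, rfl⟩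
  obtain ⟨C1, hC1⟩ : ∃ C1, C1 = L * Real.exp (L + δ) / δ := ⟨_, rfl⟩
  obtain ⟨c2, hc2⟩ : ∃ c2, c2 = (1 + ρ) / 8 * (δ * Real.exp (-δ)) := ⟨_, rfl⟩
  have hδ0 : 0 < δ := by rw [hδ]; exact Real.log_pos (by linarith)
  have hL0 : 0 < L := by
    rw [hL]; apply Real.log_pos; rw [lt_div_iff₀ hρ]; linarith
  have hC10 : 0 < C1 := by rw [hC1]; positivity
  have hc20 : 0 < c2 := by rw [hc2]; positivity
  obtain ⟨e, he⟩ : ∃ e, e = (1 + ρ) / (8 * (1 + C1)) := ⟨_, rfl⟩
  have he0 : 0 < e := by rw [he]; positivity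
  have he1 : (1 + C1) * e ≤ (1 + ρ) / 8 := by
    rw [he]
    apply le_of_eq
    field_simp
  obtain ⟨Λ, hΛ⟩ : ∃ Λ, Λ = -Real.log (1 - ρ ^ 2) := ⟨_, rfl⟩
  have h12 : 0 < 1 - ρ ^ 2 := by nlinarith
  have hΛ0 : 0 < Λ := by
    rw [hΛ]
    have : Real.log (1 - ρ ^ 2) < 0 := Real.log_neg h12 (by nlinarith)
    linarith
  obtain ⟨η, hη⟩ : ∃ η, η = e * (1 - ρ) / 8 * Λ / 12 := ⟨_, rfl⟩
  have hη0 : 0 < η := by rw [hη]; positivity
  obtain ⟨K0, hK0⟩ : ∃ K0, K0 = (c2 + 2) * (4 * (1 - ρ) / (1 + ρ) + 1 / (e * (1 - ρ) / 8) *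
    (1 / (3 * η) + 2 * (1 / (2 * η ^ 2 / L ^ 2)))) + Real.exp L * (1 / η) := ⟨_, rfl⟩
  have hK00 : 0 < K0 := by rw [hK0]; positivity
  refine ⟨η, hη0, (2 * Real.sqrt ((1 + ρ) / (1 - ρ)) + K0) / c2 + Real.sqrt (L / η),
    by positivity, ?_⟩
  intro n hn f hf hm w hw
  have hn0 : (0 : ℝ) < n := by exact_mod_cast hn
  have hn1 : (1 : ℝ) ≤ n := by exact_mod_cast hn
  have hsq : 0 < Real.sqrt n := Real.sqrt_pos.mpr hn0
  have hsq1 : 1 ≤ Real.sqrt n := by
    rw [← Real.sqrt_one]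
    exact Real.sqrt_le_sqrt hn1
  have h2 : (0 : ℝ) < 2 ^ n := by positivity
  have hT : ∀ x, 0 < noise ρ f x := fun x => noise_pos h0 h1 f hf hm x
  by_cases hbig : L ≤ η * n
  · have hwin := window h0 h1 hn f hf hm w (η * n - L) e δ L C1 c2 η hδ hL hC1 he1 he0 hc2
      (by linarith) hη0 hw (by linarith)
    rw [← hδ]
    set SW := ∑ x ∈ univ.filter (fun x : Fin n → Bool => w ≤ Real.log (noise ρ f x) ∧
        Real.log (noise ρ f x) < w + δ), noise ρ f x with hSW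
    have e1 : Real.exp (3 * η * n) * (1 - ρ ^ 2) ^ (e * (1 - ρ) / 8 * n / 2) =
        Real.exp (-(3 * η * n)) := by
      rw [Real.rpow_def_of_pos h12, ← Real.exp_add]
      congr 1
      have : Real.log (1 - ρ ^ 2) = -Λ := by rw [hΛ]; ring
      rw [this, hη]
      ring
    have t1 : n * Real.exp (-(3 * η * n)) ≤ 1 / (3 * η) := mul_exp_le (by positivity)
    have t2 : n * Real.exp (-(2 * η ^ 2 * n / L ^ 2)) ≤ 1 / (2 * η ^ 2 / L ^ 2) := by
      have := mul_exp_le (γ := 2 * η ^ 2 / L ^ 2) (x := n) (by positivity)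
      have e : 2 * η ^ 2 / L ^ 2 * n = 2 * η ^ 2 * n / L ^ 2 := by ring
      rwa [e] at this
    have t3 : n * Real.exp (-(η * n - L)) ≤ Real.exp L * (1 / η) := by
      have := mul_exp_le (γ := η) (x := n) hη0
      have e : Real.exp (-(η * n - L)) = Real.exp L * Real.exp (-(η * n)) := by
        rw [← Real.exp_add]; congr 1; ring
      rw [e]
      calc n * (Real.exp L * Real.exp (-(η * n))) = Real.exp L * (n * Real.exp (-(η * n))) := by
            ring
        _ ≤ _ := mul_le_mul_of_nonneg_left this (Real.exp_pos _).le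
    have t4 : Real.sqrt (n * ((1 + ρ) / (1 - ρ))) = Real.sqrt n * Real.sqrt ((1 + ρ) / (1 - ρ)) :=
      Real.sqrt_mul hn0.le _
    have t5 : (n : ℝ) * (4 * (1 - ρ) / ((1 + ρ) * n)) = 4 * (1 - ρ) / (1 + ρ) := by
      field_simp
    rw [e1, ← hL] at hwin
    have t6 : (c2 + 2) * n * (4 * (1 - ρ) / ((1 + ρ) * n) + 1 / (e * (1 - ρ) / 8) *
        (Real.exp (-(3 * η * n)) + 2 * Real.exp (-(2 * η ^ 2 * n / L ^ 2)))) +
        n * Real.exp (-(η * n - L)) ≤ K0 := by
      have p1 : (0 : ℝ) < 1 / (e * (1 - ρ) / 8) := by positivity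
      have : (c2 + 2) * n * (4 * (1 - ρ) / ((1 + ρ) * n) + 1 / (e * (1 - ρ) / 8) *
          (Real.exp (-(3 * η * n)) + 2 * Real.exp (-(2 * η ^ 2 * n / L ^ 2)))) =
          (c2 + 2) * (n * (4 * (1 - ρ) / ((1 + ρ) * n)) + 1 / (e * (1 - ρ) / 8) *
          (n * Real.exp (-(3 * η * n)) + 2 * (n * Real.exp (-(2 * η ^ 2 * n / L ^ 2))))) := by
        ring
      rw [this, t5, hK0]
      refine add_le_add (mul_le_mul_of_nonneg_left (add_le_add le_rfl
        (mul_le_mul_of_nonneg_left ?_ p1.le)) (by positivity)) t3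
      linarith
    have hmain : c2 * n * SW ≤ 2 ^ n * (Real.sqrt n *
        (2 * Real.sqrt ((1 + ρ) / (1 - ρ)) + K0)) := by
      refine le_trans hwin (mul_le_mul_of_nonneg_left ?_ h2.le)
      rw [t4]
      have : K0 ≤ Real.sqrt n * K0 := le_mul_of_one_le_left hK00.le hsq1
      linarith
    have hfin : SW ≤ 2 ^ n * ((2 * Real.sqrt ((1 + ρ) / (1 - ρ)) + K0) / c2 / Real.sqrt n) := by
      have hpos : 0 < c2 * n := by positivity
      rw [← mul_le_mul_iff_right₀ hpos]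
      refine le_trans hmain (le_of_eq ?_)
      have e6 : c2 * (n : ℝ) * (2 ^ n * ((2 * Real.sqrt ((1 + ρ) / (1 - ρ)) + K0) / c2 /
          Real.sqrt n)) = 2 ^ n * ((n / Real.sqrt n) *
            (2 * Real.sqrt ((1 + ρ) / (1 - ρ)) + K0)) := by
        field_simp
      rw [e6, Real.div_sqrt]
    refine le_trans hfin (mul_le_mul_of_nonneg_left ?_ h2.le)
    rw [add_div ((2 * Real.sqrt ((1 + ρ) / (1 - ρ)) + K0) / c2) (Real.sqrt (L / η))
      (Real.sqrt n)]
    have : 0 ≤ Real.sqrt (L / η) / Real.sqrt n := by positivity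
    linarith
  · push Not at hbig
    have htot : ∑ x, noise ρ f x = 2 ^ n := by
      unfold noise
      rw [Finset.sum_comm]
      rw [← hm]
      refine Finset.sum_congr rfl fun y _ => ?_
      rw [← Finset.sum_mul, wt_sum, one_mul]
    refine le_trans (Finset.sum_le_sum_of_subset_of_nonneg (Finset.subset_univ _)
      fun x _ _ => (hT x).le) ?_
    rw [htot]
    refine le_mul_of_one_le_right h2.le ?_
    rw [add_div ((2 * Real.sqrt ((1 + ρ) / (1 - ρ)) + K0) / c2) (Real.sqrt (L / η))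
      (Real.sqrt n)]
    have h3 : 1 ≤ Real.sqrt (L / η) / Real.sqrt n := by
      rw [le_div_iff₀ hsq, one_mul]
      apply Real.sqrt_le_sqrt
      rw [le_div_iff₀ hη0]
      linarith [mul_comm η (n : ℝ)]
    have h4 : 0 ≤ (2 * Real.sqrt ((1 + ρ) / (1 - ρ)) + K0) / c2 / Real.sqrt n := by positivity
    linarith

open scoped Classical in
/-- **Talagrand's bound, sharp rate, all functions, beyond the critical dimension.** -/
theorem beyond {ρ : ℝ} (h0 : 0 < ρ) (h1 : ρ < 1) : ∃ η : ℝ, 0 < η ∧ ∃ C : ℝ, 0 < C ∧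
    ∀ (n : ℕ), 0 < n → ∀ f : (Fin n → Bool) → ℝ, (∀ x, 0 ≤ f x) → ∑ x, f x = 2 ^ n →
    ∀ t : ℝ, 0 < t → n * (kap ρ - η) ≤ Real.log t →
      ((univ.filter fun x : Fin n → Bool => t ≤ noise ρ f x).card : ℝ) / 2 ^ n ≤
        C / (t * Real.sqrt n) := by
  have hρ : 0 < 1 - ρ := by linarith
  have hρ' : 0 < 1 + ρ := by linarith
  obtain ⟨η, hη, K, hK, H⟩ := window_mass h0 h1
  refine ⟨η, hη, K * ((1 + ρ) / ρ), by positivity, ?_⟩
  intro n hn f hf hm t ht hlog
  have hn0 : (0 : ℝ) < n := by exact_mod_cast hn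
  have hsq : 0 < Real.sqrt n := Real.sqrt_pos.mpr hn0
  have h2 : (0 : ℝ) < 2 ^ n := by positivity
  have hT : ∀ x, 0 < noise ρ f x := fun x => noise_pos h0 h1 f hf hm x
  set δ := Real.log (1 + ρ) with hδ
  have hδ0 : 0 < δ := Real.log_pos (by linarith)
  set m : (Fin n → Bool) → ℕ := fun x => ⌊(Real.log (noise ρ f x) - Real.log t) / δ⌋₊ with hmdef
  set A := univ.filter fun x : Fin n → Bool => t ≤ noise ρ f x with hA
  set M := (A.sup m) + 1 with hM
  have hAle : ∀ x ∈ A, m x < M := fun x hx => by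
    have := Finset.le_sup (f := m) hx
    omega
  set S : ℕ → Finset (Fin n → Bool) := fun k => univ.filter (fun x : Fin n → Bool =>
    Real.log t + k * δ ≤ Real.log (noise ρ f x) ∧
      Real.log (noise ρ f x) < Real.log t + k * δ + δ) with hS
  have hcov : A ⊆ (Finset.range M).biUnion S := by
    intro x hx
    rw [Finset.mem_biUnion]
    refine ⟨m x, Finset.mem_range.2 (hAle x hx), ?_⟩
    rw [hS]
    simp only [Finset.mem_filter, Finset.mem_univ, true_and]
    have hx' : t ≤ noise ρ f x := (Finset.mem_filter.1 hx).2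
    have hl : Real.log t ≤ Real.log (noise ρ f x) := Real.log_le_log ht hx'
    have hq : 0 ≤ (Real.log (noise ρ f x) - Real.log t) / δ :=
      div_nonneg (by linarith) hδ0.le
    have hf1 := Nat.floor_le hq
    have hf2 := Nat.lt_floor_add_one ((Real.log (noise ρ f x) - Real.log t) / δ)
    rw [le_div_iff₀ hδ0] at hf1
    rw [div_lt_iff₀ hδ0] at hf2
    constructor
    · show Real.log t + ((m x : ℕ) : ℝ) * δ ≤ _
      rw [hmdef]
      linarith
    · show _ < Real.log t + ((m x : ℕ) : ℝ) * δ + δ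
      rw [hmdef]
      linarith
  have hcard : ∀ k : ℕ, ((S k).card : ℝ) ≤ 2 ^ n * (K / Real.sqrt n) / t * (1 / (1 + ρ)) ^ k := by
    intro k
    have hw := H n hn f hf hm (Real.log t + k * δ) (by
      have : (0 : ℝ) ≤ k * δ := by positivity
      linarith)
    have hlow : ((S k).card : ℝ) * (t * (1 + ρ) ^ k) ≤ ∑ x ∈ S k, noise ρ f x := by
      calc ((S k).card : ℝ) * (t * (1 + ρ) ^ k) = ∑ x ∈ S k, t * (1 + ρ) ^ k := by
            rw [Finset.sum_const, nsmul_eq_mul]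
        _ ≤ _ := Finset.sum_le_sum fun x hx => by
            have hx' := ((Finset.mem_filter.1 hx).2).1
            have h3 : Real.log (t * (1 + ρ) ^ k) ≤ Real.log (noise ρ f x) := by
              rw [Real.log_mul ht.ne' (by positivity), Real.log_pow]
              exact hx'
            exact (Real.log_le_log_iff (by positivity) (hT x)).1 h3
    have h5 := le_trans hlow hw
    rw [one_div, inv_pow, ← div_eq_mul_inv, div_div, le_div_iff₀ (by positivity)]
    exact h5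
  have hsum : (A.card : ℝ) ≤ ∑ k ∈ Finset.range M, ((S k).card : ℝ) := by
    have h3 := Finset.card_le_card hcov
    have h4 := Finset.card_biUnion_le (s := Finset.range M) (t := S)
    exact_mod_cast le_trans h3 h4
  have hr0 : (0 : ℝ) ≤ 1 / (1 + ρ) := by positivity
  have hr1 : 1 / (1 + ρ) < 1 := by
    rw [div_lt_one hρ']; linarith
  have hgeo : ∑ k ∈ Finset.range M, (1 / (1 + ρ)) ^ k ≤ (1 + ρ) / ρ := by
    have h3 := (summable_geometric_of_lt_one hr0 hr1).sum_le_tsum (Finset.range M)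
      (fun k _ => by positivity)
    rw [tsum_geometric_of_lt_one hr0 hr1] at h3
    have e7 : 1 - 1 / (1 + ρ) = ρ / (1 + ρ) := by
      field_simp
      ring
    rw [e7, inv_div] at h3
    exact h3
  rw [div_le_iff₀ h2]
  calc (A.card : ℝ) ≤ ∑ k ∈ Finset.range M, ((S k).card : ℝ) := hsum
    _ ≤ ∑ k ∈ Finset.range M, 2 ^ n * (K / Real.sqrt n) / t * (1 / (1 + ρ)) ^ k :=
        Finset.sum_le_sum fun k _ => hcard k
    _ = 2 ^ n * (K / Real.sqrt n) / t * ∑ k ∈ Finset.range M, (1 / (1 + ρ)) ^ k := by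
        rw [Finset.mul_sum]
    _ ≤ 2 ^ n * (K / Real.sqrt n) / t * ((1 + ρ) / ρ) :=
        mul_le_mul_of_nonneg_left hgeo (by positivity)
    _ = _ := by
        field_simp

end Pool.Agent.H63TC.Wi
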