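import Pool.Agent.H63TC.WiDefs

set_option autoImplicit false

open Finset

namespace Pool.Agent.H63TC.Wi

private noncomputable def w1 (ρ : ℝ) (b c : Bool) : ℝ := if b = c then (1 + ρ) / 2 else (1 - ρ) / 2

private noncomputable def a1 (ρ : ℝ) (b c : Bool) : ℝ := (if b = c then 0 else 1) - (1 - ρ) / 2

private theorem wt_eq (ρ : ℝ) {n : ℕ} (x y : Fin n → Bool) :
    wt ρ x y = ∏ k, w1 ρ (x k) (y k) := rfl

private theorem w1_pos {ρ : ℝ} (h0 : 0 < ρ) (h1 : ρ < 1) (b c : Bool) : 0 < w1 ρ b c := by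
  unfold w1
  split_ifs <;> linarith

private theorem wt_nonneg {ρ : ℝ} (h0 : 0 < ρ) (h1 : ρ < 1) {n : ℕ} (x y : Fin n → Bool) :
    0 ≤ wt ρ x y := by
  rw [wt_eq]
  exact prod_nonneg fun k _ => (w1_pos h0 h1 _ _).le

private theorem sum_w1 (ρ : ℝ) (c : Bool) : ∑ b : Bool, w1 ρ b c = 1 := by
  cases c <;> simp [w1] <;> ring

private theorem sum_wt1 (ρ : ℝ) {n : ℕ} (y : Fin n → Bool) : ∑ x, wt ρ x y = 1 := by
  simp_rw [wt_eq]
  rw [← Fintype.prod_sum (κ := fun _ : Fin n => Bool)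
    (fun (k : Fin n) (b : Bool) => w1 ρ b (y k))]
  simp_rw [sum_w1]
  simp

private theorem cov (ρ : ℝ) {n : ℕ} (y : Fin n → Bool) (i j : Fin n) :
    ∑ x, wt ρ x y * (a1 ρ (x i) (y i) * a1 ρ (x j) (y j)) =
      if i = j then (1 - ρ) / 2 * ((1 + ρ) / 2) else 0 := by
  have h : ∀ x : Fin n → Bool, wt ρ x y * (a1 ρ (x i) (y i) * a1 ρ (x j) (y j)) =
      ∏ k, (w1 ρ (x k) (y k) * ((if k = i then a1 ρ (x k) (y k) else 1) *
        (if k = j then a1 ρ (x k) (y k) else 1))) := by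
    intro x
    rw [prod_mul_distrib, prod_mul_distrib, wt_eq]
    simp
  simp_rw [h]
  rw [← Fintype.prod_sum (κ := fun _ : Fin n => Bool)
    (fun (k : Fin n) (b : Bool) => w1 ρ b (y k) * ((if k = i then a1 ρ b (y k) else 1) *
        (if k = j then a1 ρ b (y k) else 1)))]
  split_ifs with hij
  · subst hij
    rw [prod_eq_single i]
    · cases y i <;> simp [w1, a1] <;> ring
    · intro k _ hk
      simp only [hk, if_false, mul_one]
      exact sum_w1 ρ _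
    · intro hi
      exact absurd (mem_univ i) hi
  · refine prod_eq_zero (mem_univ i) ?_
    simp only [if_true, hij, if_false, mul_one]
    cases y i <;> simp [w1, a1] <;> ring

private theorem var (ρ : ℝ) {n : ℕ} (y : Fin n → Bool) :
    ∑ x, wt ρ x y * (∑ i, a1 ρ (x i) (y i)) ^ 2 = n * ((1 - ρ) / 2 * ((1 + ρ) / 2)) := by
  have h : ∀ x : Fin n → Bool, wt ρ x y * (∑ i, a1 ρ (x i) (y i)) ^ 2 =
      ∑ i, ∑ j, wt ρ x y * (a1 ρ (x i) (y i) * a1 ρ (x j) (y j)) := by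
    intro x
    rw [sq, sum_mul_sum, mul_sum]
    refine sum_congr rfl fun i _ => ?_
    rw [mul_sum]
  simp_rw [h]
  rw [sum_comm]
  have h2 : ∀ i : Fin n, ∑ x : Fin n → Bool, ∑ j, wt ρ x y * (a1 ρ (x i) (y i) * a1 ρ (x j) (y j)) =
      (1 - ρ) / 2 * ((1 + ρ) / 2) := by
    intro i
    rw [sum_comm]
    simp_rw [cov]
    simp
  simp_rw [h2]
  simp


private theorem dist_eq {n : ℕ} (x y : Fin n → Bool) :
    (hammingDist x y : ℝ) = ∑ i, (if x i = y i then (0 : ℝ) else 1) := by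
  unfold hammingDist
  rw [card_filter]
  push_cast
  refine sum_congr rfl fun i _ => ?_
  by_cases h : x i = y i <;> simp [h]

theorem cheb {ρ : ℝ} (h0 : 0 < ρ) (h1 : ρ < 1) {n : ℕ} (hn : 0 < n) (y : Fin n → Bool) :
    ∑ x ∈ univ.filter (fun x : Fin n → Bool =>
      (n : ℝ) * (3 - ρ) / 4 < (hammingDist x y : ℝ)), wt ρ x y ≤
      4 * (1 - ρ) / ((1 + ρ) * n) := by
  have hn' : (0 : ℝ) < n := by exact_mod_cast hn
  have hs : (0 : ℝ) < n * (1 + ρ) / 4 := by positivity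
  have hA : ∀ x : Fin n → Bool, ∑ i, a1 ρ (x i) (y i) =
      (hammingDist x y : ℝ) - n * ((1 - ρ) / 2) := by
    intro x
    rw [dist_eq]
    unfold a1
    rw [sum_sub_distrib]
    simp
  have key : ∀ x ∈ univ.filter (fun x : Fin n → Bool =>
      (n : ℝ) * (3 - ρ) / 4 < (hammingDist x y : ℝ)), wt ρ x y ≤
      wt ρ x y * (∑ i, a1 ρ (x i) (y i)) ^ 2 / (n * (1 + ρ) / 4) ^ 2 := by
    intro x hx
    have hx' := (mem_filter.1 hx).2
    have hw := wt_nonneg h0 h1 x y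
    rw [hA, le_div_iff₀ (by positivity)]
    refine mul_le_mul_of_nonneg_left ?_ hw
    refine pow_le_pow_left₀ hs.le ?_ 2
    linarith
  calc ∑ x ∈ univ.filter (fun x : Fin n → Bool =>
        (n : ℝ) * (3 - ρ) / 4 < (hammingDist x y : ℝ)), wt ρ x y
      ≤ ∑ x ∈ univ.filter (fun x : Fin n → Bool =>
        (n : ℝ) * (3 - ρ) / 4 < (hammingDist x y : ℝ)),
          wt ρ x y * (∑ i, a1 ρ (x i) (y i)) ^ 2 / (n * (1 + ρ) / 4) ^ 2 := sum_le_sum key
    _ ≤ ∑ x, wt ρ x y * (∑ i, a1 ρ (x i) (y i)) ^ 2 / (n * (1 + ρ) / 4) ^ 2 := by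
        refine sum_le_sum_of_subset_of_nonneg (filter_subset _ _) fun x _ _ => ?_
        have hw := wt_nonneg h0 h1 x y
        positivity
    _ = 4 * (1 - ρ) / ((1 + ρ) * n) := by
        rw [← sum_div, var]
        have h3 : (1 + ρ) ≠ 0 := by linarith
        field_simp
        ring

end Pool.Agent.H63TC.Wi
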