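import Pool.Agent.H63TC.WiDefs

set_option autoImplicit false

open Finset

namespace Pool.Agent.H63TC.Wi

theorem e1 (a : ℝ) : a * Real.exp (-a) ≤ 1 - Real.exp (-a) := by
  have h := Real.add_one_le_exp a
  have h2 : Real.exp a * Real.exp (-a) = 1 := by rw [← Real.exp_add]; simp
  have h3 := Real.exp_pos (-a)
  nlinarith

theorem e2 (a : ℝ) : 1 - Real.exp (-a) ≤ a := by
  have h := Real.add_one_le_exp (-a)
  linarith

theorem g_of_le {w u : ℝ} (h : u ≤ w) : g w u = Real.exp (u - w) := if_pos h

theorem g_of_lt {w u : ℝ} (h : w < u) : g w u = 2 - Real.exp (-(u - w)) := if_neg (not_le.mpr h)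

theorem g_all (w : ℝ) : (∀ u, 0 ≤ g w u) ∧ (∀ u, g w u ≤ 2) ∧ Monotone (g w) := by
  refine ⟨fun u => ?_, fun u => ?_, fun u v huv => ?_⟩
  · rcases le_or_gt u w with h | h
    · rw [g_of_le h]; exact (Real.exp_pos _).le
    · rw [g_of_lt h]
      have : Real.exp (-(u - w)) ≤ 1 := Real.exp_le_one_iff.mpr (by linarith)
      linarith
  · rcases le_or_gt u w with h | h
    · rw [g_of_le h]
      have : Real.exp (u - w) ≤ 1 := Real.exp_le_one_iff.mpr (by linarith)
      linarith
    · rw [g_of_lt h]
      have := Real.exp_pos (-(u - w))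
      linarith
  · rcases le_or_gt v w with h | h
    · rw [g_of_le h, g_of_le (huv.trans h)]
      exact Real.exp_le_exp.mpr (by linarith)
    · rw [g_of_lt h]
      have h1 : Real.exp (-(v - w)) ≤ 1 := Real.exp_le_one_iff.mpr (by linarith)
      rcases le_or_gt u w with h' | h'
      · rw [g_of_le h']
        have : Real.exp (u - w) ≤ 1 := Real.exp_le_one_iff.mpr (by linarith)
        linarith
      · rw [g_of_lt h']
        have : Real.exp (-(v - w)) ≤ Real.exp (-(u - w)) := Real.exp_le_exp.mpr (by linarith)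
        linarith

theorem g_lo (w u δ : ℝ) (hδ : 0 < δ) :
    δ * Real.exp (-δ) * Real.exp (-|u - w|) ≤ g w u - g w (u - δ) := by
  rcases le_or_gt u w with h | h
  · rw [g_of_le h, g_of_le (by linarith), abs_of_nonpos (by linarith), neg_neg]
    have h1 := e1 δ
    have h2 : Real.exp (u - δ - w) = Real.exp (u - w) * Real.exp (-δ) := by
      rw [← Real.exp_add]; congr 1; ring
    have h3 := Real.exp_pos (u - w)
    rw [h2]
    nlinarith
  · rw [g_of_lt h, abs_of_pos (by linarith)]
    rcases le_or_gt (u - δ) w with h' | h'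
    · rw [g_of_le h']
      have h1 := e1 (u - w)
      have h2 := e1 (δ - (u - w))
      have h3 : Real.exp (-(δ - (u - w))) = Real.exp (u - δ - w) := by congr 1; ring
      rw [h3] at h2
      have h4 : Real.exp (-δ) * Real.exp (-(u - w)) ≤ Real.exp (-(u - w)) := by
        have : Real.exp (-δ) ≤ 1 := Real.exp_le_one_iff.mpr (by linarith)
        nlinarith [Real.exp_pos (-(u - w))]
      have h5 : Real.exp (-δ) * Real.exp (-(u - w)) ≤ Real.exp (u - δ - w) := by
        rw [← Real.exp_add]
        exact Real.exp_le_exp.mpr (by linarith)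
      have h6 : (u - w) * (Real.exp (-δ) * Real.exp (-(u - w))) ≤
          (u - w) * Real.exp (-(u - w)) := mul_le_mul_of_nonneg_left h4 (by linarith)
      have h7 : (δ - (u - w)) * (Real.exp (-δ) * Real.exp (-(u - w))) ≤
          (δ - (u - w)) * Real.exp (u - δ - w) := mul_le_mul_of_nonneg_left h5 (by linarith)
      nlinarith
    · rw [g_of_lt h']
      have h1 := Real.add_one_le_exp δ
      have h2 : Real.exp (-(u - δ - w)) = Real.exp (-(u - w)) * Real.exp δ := by
        rw [← Real.exp_add]; congr 1; ring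
      have h3 := Real.exp_pos (-(u - w))
      have h4 : Real.exp (-δ) ≤ 1 := Real.exp_le_one_iff.mpr (by linarith)
      have h5 : δ * Real.exp (-δ) ≤ δ := by nlinarith
      rw [h2]
      nlinarith

theorem g_up (w u L : ℝ) (hL : 0 < L) :
    g w (u + L) - g w u ≤ L * Real.exp L * Real.exp (-|u - w|) := by
  have hL1 : 1 ≤ Real.exp L := Real.one_le_exp hL.le
  rcases le_or_gt u w with h | h
  · rw [g_of_le h, abs_of_nonpos (by linarith), neg_neg]
    have h3 := Real.exp_pos (u - w)
    rcases le_or_gt (u + L) w with h' | h'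
    · rw [g_of_le h']
      have h1 := e2 L
      have h2 : Real.exp (u + L - w) = Real.exp (u - w) * Real.exp L := by
        rw [← Real.exp_add]; congr 1; ring
      have h4 : Real.exp L * Real.exp (-L) = 1 := by rw [← Real.exp_add]; simp
      have h5 : Real.exp L - 1 ≤ L * Real.exp L := by nlinarith [Real.exp_pos L]
      rw [h2]
      nlinarith
    · rw [g_of_lt h']
      have h1 := e2 (u + L - w)
      have h2 : 1 - Real.exp (u - w) ≤ -(u - w) := by
        have := Real.add_one_le_exp (u - w)
        linarith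
      have h4 : L ≤ L * (Real.exp L * Real.exp (u - w)) := by
        have : 1 ≤ Real.exp L * Real.exp (u - w) := by
          rw [← Real.exp_add]
          exact Real.one_le_exp (by linarith)
        nlinarith
      linarith
  · rw [g_of_lt h, g_of_lt (by linarith), abs_of_pos (by linarith)]
    have h1 := e2 L
    have h2 : Real.exp (-(u + L - w)) = Real.exp (-(u - w)) * Real.exp (-L) := by
      rw [← Real.exp_add]; congr 1; ring
    have h3 := Real.exp_pos (-(u - w))
    have h4 : L ≤ L * Real.exp L := by nlinarith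
    rw [h2]
    nlinarith

theorem g_step (w u δ L : ℝ) (hδ : 0 < δ) (hL : 0 < L) :
    g w (u + L) - g w u ≤ (L * Real.exp (L + δ) / δ) * (g w u - g w (u - δ)) := by
  have h1 := g_up w u L hL
  have h2 := g_lo w u δ hδ
  have h3 : 0 < L * Real.exp (L + δ) / δ := by positivity
  have h4 := mul_le_mul_of_nonneg_left h2 h3.le
  have h5 : L * Real.exp (L + δ) / δ * (δ * Real.exp (-δ) * Real.exp (-|u - w|)) =
      L * Real.exp L * Real.exp (-|u - w|) := by
    have h6 : Real.exp (L + δ) * Real.exp (-δ) = Real.exp L := by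
      rw [← Real.exp_add]; congr 1; ring
    field_simp
    rw [← h6]
  linarith

theorem g_win (w u δ : ℝ) (hδ : 0 < δ) (h : w ≤ u) (h' : u < w + δ) :
    δ * Real.exp (-δ) ≤ g w u - g w (u - δ) := by
  rw [g_of_le (show u - δ ≤ w by linarith)]
  have h3 : Real.exp (-(δ - (u - w))) = Real.exp (u - δ - w) := by congr 1; ring
  have h2 := e1 (δ - (u - w))
  rw [h3] at h2
  have h5 : Real.exp (-δ) ≤ Real.exp (u - δ - w) := Real.exp_le_exp.mpr (by linarith)
  have h7 : (δ - (u - w)) * Real.exp (-δ) ≤ (δ - (u - w)) * Real.exp (u - δ - w) :=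
    mul_le_mul_of_nonneg_left h5 (by linarith)
  rcases h.eq_or_lt with he | hl
  · subst he
    rw [g_of_le le_rfl, sub_self, Real.exp_zero]
    simp only [sub_self, sub_zero] at h7 h2
    linarith
  · rw [g_of_lt hl]
    have h1 := e1 (u - w)
    have h4 : Real.exp (-δ) ≤ Real.exp (-(u - w)) := Real.exp_le_exp.mpr (by linarith)
    have h6 : (u - w) * Real.exp (-δ) ≤ (u - w) * Real.exp (-(u - w)) :=
      mul_le_mul_of_nonneg_left h4 (by linarith)
    nlinarith

theorem g_far (w u s : ℝ) (h : u ≤ w - s) (hs : 0 ≤ s) : g w u ≤ Real.exp (-s) := by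
  rw [g_of_le (by linarith)]
  exact Real.exp_le_exp.mpr (by linarith)

end Pool.Agent.H63TC.Wi
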