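import Pool.Agent.H63TC.WiDefs

/-!
Package P3 of the widest range (MP_b7d303_pr).
-/

set_option autoImplicit false

open Finset

namespace Pool.Agent.H63TC.Wi

theorem wt_pos45 {ρ : ℝ} (h0 : 0 < ρ) (h1 : ρ < 1) {n : ℕ} (x y : Fin n → Bool) :
    0 < wt ρ x y := by
  unfold wt
  apply Finset.prod_pos
  intro i _
  split_ifs <;> linarith

theorem wt_flip45 {ρ : ℝ} (h0 : 0 < ρ) (h1 : ρ < 1) {n : ℕ} (x y : Fin n → Bool) (i : Fin n) :
    wt ρ (flip x i) y =
      (if x i = y i then (1 - ρ) / (1 + ρ) else (1 + ρ) / (1 - ρ)) * wt ρ x y := by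
  have hp : 0 < 1 + ρ := by linarith
  have hm : 0 < 1 - ρ := by linarith
  unfold wt
  rw [← Finset.mul_prod_erase univ _ (mem_univ i)]
  conv_rhs => rw [← Finset.mul_prod_erase univ _ (mem_univ i)]
  have h2 : ∏ j ∈ univ.erase i, (if flip x i j = y j then (1 + ρ) / 2 else (1 - ρ) / 2)
      = ∏ j ∈ univ.erase i, (if x j = y j then (1 + ρ) / 2 else (1 - ρ) / 2) := by
    refine Finset.prod_congr rfl fun j hj => ?_
    have hji : j ≠ i := (mem_erase.1 hj).1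
    simp [flip, Function.update_of_ne hji]
  rw [h2, ← mul_assoc]
  congr 1
  have h3 : flip x i i = !x i := by simp [flip]
  rw [h3]
  by_cases h : x i = y i
  · have h4 : ¬ ((!x i) = y i) := by rw [← h]; cases x i <;> simp
    rw [if_pos h, if_pos h, if_neg h4]
    field_simp
  · have h4 : (!x i) = y i := by
      cases hx : x i <;> cases hy : y i <;> simp_all
    rw [if_neg h, if_neg h, if_pos h4]
    field_simp

theorem noise_pos {ρ : ℝ} (h0 : 0 < ρ) (h1 : ρ < 1) {n : ℕ} (f : (Fin n → Bool) → ℝ)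
    (hf : ∀ x, 0 ≤ f x) (hm : ∑ x, f x = 2 ^ n) (x : Fin n → Bool) : 0 < noise ρ f x := by
  have h2 : ∃ y, 0 < f y := by
    by_contra hcon
    push Not at hcon
    have h3 : ∑ x, f x ≤ 0 := Finset.sum_nonpos fun y _ => hcon y
    have h4 : (0 : ℝ) < 2 ^ n := by positivity
    linarith
  obtain ⟨y, hy⟩ := h2
  unfold noise
  exact Finset.sum_pos' (fun z _ => mul_nonneg (wt_pos45 h0 h1 x z).le (hf z))
    ⟨y, mem_univ _, mul_pos (wt_pos45 h0 h1 x y) hy⟩

theorem ratio_le {ρ : ℝ} (h0 : 0 < ρ) (h1 : ρ < 1) {n : ℕ} (f : (Fin n → Bool) → ℝ)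
    (hf : ∀ x, 0 ≤ f x) (x : Fin n → Bool) (i : Fin n) :
    noise ρ f (flip x i) ≤ (1 + ρ) / (1 - ρ) * noise ρ f x := by
  have hp : 0 < 1 + ρ := by linarith
  have hm : 0 < 1 - ρ := by linarith
  unfold noise
  rw [Finset.mul_sum]
  refine Finset.sum_le_sum fun y _ => ?_
  rw [wt_flip45 h0 h1, ← mul_assoc]
  refine mul_le_mul_of_nonneg_right (mul_le_mul_of_nonneg_right ?_ (wt_pos45 h0 h1 x y).le) (hf y)
  split_ifs
  · rw [div_le_div_iff₀ hp hm]
    nlinarith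
  · exact le_rfl

theorem ratio_exc {ρ : ℝ} (h0 : 0 < ρ) (h1 : ρ < 1) {n : ℕ} (f : (Fin n → Bool) → ℝ)
    (_hf : ∀ x, 0 ≤ f x) (x y : Fin n → Bool) (i : Fin n) (hi : x i = y i)
    (h : noise ρ f x < (1 + ρ) * noise ρ f (flip x i)) :
    (1 - ρ) / 4 * noise ρ f x ≤ ∑ z ∈ univ.filter (fun z : Fin n → Bool => z i ≠ y i),
      wt ρ x z * f z := by
  have hp : 0 < 1 + ρ := by linarith
  have hm : 0 < 1 - ρ := by linarith
  set m : ℝ := ∑ z ∈ univ.filter (fun z : Fin n → Bool => z i ≠ y i), wt ρ x z * f z with hmdef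
  set k : ℝ := ∑ z ∈ univ.filter (fun z : Fin n → Bool => z i = y i), wt ρ x z * f z with hkdef
  have e1 : noise ρ f x = k + m := by
    unfold noise
    rw [hkdef, hmdef, Finset.sum_filter_add_sum_filter_not]
  have e2 : noise ρ f (flip x i) = (1 - ρ) / (1 + ρ) * k + (1 + ρ) / (1 - ρ) * m := by
    unfold noise
    rw [hkdef, hmdef, Finset.mul_sum, Finset.mul_sum,
      ← Finset.sum_filter_add_sum_filter_not univ (fun z : Fin n → Bool => z i = y i)]
    congr 1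
    · refine Finset.sum_congr rfl fun z hz => ?_
      rw [mem_filter] at hz
      rw [wt_flip45 h0 h1, if_pos (by rw [hi, hz.2])]
      ring
    · refine Finset.sum_congr rfl fun z hz => ?_
      rw [mem_filter] at hz
      rw [wt_flip45 h0 h1, if_neg (by rw [hi]; exact fun h => hz.2 h.symm)]
      ring
  rw [e1, e2] at h
  rw [e1]
  have e3 : (1 + ρ) * ((1 - ρ) / (1 + ρ) * k + (1 + ρ) / (1 - ρ) * m)
      = (1 - ρ) * k + (1 + ρ) ^ 2 / (1 - ρ) * m := by
    field_simp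
  rw [e3] at h
  have h2 : (1 - ρ) * (k + m) < (1 - ρ) * ((1 - ρ) * k + (1 + ρ) ^ 2 / (1 - ρ) * m) :=
    mul_lt_mul_of_pos_left h hm
  have e4 : (1 - ρ) * ((1 - ρ) * k + (1 + ρ) ^ 2 / (1 - ρ) * m)
      = (1 - ρ) ^ 2 * k + (1 + ρ) ^ 2 * m := by
    field_simp
  rw [e4] at h2
  have h3 : ρ * ((1 - ρ) * (k + m)) ≤ ρ * (4 * m) := by nlinarith
  have h4 : (1 - ρ) * (k + m) ≤ 4 * m := le_of_mul_le_mul_left h3 h0
  linarith

end Pool.Agent.H63TC.Wi
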