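import Pool.Agent.H63TC.WiDefs

set_option autoImplicit false

open Finset

namespace Pool.Agent.H33Dm

open Pool.Agent.H63TC Pool.Agent.H63TC.Wi

theorem wt_nonneg' {ρ : ℝ} (h0 : 0 < ρ) (h1 : ρ < 1) {n : ℕ} (x y : Fin n → Bool) : 0 ≤ wt ρ x y := by
  unfold wt
  apply prod_nonneg
  intro i _
  split_ifs <;> linarith

theorem off_ge_of {ρ : ℝ} (h0 : 0 < ρ) (h1 : ρ < 1) {n : ℕ} (hn : 0 < n) (f : (Fin n → Bool) → ℝ)
    (hf : ∀ x, 0 ≤ f x)
    (ratio_exc : ∀ (x y : Fin n → Bool) (i : Fin n) (_ : x i = y i)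
      (_ : noise ρ f x < (1 + ρ) * noise ρ f (Wi.flip x i)),
      (1 - ρ) / 4 * noise ρ f x ≤ ∑ z ∈ univ.filter (fun z : Fin n → Bool => z i ≠ y i),
        wt ρ x z * f z)
    (x y : Fin n → Bool) (e : ℝ) (he : 0 < e)
    (h : e * n < ((exc ρ f x y).card : ℝ)) :
    e * (1 - ρ) / 8 * noise ρ f x ≤ off ρ f (e * (1 - ρ) / 8 * n) x y := by
  classical
  have hn0 : (0 : ℝ) < n := by exact_mod_cast hn
  have hw : ∀ z, 0 ≤ wt ρ x z * f z := fun z => mul_nonneg (wt_nonneg' h0 h1 x z) (hf z)
  have hT : noise ρ f x = ∑ z, wt ρ x z * f z := rfl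
  have hT0 : 0 ≤ noise ρ f x := by rw [hT]; exact sum_nonneg fun z _ => hw z
  set c : ℝ := e * (1 - ρ) / 8 with hc
  have hc0 : 0 < c := by rw [hc]; have : 0 < 1 - ρ := by linarith
                         positivity
  -- sum over the exceptional bits
  have s1 : ((exc ρ f x y).card : ℝ) * ((1 - ρ) / 4 * noise ρ f x) ≤
      ∑ i ∈ exc ρ f x y, ∑ z ∈ univ.filter (fun z : Fin n → Bool => z i ≠ y i), wt ρ x z * f z := by
    rw [← nsmul_eq_mul]
    apply card_nsmul_le_sum
    intro i hi
    unfold exc at hi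
    rw [mem_filter] at hi
    exact ratio_exc x y i hi.2.1 hi.2.2
  have s2 : ∑ i ∈ exc ρ f x y, ∑ z ∈ univ.filter (fun z : Fin n → Bool => z i ≠ y i), wt ρ x z * f z ≤
      ∑ z, (hammingDist z y : ℝ) * (wt ρ x z * f z) := by
    have e1 : ∀ i : Fin n, ∑ z ∈ univ.filter (fun z : Fin n → Bool => z i ≠ y i), wt ρ x z * f z =
        ∑ z, if z i ≠ y i then wt ρ x z * f z else 0 := fun i => sum_filter _ _
    rw [sum_congr rfl fun i _ => e1 i]
    calc ∑ i ∈ exc ρ f x y, ∑ z, (if z i ≠ y i then wt ρ x z * f z else 0)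
        ≤ ∑ i : Fin n, ∑ z, (if z i ≠ y i then wt ρ x z * f z else 0) := by
          apply sum_le_sum_of_subset_of_nonneg (subset_univ _)
          intro i _ _
          apply sum_nonneg
          intro z _
          split_ifs
          · exact hw z
          · exact le_rfl
      _ = ∑ z, ∑ i : Fin n, (if z i ≠ y i then wt ρ x z * f z else 0) := sum_comm
      _ = ∑ z, (hammingDist z y : ℝ) * (wt ρ x z * f z) := by
          apply sum_congr rfl
          intro z _
          rw [← sum_filter, sum_const, nsmul_eq_mul]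
          rfl
  have s3 : ∑ z, (hammingDist z y : ℝ) * (wt ρ x z * f z) ≤
      c * n * noise ρ f x + n * off ρ f (c * n) x y := by
    have hsplit := sum_filter_add_sum_filter_not univ
      (fun z : Fin n → Bool => c * n < (hammingDist z y : ℝ))
      (fun z => (hammingDist z y : ℝ) * (wt ρ x z * f z))
    rw [← hsplit]
    have a1 : ∑ z ∈ univ.filter (fun z : Fin n → Bool => c * n < (hammingDist z y : ℝ)),
        (hammingDist z y : ℝ) * (wt ρ x z * f z) ≤ n * off ρ f (c * n) x y := by
      unfold off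
      rw [mul_sum]
      have : ∀ z ∈ univ.filter (fun z : Fin n → Bool => c * n < (hammingDist z y : ℝ)),
          (hammingDist z y : ℝ) * (wt ρ x z * f z) ≤ n * (wt ρ x z * f z) := by
        intro z _
        apply mul_le_mul_of_nonneg_right _ (hw z)
        have := hammingDist_le_card_fintype (x := z) (y := y)
        rw [Fintype.card_fin] at this
        exact_mod_cast this
      refine (sum_le_sum this).trans (le_of_eq ?_)
      apply sum_congr _ (fun _ _ => rfl)
      ext z
      simp
    have a2 : ∑ z ∈ univ.filter (fun z : Fin n → Bool => ¬ c * n < (hammingDist z y : ℝ)),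
        (hammingDist z y : ℝ) * (wt ρ x z * f z) ≤ c * n * noise ρ f x := by
      rw [hT, mul_sum]
      refine (sum_le_sum (g := fun z => c * n * (wt ρ x z * f z)) ?_).trans
        (sum_le_sum_of_subset_of_nonneg (filter_subset _ _) ?_)
      · intro z hz
        rw [mem_filter, not_lt] at hz
        exact mul_le_mul_of_nonneg_right hz.2 (hw z)
      · intro z _ _
        exact mul_nonneg (by positivity) (hw z)
    linarith
  have s4 : e * n * ((1 - ρ) / 4 * noise ρ f x) ≤
      ((exc ρ f x y).card : ℝ) * ((1 - ρ) / 4 * noise ρ f x) := by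
    apply mul_le_mul_of_nonneg_right h.le
    have : 0 < 1 - ρ := by linarith
    positivity
  have s5 : 2 * (c * n * noise ρ f x) ≤ c * n * noise ρ f x + n * off ρ f (c * n) x y := by
    have e2 : e * n * ((1 - ρ) / 4 * noise ρ f x) = 2 * (c * n * noise ρ f x) := by
      rw [hc]; ring
    rw [← e2]
    exact s4.trans (s1.trans (s2.trans s3))
  have s6 : n * (c * noise ρ f x) ≤ n * off ρ f (c * n) x y := by nlinarith
  exact le_of_mul_le_mul_left s6 hn0

end Pool.Agent.H33Dm
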