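import Pool.Agent.H63TC.WiDefs

set_option autoImplicit false

open Finset

namespace Pool.Agent.H63TC.Wi

private theorem two_wt {ρ : ℝ} {n : ℕ} (x y : Fin n → Bool) :
    2 ^ n * wt ρ x y = ∏ i : Fin n, if x i = y i then 1 + ρ else 1 - ρ := by
  unfold wt
  have h : (2 : ℝ) ^ n = ∏ _i : Fin n, (2 : ℝ) := by simp
  rw [h, ← Finset.prod_mul_distrib]
  refine Finset.prod_congr rfl fun i _ => ?_
  split_ifs <;> ring

private theorem sum_pow {ρ : ℝ} (h0 : 0 < ρ) (h1 : ρ < 1) {n : ℕ} (y : Fin n → Bool) (p : ℝ) :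
    ∑ x : Fin n → Bool, (2 ^ n * wt ρ x y) ^ p = ((1 + ρ) ^ p + (1 - ρ) ^ p) ^ n := by
  have hA : 0 ≤ 1 + ρ := by linarith
  have hB : 0 ≤ 1 - ρ := by linarith
  have e : ∀ x : Fin n → Bool, (2 ^ n * wt ρ x y) ^ p =
      ∏ i : Fin n, (if x i = y i then (1 + ρ) ^ p else (1 - ρ) ^ p) := by
    intro x
    rw [two_wt, ← Real.finsetProd_rpow]
    · refine Finset.prod_congr rfl fun i _ => ?_
      split_ifs <;> rfl
    · intro i _
      split_ifs <;> assumption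
  simp only [e]
  have h := (Finset.prod_univ_sum (fun _ : Fin n => (univ : Finset Bool))
    (fun i b => if b = y i then (1 + ρ) ^ p else (1 - ρ) ^ p)).symm
  rw [Fintype.piFinset_univ] at h
  rw [h]
  have h2 : ∀ i : Fin n, (∑ b : Bool, if b = y i then (1 + ρ) ^ p else (1 - ρ) ^ p) =
      (1 + ρ) ^ p + (1 - ρ) ^ p := by
    intro i
    rw [Fintype.sum_bool]
    cases y i
    · simp [add_comm]
    · simp
  simp only [h2]
  simp

open scoped Classical in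
theorem big {ρ : ℝ} (h0 : 0 < ρ) (h1 : ρ < 1) {n : ℕ} (y : Fin n → Bool) (η : ℝ) (hη : 0 < η) :
    ∑ x ∈ univ.filter (fun x : Fin n → Bool =>
      Real.exp (n * (kap ρ + η)) < 2 ^ n * wt ρ x y), wt ρ x y ≤
      Real.exp (-(2 * η ^ 2 * n / (Real.log ((1 + ρ) / (1 - ρ))) ^ 2)) := by
  have hA : 0 < 1 + ρ := by linarith
  have hB : 0 < 1 - ρ := by linarith
  have h2 : (0 : ℝ) < 2 ^ n := by positivity
  set L : ℝ := Real.log ((1 + ρ) / (1 - ρ)) with hL
  have hL0 : 0 < L := Real.log_pos (by rw [lt_div_iff₀ hB]; linarith)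
  set s : ℝ := 4 * η / L ^ 2 with hsd
  have hs : 0 < s := by positivity
  have hw : ∀ x : Fin n → Bool, 0 ≤ wt ρ x y := by
    intro x
    unfold wt
    refine Finset.prod_nonneg fun i _ => ?_
    split_ifs <;> linarith
  set B : ℝ := Real.exp (n * (kap ρ + η)) with hBd
  have hB0 : 0 < B := Real.exp_pos _
  have hpt : ∀ x ∈ univ.filter (fun x : Fin n → Bool => B < 2 ^ n * wt ρ x y),
      wt ρ x y ≤ B ^ (-s) / 2 ^ n * (2 ^ n * wt ρ x y) ^ (1 + s) := by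
    intro x hx
    have hx' := (Finset.mem_filter.mp hx).2
    have hv : 0 < 2 ^ n * wt ρ x y := lt_trans hB0 hx'
    have e1 : (2 ^ n * wt ρ x y) ^ (1 + s) =
        (2 ^ n * wt ρ x y) * (2 ^ n * wt ρ x y) ^ s := by
      rw [Real.rpow_add hv, Real.rpow_one]
    have e2 : B ^ s ≤ (2 ^ n * wt ρ x y) ^ s := Real.rpow_le_rpow hB0.le hx'.le hs.le
    have e3 : 1 ≤ B ^ (-s) * (2 ^ n * wt ρ x y) ^ s := by
      calc (1 : ℝ) = B ^ (-s) * B ^ s := by
            rw [← Real.rpow_add hB0]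
            simp
        _ ≤ B ^ (-s) * (2 ^ n * wt ρ x y) ^ s :=
            mul_le_mul_of_nonneg_left e2 (Real.rpow_nonneg hB0.le _)
    calc wt ρ x y = wt ρ x y * 1 := (mul_one _).symm
      _ ≤ wt ρ x y * (B ^ (-s) * (2 ^ n * wt ρ x y) ^ s) :=
          mul_le_mul_of_nonneg_left e3 (hw x)
      _ = B ^ (-s) / 2 ^ n * (2 ^ n * wt ρ x y) ^ (1 + s) := by
          rw [e1]
          field_simp
  have hH := Pool.Agent.H63TC.Dm.hoef h0 h1 s hs.le
  have hH2 : (((1 + ρ) ^ (1 + s) + (1 - ρ) ^ (1 + s)) / 2) ^ n ≤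
      Real.exp (n * (s * kap ρ + s ^ 2 * L ^ 2 / 8)) := by
    rw [Real.exp_nat_mul]
    refine pow_le_pow_left₀ ?_ hH n
    have a1 : 0 ≤ (1 + ρ) ^ (1 + s) := Real.rpow_nonneg hA.le _
    have a2 : 0 ≤ (1 - ρ) ^ (1 + s) := Real.rpow_nonneg hB.le _
    linarith
  have hBs : B ^ (-s) = Real.exp (-(s * (n * (kap ρ + η)))) := by
    rw [hBd, ← Real.exp_mul]
    congr 1
    ring
  calc ∑ x ∈ univ.filter (fun x : Fin n → Bool => B < 2 ^ n * wt ρ x y), wt ρ x y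
      ≤ ∑ x ∈ univ.filter (fun x : Fin n → Bool => B < 2 ^ n * wt ρ x y),
          B ^ (-s) / 2 ^ n * (2 ^ n * wt ρ x y) ^ (1 + s) := Finset.sum_le_sum hpt
    _ ≤ ∑ x, B ^ (-s) / 2 ^ n * (2 ^ n * wt ρ x y) ^ (1 + s) :=
        Finset.sum_le_sum_of_subset_of_nonneg (Finset.filter_subset _ _) fun x _ _ =>
          mul_nonneg (div_nonneg (Real.rpow_nonneg hB0.le _) h2.le)
            (Real.rpow_nonneg (mul_nonneg h2.le (hw x)) _)
    _ = B ^ (-s) * (((1 + ρ) ^ (1 + s) + (1 - ρ) ^ (1 + s)) / 2) ^ n := by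
        rw [← Finset.mul_sum, sum_pow h0 h1, div_pow]
        ring
    _ ≤ B ^ (-s) * Real.exp (n * (s * kap ρ + s ^ 2 * L ^ 2 / 8)) :=
        mul_le_mul_of_nonneg_left hH2 (Real.rpow_nonneg hB0.le _)
    _ = Real.exp (-(2 * η ^ 2 * n / L ^ 2)) := by
        rw [hBs, ← Real.exp_add]
        congr 1
        rw [hsd]
        field_simp
        ring

end Pool.Agent.H63TC.Wi
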