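import Pool.Agent.H63TC.WiDefs
import Pool.Agent.H63TC.CdA

set_option autoImplicit false

open Finset

namespace Pool.Agent.H63TC.Wi

open scoped Classical in
theorem pair_of_big {ρ : ℝ} (h0 : 0 < ρ) (h1 : ρ < 1) {n : ℕ} (f : (Fin n → Bool) → ℝ)
    (hf : ∀ x, 0 ≤ f x) (hm : ∑ x, f x = 2 ^ n) (η ε : ℝ) (_hη : 0 < η) (hε : 0 < ε)
    (hbig0 : ∀ y : Fin n → Bool, ∑ x ∈ univ.filter (fun x : Fin n → Bool =>
      Real.exp (n * (kap ρ + η)) < 2 ^ n * wt ρ x y), wt ρ x y ≤
      Real.exp (-(2 * η ^ 2 * n / (Real.log ((1 + ρ) / (1 - ρ))) ^ 2))) :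
    ∑ y, f y * ∑ x ∈ univ.filter (fun x : Fin n → Bool =>
      Real.exp (n * (kap ρ - 2 * η)) ≤ noise ρ f x), wt ρ x y * (off ρ f (ε * n) x y / noise ρ f x) ≤
      2 ^ n * (Real.exp (3 * η * n) * (1 - ρ ^ 2) ^ (ε * n / 2) +
        2 * Real.exp (-(2 * η ^ 2 * n / (Real.log ((1 + ρ) / (1 - ρ))) ^ 2))) := by
  set E1 := Real.exp (-(2 * η ^ 2 * n / (Real.log ((1 + ρ) / (1 - ρ))) ^ 2)) with hE1
  have hwt : ∀ x y : Fin n → Bool, 0 ≤ wt ρ x y := by
    intro x y
    unfold wt
    refine Finset.prod_nonneg fun i _ => ?_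
    split_ifs <;> linarith
  have hT0 : ∀ x, 0 ≤ noise ρ f x := by
    intro x
    unfold noise
    exact Finset.sum_nonneg fun y _ => mul_nonneg (hwt x y) (hf y)
  have h2n : (0 : ℝ) < 2 ^ n := by positivity
  let bg : (Fin n → Bool) → (Fin n → Bool) → Prop := fun x y =>
    Real.exp (n * (kap ρ + η)) < 2 ^ n * wt ρ x y
  have hbig : ∀ y, ∑ x, (if bg x y then wt ρ x y else 0) ≤ E1 := by
    intro y
    rw [← Finset.sum_filter]
    exact hbig0 y
  let F : (Fin n → Bool) → (Fin n → Bool) → (Fin n → Bool) → ℝ := fun x y z =>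
    f y * wt ρ x y * (wt ρ x z * f z) / noise ρ f x
  have hF0 : ∀ x y z, 0 ≤ F x y z := fun x y z =>
    div_nonneg (mul_nonneg (mul_nonneg (hf y) (hwt x y)) (mul_nonneg (hwt x z) (hf z))) (hT0 x)
  have hFs : ∀ x y z, F x y z = F x z y := by
    intro x y z
    simp only [F]
    ring
  set K : ℝ := Real.exp (3 * η * n) / 2 ^ n with hK
  have hK0 : 0 ≤ K := by positivity
  -- pointwise
  have hpt : ∀ x y z, Real.exp (n * (kap ρ - 2 * η)) ≤ noise ρ f x →
      F x y z ≤ K * (f y * f z * Real.sqrt (wt ρ x y * wt ρ x z)) +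
        ((if bg x y then F x y z else 0) + (if bg x z then F x y z else 0)) := by
    intro x y z hx
    have hq0 : 0 ≤ K * (f y * f z * Real.sqrt (wt ρ x y * wt ρ x z)) :=
      mul_nonneg hK0 (mul_nonneg (mul_nonneg (hf y) (hf z)) (Real.sqrt_nonneg _))
    by_cases hy : bg x y
    · rw [if_pos hy]
      have : 0 ≤ (if bg x z then F x y z else 0) := by split_ifs <;> simp [hF0]
      linarith
    by_cases hz : bg x z
    · rw [if_pos hz, if_neg hy]
      linarith
    rw [if_neg hy, if_neg hz, add_zero, add_zero]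
    have hy' : 2 ^ n * wt ρ x y ≤ Real.exp (n * (kap ρ + η)) := not_lt.mp hy
    have hz' : 2 ^ n * wt ρ x z ≤ Real.exp (n * (kap ρ + η)) := not_lt.mp hz
    set s := Real.sqrt (wt ρ x y * wt ρ x z) with hs
    have hs0 : 0 ≤ s := Real.sqrt_nonneg _
    have hss : s * s = wt ρ x y * wt ρ x z := Real.mul_self_sqrt (mul_nonneg (hwt x y) (hwt x z))
    have hsB : 2 ^ n * s ≤ Real.exp (n * (kap ρ + η)) := by
      have h3 : (2 ^ n * s) * (2 ^ n * s) ≤
          Real.exp (n * (kap ρ + η)) * Real.exp (n * (kap ρ + η)) := by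
        calc (2 ^ n * s) * (2 ^ n * s) = (2 ^ n * wt ρ x y) * (2 ^ n * wt ρ x z) := by
              rw [mul_mul_mul_comm, hss]; ring
          _ ≤ _ := mul_le_mul hy' hz' (mul_nonneg h2n.le (hwt x z)) (Real.exp_pos _).le
      exact (mul_self_le_mul_self_iff (mul_nonneg h2n.le hs0) (Real.exp_pos _).le).mpr h3
    have hTp : 0 < noise ρ f x := lt_of_lt_of_le (Real.exp_pos _) hx
    simp only [F]
    rw [div_le_iff₀ hTp]
    have h4 : f y * wt ρ x y * (wt ρ x z * f z) = (f y * f z * s) * s := by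
      rw [mul_assoc (f y * f z), hss]; ring
    rw [h4]
    have h5 : s ≤ K * noise ρ f x := by
      have h6 : Real.exp (n * (kap ρ + η)) = Real.exp (3 * η * n) * Real.exp (n * (kap ρ - 2 * η)) := by
        rw [← Real.exp_add]; congr 1; ring
      rw [hK, div_mul_eq_mul_div, le_div_iff₀ h2n]
      calc s * 2 ^ n = 2 ^ n * s := mul_comm _ _
        _ ≤ Real.exp (n * (kap ρ + η)) := hsB
        _ = Real.exp (3 * η * n) * Real.exp (n * (kap ρ - 2 * η)) := h6
        _ ≤ _ := mul_le_mul_of_nonneg_left hx (Real.exp_pos _).le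
    calc (f y * f z * s) * s ≤ (f y * f z * s) * (K * noise ρ f x) :=
          mul_le_mul_of_nonneg_left h5 (mul_nonneg (mul_nonneg (hf y) (hf z)) hs0)
      _ = _ := by ring
  -- step 1
  have hL : ∀ y, f y * ∑ x ∈ univ.filter (fun x : Fin n → Bool =>
      Real.exp (n * (kap ρ - 2 * η)) ≤ noise ρ f x), wt ρ x y * (off ρ f (ε * n) x y / noise ρ f x) =
      ∑ x ∈ univ.filter (fun x : Fin n → Bool => Real.exp (n * (kap ρ - 2 * η)) ≤ noise ρ f x),
        ∑ z ∈ univ.filter (fun z : Fin n → Bool => ε * n < (hammingDist z y : ℝ)), F x y z := by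
    intro y
    rw [Finset.mul_sum]
    refine Finset.sum_congr rfl fun x _ => ?_
    unfold off
    rw [Finset.sum_div, Finset.mul_sum, Finset.mul_sum]
    refine Finset.sum_congr ?_ fun z _ => ?_
    · congr
    · simp only [F]
      ring
  rw [Finset.sum_congr rfl fun y _ => hL y]
  -- bound
  have hB : ∑ y, ∑ x, ∑ z, (if bg x y then F x y z else 0) ≤ 2 ^ n * E1 := by
    have e0 : 2 ^ n * E1 = ∑ y, f y * E1 := by rw [← Finset.sum_mul, hm]
    rw [e0]
    refine Finset.sum_le_sum fun y _ => ?_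
    refine le_trans ?_ (mul_le_mul_of_nonneg_left (hbig y) (hf y))
    rw [Finset.mul_sum]
    refine Finset.sum_le_sum fun x _ => ?_
    by_cases hb : bg x y
    · simp only [if_pos hb, F]
      rw [← Finset.sum_div, ← Finset.mul_sum]
      change f y * wt ρ x y * noise ρ f x / noise ρ f x ≤ _
      rw [mul_div_assoc]
      exact mul_le_of_le_one_right (mul_nonneg (hf y) (hwt x y)) (div_self_le_one _)
    · simp only [if_neg hb, Finset.sum_const_zero, mul_zero, le_refl]
  have hC : ∑ y, ∑ x, ∑ z, (if bg x z then F x y z else 0) ≤ 2 ^ n * E1 := by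
    refine le_trans (le_of_eq ?_) hB
    rw [Finset.sum_comm]
    have e1 : ∀ x, ∑ y, ∑ z, (if bg x z then F x y z else 0) =
        ∑ z, ∑ y, (if bg x z then F x z y else 0) := by
      intro x
      rw [Finset.sum_comm]
      exact Finset.sum_congr rfl fun z _ => Finset.sum_congr rfl fun y _ => by rw [hFs]
    rw [Finset.sum_congr rfl fun x _ => e1 x, Finset.sum_comm]
  have hA : ∀ y z : Fin n → Bool, ε * n < (hammingDist z y : ℝ) →
      ∑ x, K * (f y * f z * Real.sqrt (wt ρ x y * wt ρ x z)) ≤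
        K * (1 - ρ ^ 2) ^ (ε * n / 2) * (f y * f z) := by
    intro y z hyz
    have e1 : ∑ x, K * (f y * f z * Real.sqrt (wt ρ x y * wt ρ x z)) =
        K * (f y * f z) * Real.sqrt (1 - ρ ^ 2) ^ hammingDist y z := by
      rw [← Cd.affinity h0 h1 y z, Finset.mul_sum]
      exact Finset.sum_congr rfl fun x _ => by ring
    rw [e1]
    have hr0 : 0 < 1 - ρ ^ 2 := by nlinarith
    have hr1 : 1 - ρ ^ 2 ≤ 1 := by nlinarith [sq_nonneg ρ]
    have e2 : Real.sqrt (1 - ρ ^ 2) ^ hammingDist y z ≤ (1 - ρ ^ 2) ^ (ε * n / 2) := by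
      rw [Real.sqrt_eq_rpow, ← Real.rpow_natCast, ← Real.rpow_mul hr0.le]
      refine Real.rpow_le_rpow_of_exponent_ge hr0 hr1 ?_
      rw [hammingDist_comm y z]
      linarith
    have e3 : 0 ≤ K * (f y * f z) := mul_nonneg hK0 (mul_nonneg (hf y) (hf z))
    nlinarith [mul_le_mul_of_nonneg_left e2 e3]
  have hA' : ∑ y, ∑ x, ∑ z ∈ univ.filter (fun z : Fin n → Bool => ε * n < (hammingDist z y : ℝ)),
      K * (f y * f z * Real.sqrt (wt ρ x y * wt ρ x z)) ≤
      2 ^ n * (Real.exp (3 * η * n) * (1 - ρ ^ 2) ^ (ε * n / 2)) := by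
    have hr0 : 0 < 1 - ρ ^ 2 := by nlinarith
    have e4 : 0 ≤ K * (1 - ρ ^ 2) ^ (ε * n / 2) := mul_nonneg hK0 (Real.rpow_nonneg hr0.le _)
    have e5 : ∀ y, ∑ x, ∑ z ∈ univ.filter (fun z : Fin n → Bool => ε * n < (hammingDist z y : ℝ)),
        K * (f y * f z * Real.sqrt (wt ρ x y * wt ρ x z)) ≤
        K * (1 - ρ ^ 2) ^ (ε * n / 2) * (f y * 2 ^ n) := by
      intro y
      rw [Finset.sum_comm, ← hm, Finset.mul_sum, Finset.mul_sum]
      refine le_trans (Finset.sum_le_sum fun z hz => hA y z (by simpa using hz)) ?_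
      exact Finset.sum_le_sum_of_subset_of_nonneg (Finset.filter_subset _ _)
        fun z _ _ => mul_nonneg e4 (mul_nonneg (hf y) (hf z))
    refine le_trans (Finset.sum_le_sum fun y _ => e5 y) (le_of_eq ?_)
    rw [← Finset.mul_sum, ← Finset.sum_mul, hm, hK]
    field_simp
  have hmain : ∑ y, ∑ x ∈ univ.filter (fun x : Fin n → Bool =>
      Real.exp (n * (kap ρ - 2 * η)) ≤ noise ρ f x),
        ∑ z ∈ univ.filter (fun z : Fin n → Bool => ε * n < (hammingDist z y : ℝ)), F x y z ≤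
      ∑ y, ∑ x, ((∑ z ∈ univ.filter (fun z : Fin n → Bool => ε * n < (hammingDist z y : ℝ)),
        K * (f y * f z * Real.sqrt (wt ρ x y * wt ρ x z))) +
        (∑ z, (if bg x y then F x y z else 0) + ∑ z, (if bg x z then F x y z else 0))) := by
    refine Finset.sum_le_sum fun y _ => ?_
    have hnn : ∀ x : Fin n → Bool, 0 ≤ (∑ z ∈ univ.filter (fun z : Fin n → Bool => ε * n < (hammingDist z y : ℝ)),
        K * (f y * f z * Real.sqrt (wt ρ x y * wt ρ x z))) +
        (∑ z, (if bg x y then F x y z else 0) + ∑ z, (if bg x z then F x y z else 0)) := by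
      intro x
      refine add_nonneg (Finset.sum_nonneg fun z _ => mul_nonneg hK0
        (mul_nonneg (mul_nonneg (hf y) (hf z)) (Real.sqrt_nonneg _))) (add_nonneg ?_ ?_)
      · exact Finset.sum_nonneg fun z _ => by split_ifs <;> simp [hF0]
      · exact Finset.sum_nonneg fun z _ => by split_ifs <;> simp [hF0]
    refine le_trans ?_ (Finset.sum_le_sum_of_subset_of_nonneg (Finset.filter_subset
      (fun x : Fin n → Bool => Real.exp (n * (kap ρ - 2 * η)) ≤ noise ρ f x) univ)
      fun x _ _ => hnn x)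
    refine Finset.sum_le_sum fun x hx => ?_
    have hx' : Real.exp (n * (kap ρ - 2 * η)) ≤ noise ρ f x := by simpa using hx
    refine le_trans (Finset.sum_le_sum fun z _ => hpt x y z hx') ?_
    rw [Finset.sum_add_distrib, Finset.sum_add_distrib]
    refine add_le_add le_rfl (add_le_add ?_ ?_)
    · exact Finset.sum_le_sum_of_subset_of_nonneg (Finset.filter_subset _ _)
        fun z _ _ => by split_ifs <;> simp [hF0]
    · exact Finset.sum_le_sum_of_subset_of_nonneg (Finset.filter_subset _ _)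
        fun z _ _ => by split_ifs <;> simp [hF0]
  refine le_trans hmain ?_
  simp only [Finset.sum_add_distrib]
  linarith

end Pool.Agent.H63TC.Wi
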