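import Pool.Agent.H63TC.WiP1
import Pool.Agent.H63TC.WiP1b
import Pool.Agent.H63TC.WiP2
import Pool.Agent.H63TC.WiP3
import Pool.Agent.H63TC.WiP4
import Pool.Agent.H63TC.WiP5a
import Pool.Agent.H63TC.WiP5b

set_option autoImplicit false

open Finset

namespace Pool.Agent.H63TC.Wi

theorem off_ge {ρ : ℝ} (h0 : 0 < ρ) (h1 : ρ < 1) {n : ℕ} (hn : 0 < n) (f : (Fin n → Bool) → ℝ)
    (hf : ∀ x, 0 ≤ f x) (x y : Fin n → Bool) (e : ℝ) (he : 0 < e)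
    (h : e * n < ((exc ρ f x y).card : ℝ)) :
    e * (1 - ρ) / 8 * noise ρ f x ≤ off ρ f (e * (1 - ρ) / 8 * n) x y :=
  Pool.Agent.H33Dm.off_ge_of h0 h1 hn f hf (fun x y i hi h => ratio_exc h0 h1 f hf x y i hi h) x y e he h

open scoped Classical in
theorem pair {ρ : ℝ} (h0 : 0 < ρ) (h1 : ρ < 1) {n : ℕ} (f : (Fin n → Bool) → ℝ)
    (hf : ∀ x, 0 ≤ f x) (hm : ∑ x, f x = 2 ^ n) (η ε : ℝ) (hη : 0 < η) (hε : 0 < ε) :
    ∑ y, f y * ∑ x ∈ univ.filter (fun x : Fin n → Bool =>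
      Real.exp (n * (kap ρ - 2 * η)) ≤ noise ρ f x), wt ρ x y * (off ρ f (ε * n) x y / noise ρ f x) ≤
      2 ^ n * (Real.exp (3 * η * n) * (1 - ρ ^ 2) ^ (ε * n / 2) +
        2 * Real.exp (-(2 * η ^ 2 * n / (Real.log ((1 + ρ) / (1 - ρ))) ^ 2))) :=
  pair_of_big h0 h1 f hf hm η ε hη hε fun y => big h0 h1 y η hη

end Pool.Agent.H63TC.Wi
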