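import Pool.Agent.H63TC.WiDefs

set_option autoImplicit false

open Finset

namespace Pool.Agent.H63TC.Wi

private noncomputable def w1 (ρ : ℝ) (b c : Bool) : ℝ := if b = c then (1 + ρ) / 2 else (1 - ρ) / 2

private noncomputable def a1 (ρ : ℝ) (b c : Bool) : ℝ := (if b = c then 0 else 1) - (1 - ρ) / 2

private theorem wt_eq (ρ : ℝ) {n : ℕ} (x y : Fin n → Bool) :
    wt ρ x y = ∏ k, w1 ρ (x k) (y k) := rfl

private theorem w1_pos {ρ : ℝ} (h0 : 0 < ρ) (h1 : ρ < 1) (b c : Bool) : 0 < w1 ρ b c := by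
  unfold w1
  split_ifs <;> linarith

private theorem wt_nonneg {ρ : ℝ} (h0 : 0 < ρ) (h1 : ρ < 1) {n : ℕ} (x y : Fin n → Bool) :
    0 ≤ wt ρ x y := by
  rw [wt_eq]
  exact prod_nonneg fun k _ => (w1_pos h0 h1 _ _).le

private theorem sum_w1 (ρ : ℝ) (c : Bool) : ∑ b : Bool, w1 ρ b c = 1 := by
  cases c <;> simp [w1] <;> ring

private theorem sum_wt1 (ρ : ℝ) {n : ℕ} (y : Fin n → Bool) : ∑ x, wt ρ x y = 1 := by
  simp_rw [wt_eq]
  rw [← Fintype.prod_sum (κ := fun _ : Fin n => Bool)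
    (fun (k : Fin n) (b : Bool) => w1 ρ b (y k))]
  simp_rw [sum_w1]
  simp

private theorem cov (ρ : ℝ) {n : ℕ} (y : Fin n → Bool) (i j : Fin n) :
    ∑ x, wt ρ x y * (a1 ρ (x i) (y i) * a1 ρ (x j) (y j)) =
      if i = j then (1 - ρ) / 2 * ((1 + ρ) / 2) else 0 := by
  have h : ∀ x : Fin n → Bool, wt ρ x y * (a1 ρ (x i) (y i) * a1 ρ (x j) (y j)) =
      ∏ k, (w1 ρ (x k) (y k) * ((if k = i then a1 ρ (x k) (y k) else 1) *
        (if k = j then a1 ρ (x k) (y k) else 1))) := by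
    intro x
    rw [prod_mul_distrib, prod_mul_distrib, wt_eq]
    simp
  simp_rw [h]
  rw [← Fintype.prod_sum (κ := fun _ : Fin n => Bool)
    (fun (k : Fin n) (b : Bool) => w1 ρ b (y k) * ((if k = i then a1 ρ b (y k) else 1) *
        (if k = j then a1 ρ b (y k) else 1)))]
  split_ifs with hij
  · subst hij
    rw [prod_eq_single i]
    · cases y i <;> simp [w1, a1] <;> ring
    · intro k _ hk
      simp only [hk, if_false, mul_one]
      exact sum_w1 ρ _
    · intro hi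
      exact absurd (mem_univ i) hi
  · refine prod_eq_zero (mem_univ i) ?_
    simp only [if_true, hij, if_false, mul_one]
    cases y i <;> simp [w1, a1] <;> ring

private theorem var (ρ : ℝ) {n : ℕ} (y : Fin n → Bool) :
    ∑ x, wt ρ x y * (∑ i, a1 ρ (x i) (y i)) ^ 2 = n * ((1 - ρ) / 2 * ((1 + ρ) / 2)) := by
  have h : ∀ x : Fin n → Bool, wt ρ x y * (∑ i, a1 ρ (x i) (y i)) ^ 2 =
      ∑ i, ∑ j, wt ρ x y * (a1 ρ (x i) (y i) * a1 ρ (x j) (y j)) := by
    intro x
    rw [sq, sum_mul_sum, mul_sum]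
    refine sum_congr rfl fun i _ => ?_
    rw [mul_sum]
  simp_rw [h]
  rw [sum_comm]
  have h2 : ∀ i : Fin n, ∑ x : Fin n → Bool, ∑ j, wt ρ x y * (a1 ρ (x i) (y i) * a1 ρ (x j) (y j)) =
      (1 - ρ) / 2 * ((1 + ρ) / 2) := by
    intro i
    rw [sum_comm]
    simp_rw [cov]
    simp
  simp_rw [h2]
  simp

private theorem flip_flip {n : ℕ} (x : Fin n → Bool) (i : Fin n) : flip (flip x i) i = x := by
  funext k
  unfold flip
  by_cases hk : k = i
  · subst hk
    simp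
  · simp [hk]

private theorem wt_flip (ρ : ℝ) {n : ℕ} (x y : Fin n → Bool) (i : Fin n) :
    wt ρ (flip x i) y * w1 ρ (x i) (y i) = wt ρ x y * w1 ρ (!x i) (y i) := by
  rw [wt_eq, wt_eq, ← mul_prod_erase univ _ (mem_univ i),
    ← mul_prod_erase univ (fun k => w1 ρ (x k) (y k)) (mem_univ i)]
  have h : ∏ k ∈ univ.erase i, w1 ρ (flip x i k) (y k) = ∏ k ∈ univ.erase i, w1 ρ (x k) (y k) := by
    refine prod_congr rfl fun k hk => ?_
    have hk' : k ≠ i := (mem_erase.1 hk).1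
    simp [flip, hk']
  rw [h]
  have h3 : flip x i i = !x i := by simp [flip]
  rw [h3]
  ring

private theorem one_bit {ρ : ℝ} (h0 : 0 < ρ) (h1 : ρ < 1) {n : ℕ} (y : Fin n → Bool)
    (G : (Fin n → Bool) → ℝ) (i : Fin n) :
    ∑ x, wt ρ x y * (if x i = y i then G (flip x i) - G x else 0) =
      ∑ x, wt ρ x y * G x * (a1 ρ (x i) (y i) / ((1 - ρ) / 2)) := by
  have hq : (0 : ℝ) < (1 - ρ) / 2 := by linarith
  have hinv : Function.Involutive (fun x : Fin n → Bool => flip x i) := fun x => flip_flip x i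
  have e1 : ∑ x, wt ρ x y * (if x i = y i then G (flip x i) - G x else 0) =
      ∑ x, (if x i = y i then wt ρ x y * G (flip x i) else 0) -
        ∑ x, (if x i = y i then wt ρ x y * G x else 0) := by
    rw [← sum_sub_distrib]
    refine sum_congr rfl fun x _ => ?_
    split_ifs <;> ring
  have e2 : ∑ x : Fin n → Bool, (if x i = y i then wt ρ x y * G (flip x i) else 0) =
      ∑ x : Fin n → Bool, (if (!x i) = y i then wt ρ (flip x i) y * G x else 0) := by
    rw [← Equiv.sum_comp (Function.Involutive.toPerm _ hinv)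
      (fun x : Fin n → Bool => if x i = y i then wt ρ x y * G (flip x i) else 0)]
    refine sum_congr rfl fun x _ => ?_
    have h3 : flip x i i = !x i := by simp [flip]
    change (if flip x i i = y i then wt ρ (flip x i) y * G (flip (flip x i) i) else 0) = _
    rw [flip_flip, h3]
  rw [e1, e2, ← sum_sub_distrib]
  refine sum_congr rfl fun x _ => ?_
  have hf := wt_flip ρ x y i
  have hq' : (1 - ρ) ≠ 0 := by linarith
  by_cases hx : x i = y i
  · have hx' : ¬ (!x i) = y i := by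
      rw [hx]
      cases y i <;> simp
    rw [if_neg hx', if_pos hx]
    unfold a1
    rw [if_pos hx]
    field_simp
    ring
  · have hx' : (!x i) = y i := by
      revert hx
      cases x i <;> cases y i <;> simp
    simp only [w1, hx, hx', if_false, if_true] at hf
    simp only [hx', hx, if_false, if_true, a1]
    have h4 : wt ρ (flip x i) y = wt ρ x y * ((1 + ρ) / 2) / ((1 - ρ) / 2) := by
      rw [eq_div_iff hq.ne', hf]
    rw [h4]
    field_simp
    ring

theorem star {ρ : ℝ} (h0 : 0 < ρ) (h1 : ρ < 1) {n : ℕ} (y : Fin n → Bool)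
    (G : (Fin n → Bool) → ℝ) (hG0 : ∀ x, 0 ≤ G x) (hG2 : ∀ x, G x ≤ 2) :
    -(2 * Real.sqrt (n * ((1 + ρ) / (1 - ρ)))) ≤
      ∑ x, wt ρ x y * ∑ i ∈ univ.filter (fun i => x i = y i), (G (flip x i) - G x) := by
  have hq : (0 : ℝ) < (1 - ρ) / 2 := by linarith
  have e : ∑ x, wt ρ x y * ∑ i ∈ univ.filter (fun i => x i = y i), (G (flip x i) - G x) =
      ∑ x, wt ρ x y * G x * ((∑ i, a1 ρ (x i) (y i)) / ((1 - ρ) / 2)) := by
    have e1 : ∀ x : Fin n → Bool,
        wt ρ x y * ∑ i ∈ univ.filter (fun i => x i = y i), (G (flip x i) - G x) =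
        ∑ i, wt ρ x y * (if x i = y i then G (flip x i) - G x else 0) := by
      intro x
      rw [sum_filter, mul_sum]
    simp_rw [e1]
    rw [sum_comm]
    simp_rw [one_bit h0 h1]
    rw [sum_comm]
    refine sum_congr rfl fun x _ => ?_
    rw [← mul_sum, sum_div]
  rw [e]
  set A : (Fin n → Bool) → ℝ := fun x => ∑ i, a1 ρ (x i) (y i) with hA
  have hV := var ρ y
  -- Cauchy-Schwarz
  have cs : (∑ x, wt ρ x y * |A x|) ^ 2 ≤ (∑ x, wt ρ x y) * ∑ x, wt ρ x y * A x ^ 2 := by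
    have := sum_mul_sq_le_sq_mul_sq (univ : Finset (Fin n → Bool))
      (fun x => Real.sqrt (wt ρ x y)) (fun x => Real.sqrt (wt ρ x y) * |A x|)
    have e1 : ∀ x : Fin n → Bool, Real.sqrt (wt ρ x y) * (Real.sqrt (wt ρ x y) * |A x|) =
        wt ρ x y * |A x| := by
      intro x
      rw [← mul_assoc, Real.mul_self_sqrt (wt_nonneg h0 h1 x y)]
    have e2 : ∀ x : Fin n → Bool, (Real.sqrt (wt ρ x y)) ^ 2 = wt ρ x y := fun x =>
      Real.sq_sqrt (wt_nonneg h0 h1 x y)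
    have e3 : ∀ x : Fin n → Bool, (Real.sqrt (wt ρ x y) * |A x|) ^ 2 = wt ρ x y * A x ^ 2 := by
      intro x
      rw [mul_pow, e2, sq_abs]
    simp_rw [e1, e2, e3] at this
    exact this
  rw [sum_wt1, one_mul, hV] at cs
  have hB : ∑ x, wt ρ x y * |A x| ≤ Real.sqrt (n * ((1 - ρ) / 2 * ((1 + ρ) / 2))) :=
    Real.le_sqrt_of_sq_le cs
  have hfin : Real.sqrt (n * ((1 + ρ) / (1 - ρ))) =
      Real.sqrt (n * ((1 - ρ) / 2 * ((1 + ρ) / 2))) / ((1 - ρ) / 2) := by
    have hq' : (1 - ρ) ≠ 0 := by linarith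
    have : (n : ℝ) * ((1 + ρ) / (1 - ρ)) =
        n * ((1 - ρ) / 2 * ((1 + ρ) / 2)) / ((1 - ρ) / 2) ^ 2 := by
      field_simp
    rw [this, Real.sqrt_div' _ (by positivity), Real.sqrt_sq hq.le]
  have hlow : ∀ x : Fin n → Bool, -(2 * (wt ρ x y * |A x|) / ((1 - ρ) / 2)) ≤
      wt ρ x y * G x * (A x / ((1 - ρ) / 2)) := by
    intro x
    have hw := wt_nonneg h0 h1 x y
    have h5 : -(2 * |A x|) ≤ G x * A x := by
      have h6 : |G x * A x| ≤ 2 * |A x| := by
        rw [abs_mul, abs_of_nonneg (hG0 x)]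
        exact mul_le_mul_of_nonneg_right (hG2 x) (abs_nonneg _)
      exact (abs_le.1 h6).1
    have h7 : wt ρ x y * G x * (A x / ((1 - ρ) / 2)) =
        wt ρ x y * (G x * A x) / ((1 - ρ) / 2) := by ring
    have h8 : -(2 * (wt ρ x y * |A x|) / ((1 - ρ) / 2)) =
        wt ρ x y * (-(2 * |A x|)) / ((1 - ρ) / 2) := by ring
    rw [h7, h8]
    exact div_le_div_of_nonneg_right (mul_le_mul_of_nonneg_left h5 hw) hq.le
  calc -(2 * Real.sqrt (n * ((1 + ρ) / (1 - ρ))))
      = -(2 * Real.sqrt (n * ((1 - ρ) / 2 * ((1 + ρ) / 2))) / ((1 - ρ) / 2)) := by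
        rw [hfin]
        ring
    _ ≤ -(2 * (∑ x, wt ρ x y * |A x|) / ((1 - ρ) / 2)) := by
        refine neg_le_neg (div_le_div_of_nonneg_right ?_ hq.le)
        linarith
    _ = ∑ x, -(2 * (wt ρ x y * |A x|) / ((1 - ρ) / 2)) := by
        rw [sum_neg_distrib, ← sum_div, ← mul_sum]
    _ ≤ ∑ x, wt ρ x y * G x * (A x / ((1 - ρ) / 2)) := sum_le_sum fun x _ => hlow x

end Pool.Agent.H63TC.Wi
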